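import Mathlib
import Pool.Agent.Q17.IG.Prp
import Pool.Agent.Y676.IS.Iso

/-! The 2-isogenies between linked curves and their kernels. -/

set_option autoImplicit false

namespace Pool.Agent.Q17.TN

open WeierstrassCurve
open Pool.Agent.W307.RT (Sh)
open Pool.Agent.TH841.SH.D (Pt act)
open Pool.Agent.TH841.LS (WI)
open Pool.Agent.TH841.PT (EQ)
open Pool.Agent.Y676.IS (NH isoH isoW_ker isoW_x0 datPsi datPhi isoH_act isoH_dbl)
open Pool.Agent.Q17.IG (Lk Sb nh nh_inv NHcomp some_congr)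

section sub

variable {F : Type} [Field F] {u r : F} {W W' : WeierstrassCurve F}

lemma tF_ker (S : Sb u r W W') (P : W.toAffine.Point) : S.tF P = 0 ↔ P = 0 := by
  rcases P with _ | ⟨x, y, h⟩
  · exact ⟨fun _ => rfl, fun _ => rfl⟩
  · constructor
    · intro h'
      exact absurd h' (by simp [Sb.tF_some])
    · intro h'
      exact absurd h' (by simp)

lemma tF_eq (S : Sb u r W W') (P : W.toAffine.Point) (x' : F) :
    (∃ h', S.tF P = .some x' 0 h') ↔ ∃ h, P = .some ((x' - r) / u ^ 2) 0 h := by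
  have hu := S.hu
  have hu2 : u ^ 2 ≠ 0 := pow_ne_zero _ S.hu
  have hu3 : u ^ 3 ≠ 0 := pow_ne_zero _ S.hu
  rcases P with _ | ⟨x, y, h⟩
  · constructor
    · rintro ⟨h', h''⟩
      exact absurd h'' (by simp [Sb.tF])
    · rintro ⟨h', h''⟩
      exact absurd h'' (by simp)
  · constructor
    · rintro ⟨h', h''⟩
      rw [Sb.tF_some, Affine.Point.some.injEq] at h''
      obtain ⟨h1, h2⟩ := h''
      have hy : y = 0 := (mul_eq_zero.1 h2).resolve_left hu3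
      have hx : x = (x' - r) / u ^ 2 := by
        rw [← h1]
        field_simp
        ring
      subst hy hx
      exact ⟨h, rfl⟩
    · rintro ⟨h', h''⟩
      rw [Affine.Point.some.injEq] at h''
      obtain ⟨h1, h2⟩ := h''
      subst h2 h1
      have e1 : u ^ 2 * ((x' - r) / u ^ 2) + r = x' := by
        field_simp
        ring
      have e2 : u ^ 3 * (0 : F) = 0 := mul_zero _
      have h3 := (S.ns_iff _ _).2 h
      rw [e1, e2] at h3
      refine ⟨h3, ?_⟩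
      rw [Sb.tF_some]
      exact some_congr _ _ e1 e2

end sub

lemma sb1 {c c' : ℤ × ℤ} {e q : ℤ} {u : ℕ} {r : ℤ} (L : Lk c c' e q u r) :
    Sb (2 : ℚ) (-(4 * (e : ℚ))) (Sh c.1 c.2) (WI (3 * e + 2 * q) (3 * e - 2 * q)) := by
  refine ⟨two_ne_zero, rfl, rfl, rfl, rfl, ?_, ?_, ?_⟩
  · change 3 * (-(4 * (e : ℚ))) + 2 * (((3 * e + 2 * q : ℤ) : ℚ) + ((3 * e - 2 * q : ℤ) : ℚ)) =
      2 ^ 2 * 0
    push_cast
    ring
  · change 3 * (-(4 * (e : ℚ))) ^ 2 + 2 * (2 * (((3 * e + 2 * q : ℤ) : ℚ) +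
        ((3 * e - 2 * q : ℤ) : ℚ))) * (-(4 * (e : ℚ))) +
        (((3 * e + 2 * q : ℤ) : ℚ) - ((3 * e - 2 * q : ℤ) : ℚ)) ^ 2 = 2 ^ 4 * ((c.1 : ℤ) : ℚ)
    rw [L.hc1]
    push_cast
    ring
  · change (-(4 * (e : ℚ))) ^ 3 + (2 * (((3 * e + 2 * q : ℤ) : ℚ) +
        ((3 * e - 2 * q : ℤ) : ℚ))) * (-(4 * (e : ℚ))) ^ 2 +
        (((3 * e + 2 * q : ℤ) : ℚ) - ((3 * e - 2 * q : ℤ) : ℚ)) ^ 2 * (-(4 * (e : ℚ))) + 0 =
        2 ^ 6 * ((c.2 : ℤ) : ℚ)
    rw [L.hc2]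
    push_cast
    ring

lemma sb2 {c c' : ℤ × ℤ} {e q : ℤ} {u : ℕ} {r : ℤ} (L : Lk c c' e q u r) :
    Sb ((u : ℚ)⁻¹) (r : ℚ) (EQ (3 * e + 2 * q) (3 * e - 2 * q)) (Sh c'.1 c'.2) := by
  have h := L.sb 1
  simp only [one_mul, one_pow, Int.cast_one] at h
  exact h

lemma ne_of {c c' : ℤ × ℤ} {e q : ℤ} {u : ℕ} {r : ℤ} (L : Lk c c' e q u r) :
    3 * e + 2 * q ≠ 3 * e - 2 * q ∧ 3 * e + 2 * q ≠ 0 ∧ 3 * e - 2 * q ≠ 0 := by
  obtain ⟨h1, h2⟩ := L.ne
  have h9' : (3 * e + 2 * q) * (3 * e - 2 * q) ≠ 0 := by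
    intro h
    apply h2
    linear_combination -h
  exact ⟨fun h => h1 (by omega), left_ne_zero_of_mul h9', right_ne_zero_of_mul h9'⟩

lemma nh_inv' {u r : ℚ} {W W' : WeierstrassCurve ℚ} (S : Sb u r W W') (F : Type) [Field F]
    [Algebra ℚ F] (P : Pt W' F) : (nh S).f F ((nh S.inv).f F P) = P := by
  rcases P with _ | ⟨x, y, hxy⟩
  · rfl
  · have hu : (algebraMap ℚ F u) ≠ 0 := (map_ne_zero _).2 S.hu
    apply some_congr
    · rw [map_inv₀, map_neg, map_div₀, map_pow]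
      field_simp
      ring
    · rw [map_inv₀]
      field_simp

/-- the 2-isogeny and its dual, with the kernels -/
theorem hom {c c' : ℤ × ℤ} {e q : ℤ} {u : ℕ} {r : ℤ} (L : Lk c c' e q u r) :
    ∃ (θ : NH (Sh c.1 c.2) (Sh c'.1 c'.2)) (θ' : NH (Sh c'.1 c'.2) (Sh c.1 c.2)),
      (∀ (F : Type) [Field F] [Algebra ℚ F] (P : Pt (Sh c.1 c.2) F), θ'.f F (θ.f F P) = P + P) ∧
      (∀ (F : Type) [Field F] [Algebra ℚ F] (P : Pt (Sh c'.1 c'.2) F),
        θ.f F (θ'.f F P) = P + P) ∧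
      (∀ (F : Type) [Field F] [Algebra ℚ F] (P : Pt (Sh c.1 c.2) F), θ.f F P = 0 ↔
        P = 0 ∨ ∃ h, P = (Affine.Point.some ((e : ℤ) : F) 0 h :
          ((Sh c.1 c.2).baseChange F).toAffine.Point)) ∧
      (∀ (F : Type) [Field F] [Algebra ℚ F] (P : Pt (Sh c'.1 c'.2) F), θ'.f F P = 0 ↔
        P = 0 ∨ ∃ h, P = (Affine.Point.some ((r : ℤ) : F) 0 h :
          ((Sh c'.1 c'.2).baseChange F).toAffine.Point)) := by
  obtain ⟨h12, hA, hB⟩ := ne_of L
  let ψ : NH (WI (3 * e + 2 * q) (3 * e - 2 * q)) (EQ (3 * e + 2 * q) (3 * e - 2 * q)) :=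
    ⟨fun F _ _ => isoH F (datPsi h12 hA hB), fun F L _ _ _ _ f P => isoH_act F _ f P⟩
  let φ : NH (EQ (3 * e + 2 * q) (3 * e - 2 * q)) (WI (3 * e + 2 * q) (3 * e - 2 * q)) :=
    ⟨fun F _ _ => isoH F (datPhi h12 hA hB), fun F L _ _ _ _ f P => isoH_act F _ f P⟩
  have h1 : ∀ (F : Type) [Field F] [Algebra ℚ F]
      (P : Pt (WI (3 * e + 2 * q) (3 * e - 2 * q)) F), φ.f F (ψ.f F P) = P + P :=
    fun F _ _ P => isoH_dbl F _ _ (by norm_num) P
  have h2 : ∀ (F : Type) [Field F] [Algebra ℚ F]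
      (P : Pt (EQ (3 * e + 2 * q) (3 * e - 2 * q)) F), ψ.f F (φ.f F P) = P + P :=
    fun F _ _ P => isoH_dbl F _ _ (by norm_num) P
  have h3 : ∀ (F : Type) [Field F] [Algebra ℚ F]
      (P : Pt (WI (3 * e + 2 * q) (3 * e - 2 * q)) F), ψ.f F P = 0 ↔ P = 0 ∨
        ∃ h, P = (Affine.Point.some 0 0 h :
          ((WI (3 * e + 2 * q) (3 * e - 2 * q)).baseChange F).toAffine.Point) := by
    intro F _ _ P
    have : CharZero F := algebraRat.charZero F
    constructor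
    · intro hP
      exact isoW_ker ((datPsi h12 hA hB).w F) ((datPsi h12 hA hB).w' F)
        ((datPsi h12 hA hB).base F) P hP
    · rintro (h | ⟨h, hh⟩)
      · rw [h, map_zero]
      · rw [hh]
        exact isoW_x0 ((datPsi h12 hA hB).w F) ((datPsi h12 hA hB).w' F)
          ((datPsi h12 hA hB).base F) h rfl
  have h4 : ∀ (F : Type) [Field F] [Algebra ℚ F]
      (P : Pt (EQ (3 * e + 2 * q) (3 * e - 2 * q)) F), φ.f F P = 0 ↔ P = 0 ∨
        ∃ h, P = (Affine.Point.some 0 0 h :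
          ((EQ (3 * e + 2 * q) (3 * e - 2 * q)).baseChange F).toAffine.Point) := by
    intro F _ _ P
    have : CharZero F := algebraRat.charZero F
    constructor
    · intro hP
      exact isoW_ker ((datPhi h12 hA hB).w F) ((datPhi h12 hA hB).w' F)
        ((datPhi h12 hA hB).base F) P hP
    · rintro (h | ⟨h, hh⟩)
      · rw [h, map_zero]
      · rw [hh]
        exact isoW_x0 ((datPhi h12 hA hB).w F) ((datPhi h12 hA hB).w' F)
          ((datPhi h12 hA hB).base F) h rfl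
  have S1 := sb1 L
  have S2 := sb2 L
  have hinv := @nh_inv'
  refine ⟨NHcomp (nh S2) (NHcomp ψ (nh S1)), NHcomp (nh S1.inv) (NHcomp φ (nh S2.inv)),
    fun F _ _ P => ?_, fun F _ _ P => ?_, fun F _ _ P => ?_, fun F _ _ P => ?_⟩
  · change (nh S1.inv).f F (φ.f F ((nh S2.inv).f F ((nh S2).f F (ψ.f F ((nh S1).f F P))))) = P + P
    rw [nh_inv, h1, map_add, nh_inv]
  · change (nh S2).f F (ψ.f F ((nh S1).f F ((nh S1.inv).f F (φ.f F ((nh S2.inv).f F P))))) = P + P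
    rw [hinv, h2, map_add, hinv]
  · change (nh S2).f F (ψ.f F ((nh S1).f F P)) = 0 ↔ _
    have a1 : ∀ Q, (nh S2).f F Q = 0 ↔ Q = 0 := fun Q => tF_ker (S2.map (algebraMap ℚ F)) Q
    rw [a1, h3]
    have a2 : ∀ Q, (nh S1).f F Q = 0 ↔ Q = 0 := fun Q => tF_ker (S1.map (algebraMap ℚ F)) Q
    rw [a2]
    refine or_congr_right ?_
    refine (tF_eq (S1.map (algebraMap ℚ F)) P 0).trans ?_
    have e1 : (0 - algebraMap ℚ F (-(4 * (e : ℚ)))) / (algebraMap ℚ F 2) ^ 2 = ((e : ℤ) : F) := by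
      have : CharZero F := algebraRat.charZero F
      simp only [map_neg, map_mul, map_ofNat, map_intCast]
      field_simp
      ring
    rw [e1]
    rfl
  · change (nh S1.inv).f F (φ.f F ((nh S2.inv).f F P)) = 0 ↔ _
    have a1 : ∀ Q, (nh S1.inv).f F Q = 0 ↔ Q = 0 := fun Q =>
      tF_ker (S1.inv.map (algebraMap ℚ F)) Q
    rw [a1, h4]
    have a2 : ∀ Q, (nh S2.inv).f F Q = 0 ↔ Q = 0 := fun Q =>
      tF_ker (S2.inv.map (algebraMap ℚ F)) Q
    rw [a2]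
    refine or_congr_right ?_
    refine (tF_eq (S2.inv.map (algebraMap ℚ F)) P 0).trans ?_
    have e1 : (0 - algebraMap ℚ F (-((r : ℚ) / ((u : ℚ)⁻¹) ^ 2))) /
        (algebraMap ℚ F ((u : ℚ)⁻¹)⁻¹) ^ 2 = ((r : ℤ) : F) := by
      have : CharZero F := algebraRat.charZero F
      have hu0 : ((u : ℕ) : F) ≠ 0 := by exact_mod_cast L.hu.ne'
      simp only [map_neg, map_div₀, map_pow, map_inv₀, map_natCast, map_intCast, inv_inv]
      field_simp
      ring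
    rw [e1]
    rfl

end Pool.Agent.Q17.TN
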