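import Mathlib
import Pool.Agent.Q17.IG.Cyc
import Pool.Agent.Q17.TN.Ker
import Pool.Agent.W307.RT.Tors
import Pool.Agent.Y676.IS.Tr
import Pool.Agent.Q8.NS.Rk

/-! Rational cyclic subgroups of order `2 n` with `n` rational points, and the subgroups
`Z/2 x Z/n` of the quotient by the point of order two. -/

set_option autoImplicit false

attribute [-instance] DivisionRing.toRatAlgebra

namespace Pool.Agent.Q17.TN

open WeierstrassCurve
open Pool.Agent.W307.RT (Sh HasT)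
open Pool.Agent.TH841.SH.D (Pt act)
open Pool.Agent.TH841.PT (EQ)
open Pool.Agent.Y676.IS (NH div2)
open Pool.Agent.Q17.IG (Lk Sb nh nh_inv NHcomp some_congr QQ EC int_of_rat)

open Classical in
/-- `y² = x³ + A x + B` has a point `P` of order `2 n` over the algebraic numbers such that
`σ P = P` or `σ P = (n + 1) P` for all automorphisms `σ`, that is, a rational cyclic subgroup of
order `2 n` whose subgroup of order `n` consists of rational points -/
def CycN (n : ℕ) (A B : ℤ) : Prop :=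
  ∃ P : ((EC A B).baseChange QQ).toAffine.Point, addOrderOf P = 2 * n ∧
    ∀ σ : QQ ≃ₐ[ℚ] QQ,
      Affine.Point.map (W' := (EC A B).toAffine) (σ : QQ →ₐ[ℚ] QQ) P = P ∨
      Affine.Point.map (W' := (EC A B).toAffine) (σ : QQ →ₐ[ℚ] QQ) P = (n + 1) • P

lemma cycN_iff {n : ℕ} {A B : ℤ} : CycN n A B ↔ ∃ P : Pt (Sh A B) QQ, addOrderOf P = 2 * n ∧
    ∀ σ : QQ ≃ₐ[ℚ] QQ, act (Sh A B) (σ : QQ →ₐ[ℚ] QQ) P = P ∨
      act (Sh A B) (σ : QQ →ₐ[ℚ] QQ) P = (n + 1) • P := Iff.rfl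

/-- points of order four and their doubles -/
lemma four_pt {L : Type} [Field L] [CharZero L] [DecidableEq L] {W : WeierstrassCurve.Affine L}
    (h1 : W.a₁ = 0) (h2 : W.a₂ = 0) (h3 : W.a₃ = 0) {x y : L} (h : W.Nonsingular x y)
    (h4 : (Affine.Point.some x y h + Affine.Point.some x y h : W.Point) ≠ 0)
    (h5 : (Affine.Point.some x y h + Affine.Point.some x y h : W.Point) +
        (Affine.Point.some x y h + Affine.Point.some x y h) = 0) :
    ∃ (e : L) (h' : W.Nonsingular e 0),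
      (Affine.Point.some x y h + Affine.Point.some x y h : W.Point) = Affine.Point.some e 0 h' ∧
      e ^ 3 + W.a₄ * e + W.a₆ = 0 ∧ (x - e) ^ 2 = 3 * e ^ 2 + W.a₄ := by
  have hneg : ∀ x' y' : L, W.negY x' y' = -y' := by
    intro x' y'
    rw [Affine.negY, h1, h3]
    ring
  have heq : ∀ {x' y' : L}, W.Nonsingular x' y' → y' ^ 2 = x' ^ 3 + W.a₄ * x' + W.a₆ := by
    intro x' y' h'
    have := (Affine.equation_iff ..).1 h'.1
    rw [h1, h2, h3] at this
    linear_combination this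
  have hy : y ≠ 0 := by
    intro hy
    apply h4
    exact Affine.Point.add_self_of_Y_eq (by rw [hneg, hy, neg_zero])
  have hyn : y ≠ W.negY x y := by
    rw [hneg]
    intro h4
    apply hy
    have : (2 : L) * y = 0 := by linear_combination h4
    exact (mul_eq_zero.1 this).resolve_left two_ne_zero
  rw [Affine.Point.add_self_of_Y_ne hyn] at h5 ⊢
  obtain ⟨l, hl⟩ : ∃ l : L, l = W.slope x x y y := ⟨_, rfl⟩
  have hl2 : l * (2 * y) = 3 * x ^ 2 + W.a₄ := by
    rw [hl, Affine.slope_of_Y_ne rfl hyn, hneg, h1, h2]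
    have : y - -y ≠ 0 := by
      rw [sub_neg_eq_add, ← two_mul]
      exact mul_ne_zero two_ne_zero hy
    field_simp
    ring
  have hX : W.addX x x (W.slope x x y y) = l ^ 2 - 2 * x := by
    rw [← hl, Affine.addX, h1, h2]
    ring
  have hY : W.addY x x y (W.slope x x y y) = -(l * (l ^ 2 - 2 * x - x) + y) := by
    rw [Affine.addY, Affine.negAddY, hneg, hX, ← hl]
  have hns := W.nonsingular_add h h fun hxy => hyn hxy.right
  have hyy := heq h
  have h6 : W.addY x x y (W.slope x x y y) = 0 := by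
    by_contra hne
    have h7 : W.addY x x y (W.slope x x y y) ≠
        W.negY (W.addX x x (W.slope x x y y)) (W.addY x x y (W.slope x x y y)) := by
      rw [hneg]
      intro h4
      apply hne
      have : (2 : L) * W.addY x x y (W.slope x x y y) = 0 := by linear_combination h4
      exact (mul_eq_zero.1 this).resolve_left two_ne_zero
    rw [Affine.Point.add_self_of_Y_ne h7] at h5
    exact absurd h5 (by simp)
  refine ⟨l ^ 2 - 2 * x, by rw [← hX, ← h6]; exact hns, some_congr _ _ hX h6, ?_, ?_⟩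
  · have h7 := heq hns
    rw [h6, hX] at h7
    linear_combination -h7
  · rw [hY] at h6
    have h7 := heq hns
    rw [hY, h6, hX] at h7
    obtain ⟨e, he⟩ : ∃ e : L, e = l ^ 2 - 2 * x := ⟨_, rfl⟩
    rw [← he] at h6 h7 ⊢
    have h8 : l * (x - e) = y := by linear_combination h6
    have hxe : x - e ≠ 0 := by
      intro h9
      rw [h9, mul_zero] at h8
      exact hy h8.symm
    apply mul_left_cancel₀ hxe
    have h9 : (3 * x ^ 2 + W.a₄) * (x - e) = 2 * y ^ 2 := by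
      rw [← hl2, ← h8]
      ring
    linear_combination h9 + 2 * hyy - 2 * h7

/-- the map from the rational points -/
noncomputable def io (W : WeierstrassCurve ℚ) : Pt W ℚ →+ Pt W QQ := act W (Algebra.ofId ℚ QQ)

lemma io_inj (W : WeierstrassCurve ℚ) : Function.Injective (io W) :=
  Pool.Agent.Y676.IS.act_inj W (Algebra.ofId ℚ QQ)

lemma io_fix (W : WeierstrassCurve ℚ) (σ : QQ ≃ₐ[ℚ] QQ) (P : Pt W ℚ) :
    act W (σ : QQ →ₐ[ℚ] QQ) (io W P) = io W P := by
  rcases P with _ | ⟨x, y, h⟩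
  · rfl
  · apply some_congr
    · exact σ.commutes x
    · exact σ.commutes y

lemma exists_rat {x : QQ} (h : ∀ σ : QQ ≃ₐ[ℚ] QQ, σ x = x) : ∃ X : ℚ, algebraMap ℚ QQ X = x := by
  have hgal : IsGalois ℚ QQ := IsAlgClosure.isGalois ℚ QQ
  have hx : x ∈ (⊥ : IntermediateField ℚ QQ) := (InfiniteGalois.mem_bot_iff_fixed x).2 h
  exact IntermediateField.mem_bot.1 hx

/-- descent of points -/
lemma exists_io (W : WeierstrassCurve ℚ) (P : Pt W QQ)
    (h : ∀ σ : QQ ≃ₐ[ℚ] QQ, act W (σ : QQ →ₐ[ℚ] QQ) P = P) : ∃ P0 : Pt W ℚ, io W P0 = P := by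
  classical
  rcases P with _ | ⟨x, y, hxy⟩
  · exact ⟨0, map_zero _⟩
  · have h1 : ∀ σ : QQ ≃ₐ[ℚ] QQ, σ x = x ∧ σ y = y := by
      intro σ
      have h2 := h σ
      exact (Affine.Point.some.injEq ..).mp h2 |>.imp id id
    obtain ⟨X, hX⟩ := exists_rat fun σ => (h1 σ).1
    obtain ⟨Y, hY⟩ := exists_rat fun σ => (h1 σ).2
    subst hX hY
    have h2 : (W.baseChange ℚ).toAffine.Nonsingular X Y :=
      (Affine.baseChange_nonsingular W (Algebra.ofId ℚ QQ).injective ..).mp hxy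
    exact ⟨.some X Y h2, rfl⟩

/-- the subgroup of the rational points, from the fixed points over the algebraic numbers -/
lemma hasT_of_QQ {W : WeierstrassCurve ℚ} {n : ℕ} {X T : Pt W QQ} (hX : addOrderOf X = n)
    (hT : addOrderOf T = 2) (hXT : T ∉ AddSubgroup.zmultiples X)
    (h1 : ∀ σ : QQ ≃ₐ[ℚ] QQ, act W (σ : QQ →ₐ[ℚ] QQ) X = X)
    (h2 : ∀ σ : QQ ≃ₐ[ℚ] QQ, act W (σ : QQ →ₐ[ℚ] QQ) T = T) : HasT n W := by
  obtain ⟨X0, rfl⟩ := exists_io W X h1
  obtain ⟨T0, rfl⟩ := exists_io W T h2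
  rw [addOrderOf_injective _ (io_inj W)] at hX hT
  obtain ⟨e⟩ := Pool.Agent.Q8.NS.exists_bcE W
  refine ⟨e X0, e T0, ?_, ?_, ?_⟩
  · rw [← hX]
    exact addOrderOf_injective e.toAddMonoidHom e.injective X0
  · rw [← hT]
    exact addOrderOf_injective e.toAddMonoidHom e.injective T0
  · intro h
    apply hXT
    obtain ⟨j, hj⟩ := AddSubgroup.mem_zmultiples_iff.1 h
    refine AddSubgroup.mem_zmultiples_iff.2 ⟨j, ?_⟩
    rw [← map_zsmul]
    apply congrArg
    apply e.injective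
    rw [map_zsmul]
    exact hj

lemma HasT.toQQ {W : WeierstrassCurve ℚ} {n : ℕ} (h : HasT n W) : ∃ X T : Pt W QQ,
    addOrderOf X = n ∧ addOrderOf T = 2 ∧ T ∉ AddSubgroup.zmultiples X ∧
    (∀ σ : QQ ≃ₐ[ℚ] QQ, act W (σ : QQ →ₐ[ℚ] QQ) X = X) ∧
    (∀ σ : QQ ≃ₐ[ℚ] QQ, act W (σ : QQ →ₐ[ℚ] QQ) T = T) := by
  obtain ⟨P, Q, h1, h2, h3⟩ := h
  obtain ⟨e⟩ := Pool.Agent.Q8.NS.exists_bcE W
  have hinj : Function.Injective ((io W).comp e.symm.toAddMonoidHom) :=
    (io_inj W).comp e.symm.injective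
  refine ⟨io W (e.symm P), io W (e.symm Q), ?_, ?_, ?_, fun σ => io_fix W σ _,
    fun σ => io_fix W σ _⟩
  · rw [← h1]
    exact addOrderOf_injective ((io W).comp e.symm.toAddMonoidHom) hinj P
  · rw [← h2]
    exact addOrderOf_injective ((io W).comp e.symm.toAddMonoidHom) hinj Q
  · intro h
    apply h3
    obtain ⟨j, hj⟩ := AddSubgroup.mem_zmultiples_iff.1 h
    refine AddSubgroup.mem_zmultiples_iff.2 ⟨j, ?_⟩
    apply hinj
    rw [map_zsmul]
    exact hj

/-- **from the curve to its quotient** -/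
theorem fwd {n m : ℕ} (hn : n = 2 * m) (hm : 1 ≤ m) {c : ℤ × ℤ} (h : CycN n c.1 c.2) :
    ∃ e q : ℤ, c.1 = q ^ 2 - 3 * e ^ 2 ∧ c.2 = 2 * e ^ 3 - q ^ 2 * e ∧
      ∀ (c' : ℤ × ℤ) (u : ℕ) (r : ℤ), Lk c c' e q u r → HasT n (Sh c'.1 c'.2) := by
  classical
  obtain ⟨P, hP, hPσ⟩ := cycN_iff.1 h
  have a1 : ((Sh c.1 c.2).baseChange QQ).toAffine.a₁ = 0 := map_zero _
  have a2 : ((Sh c.1 c.2).baseChange QQ).toAffine.a₂ = 0 := map_zero _
  have a3 : ((Sh c.1 c.2).baseChange QQ).toAffine.a₃ = 0 := map_zero _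
  have a4 : ((Sh c.1 c.2).baseChange QQ).toAffine.a₄ = (c.1 : QQ) := map_intCast _ _
  have a6 : ((Sh c.1 c.2).baseChange QQ).toAffine.a₆ = (c.2 : QQ) := map_intCast _ _
  have h2n : (2 * n) • P = 0 := by
    rw [← hP]
    exact addOrderOf_nsmul_eq_zero P
  have hjP : ∀ j : ℕ, j • P = 0 → 2 * n ∣ j := by
    intro j hj
    rw [← hP]
    exact addOrderOf_dvd_of_nsmul_eq_zero hj
  -- the point of order four
  obtain ⟨S, hS⟩ : ∃ S, S = m • P := ⟨_, rfl⟩
  have hSS : S + S = n • P := by rw [hS, ← two_nsmul, ← mul_nsmul', hn]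
  have hW0 : S + S ≠ 0 := by
    rw [hSS]
    intro h0
    have := Nat.le_of_dvd (by omega) (hjP n h0)
    omega
  have hW2 : (S + S) + (S + S) = 0 := by
    rw [hSS, ← two_nsmul, ← mul_nsmul', h2n]
  have hnn : n • (n • P) = 0 := by
    rw [← mul_nsmul', hn, show 2 * m * (2 * m) = m * (2 * (2 * m)) by ring, mul_nsmul', ← hn,
      h2n, nsmul_zero]
  have hWσ : ∀ σ : QQ ≃ₐ[ℚ] QQ, act (Sh c.1 c.2) (σ : QQ →ₐ[ℚ] QQ) (n • P) = n • P := by
    intro σ
    rw [map_nsmul]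
    rcases hPσ σ with h1 | h1
    · rw [h1]
    · rw [h1, add_nsmul, one_nsmul, nsmul_add, hnn, zero_add]
  have hSσ : ∀ σ : QQ ≃ₐ[ℚ] QQ, act (Sh c.1 c.2) (σ : QQ →ₐ[ℚ] QQ) S = S ∨
      act (Sh c.1 c.2) (σ : QQ →ₐ[ℚ] QQ) S = -S := by
    intro σ
    rw [hS, map_nsmul]
    rcases hPσ σ with h1 | h1
    · exact Or.inl (by rw [h1])
    · rw [h1, add_nsmul, one_nsmul, nsmul_add]
      rcases Nat.even_or_odd m with ⟨k, hk⟩ | ⟨k, hk⟩
      · left
        have : m • n • P = 0 := by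
          rw [← mul_nsmul', show m * n = k * (2 * n) by rw [hk]; ring, mul_nsmul', h2n, nsmul_zero]
        rw [this, zero_add]
      · right
        have e1 : m • n • P = n • P := by
          rw [← mul_nsmul', show m * n = k * (2 * n) + n by rw [hk]; ring, add_nsmul, mul_nsmul',
            h2n, nsmul_zero, zero_add]
        rw [e1, eq_neg_iff_add_eq_zero, ← hS, ← hSS]
        have e2 : S + S + S + S = (S + S) + (S + S) := by abel
        rw [e2, hW2]
  rcases S with _ | ⟨x, y, hxy⟩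
  · exact absurd (add_zero _) hW0
  obtain ⟨e, h', he1, he2, he3⟩ := four_pt a1 a2 a3 hxy hW0 hW2
  rw [a4, a6] at he2
  rw [a4] at he3
  have hxσ : ∀ σ : QQ ≃ₐ[ℚ] QQ, σ x = x := by
    intro σ
    rcases hSσ σ with h1 | h1
    · exact ((Affine.Point.some.injEq ..).mp h1).1
    · exact ((Affine.Point.some.injEq ..).mp h1).1
  have hWe : n • P = (Affine.Point.some e 0 h' : Pt (Sh c.1 c.2) QQ) := hSS.symm.trans he1
  have heσ : ∀ σ : QQ ≃ₐ[ℚ] QQ, σ e = e := by
    intro σ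
    have h1 := hWσ σ
    rw [hWe] at h1
    exact ((Affine.Point.some.injEq ..).mp h1).1
  obtain ⟨X, hX⟩ := exists_rat hxσ
  obtain ⟨R, hR⟩ := exists_rat heσ
  have hX' : x = ((X : ℚ) : QQ) := by
    rw [← hX]
    exact (eq_ratCast (algebraMap ℚ QQ) X)
  have hR' : e = ((R : ℚ) : QQ) := by
    rw [← hR]
    exact (eq_ratCast (algebraMap ℚ QQ) R)
  have he' : R ^ 3 + c.1 * R + c.2 = 0 := by
    rw [hR'] at he2
    have : ((R ^ 3 + c.1 * R + c.2 : ℚ) : QQ) = ((0 : ℚ) : QQ) := by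
      push_cast
      exact he2
    exact_mod_cast this
  obtain ⟨k, hk⟩ := int_of_rat (x := R) (a := 0) (b := c.1) (c := c.2) (by
    push_cast
    linear_combination he')
  have hq' : (X - R) ^ 2 = 3 * R ^ 2 + c.1 := by
    rw [hR', hX'] at he3
    have : (((X - R) ^ 2 : ℚ) : QQ) = ((3 * R ^ 2 + c.1 : ℚ) : QQ) := by
      push_cast
      exact he3
    exact_mod_cast this
  have hsq : IsSquare (3 * k ^ 2 + c.1) := by
    have h8 : IsSquare (((3 * k ^ 2 + c.1 : ℤ)) : ℚ) := by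
      refine ⟨X - R, ?_⟩
      push_cast
      rw [hk, ← sq, hq']
    exact Rat.isSquare_intCast_iff.1 h8
  obtain ⟨q, hqq⟩ := hsq
  refine ⟨k, q, by linear_combination hqq, ?_, fun c' u r L => ?_⟩
  · have h9 : (k : ℤ) ^ 3 + c.1 * k + c.2 = 0 := by
      rw [← hk] at he'
      exact_mod_cast he'
    linear_combination h9 - k * hqq
  -- the isogeny
  obtain ⟨θ, θ', i1, i2, k1, k2⟩ := hom L
  have hWk : θ.f QQ (n • P) = 0 := by
    rw [k1]
    right
    have hek : e = ((k : ℤ) : QQ) := by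
      rw [hR', ← hk]
      push_cast
      rfl
    subst hek
    exact ⟨h', hWe⟩
  obtain ⟨Y, hY⟩ : ∃ Y, Y = θ.f QQ P := ⟨_, rfl⟩
  have hnY : n • Y = 0 := by rw [hY, ← map_nsmul, hWk]
  have hjP' : ∀ j : ℤ, (j * 2) • P = 0 → (n : ℤ) ∣ j := by
    intro j hj
    have e1 := addOrderOf_dvd_iff_zsmul_eq_zero.2 hj
    rw [hP] at e1
    push_cast at e1
    rw [mul_comm (2 : ℤ)] at e1
    exact Int.dvd_of_mul_dvd_mul_right two_ne_zero e1
  have hY2 : ∀ j : ℤ, θ'.f QQ (j • Y) = (j * 2) • P := by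
    intro j
    rw [map_zsmul, hY, i1, mul_zsmul', ← two_zsmul, zsmul_comm]
  have hjY : ∀ j : ℤ, j • Y = 0 → (n : ℤ) ∣ j := by
    intro j hj
    apply hjP'
    rw [← hY2, hj, map_zero]
  have hYo : addOrderOf Y = n := by
    apply Nat.dvd_antisymm (addOrderOf_dvd_of_nsmul_eq_zero hnY)
    have e1 := hjY (addOrderOf Y) (by
      rw [natCast_zsmul]
      exact addOrderOf_nsmul_eq_zero Y)
    exact_mod_cast e1
  have hYσ : ∀ σ : QQ ≃ₐ[ℚ] QQ, act (Sh c'.1 c'.2) (σ : QQ →ₐ[ℚ] QQ) Y = Y := by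
    intro σ
    rw [hY, θ.nat]
    rcases hPσ σ with h1 | h1
    · rw [h1]
    · rw [h1, add_nsmul, one_nsmul, map_add, hWk, zero_add]
  -- the kernel of the dual isogeny
  have b1 : ((Sh c'.1 c'.2).baseChange QQ).toAffine.a₁ = 0 := map_zero _
  have b2 : ((Sh c'.1 c'.2).baseChange QQ).toAffine.a₂ = 0 := map_zero _
  have b3 : ((Sh c'.1 c'.2).baseChange QQ).toAffine.a₃ = 0 := map_zero _
  have b4 : ((Sh c'.1 c'.2).baseChange QQ).toAffine.a₄ = (c'.1 : QQ) := map_intCast _ _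
  have b6 : ((Sh c'.1 c'.2).baseChange QQ).toAffine.a₆ = (c'.2 : QQ) := map_intCast _ _
  have hroot := L.root
  have hdr : 3 * r ^ 2 + c'.1 ≠ 0 := by
    intro h0
    apply L.D'
    have e1 : c'.1 = -3 * r ^ 2 := by linarith
    have e2 : c'.2 = 2 * r ^ 3 := by
      rw [e1] at hroot
      linarith
    rw [e1, e2]
    ring
  have hns : ((Sh c'.1 c'.2).baseChange QQ).toAffine.Nonsingular ((r : ℤ) : QQ) 0 := by
    rw [Affine.nonsingular_iff']
    refine ⟨?_, Or.inl ?_⟩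
    · rw [Affine.equation_iff', b1, b2, b3, b4, b6]
      have : (((r ^ 3 + c'.1 * r + c'.2 : ℤ)) : QQ) = ((0 : ℤ) : QQ) := by rw [hroot]
      push_cast at this
      linear_combination -this
    · rw [b1, b2, b4]
      have : (((3 * r ^ 2 + c'.1 : ℤ)) : QQ) ≠ ((0 : ℤ) : QQ) := by exact_mod_cast hdr
      push_cast at this
      intro h0
      apply this
      linear_combination -h0
  obtain ⟨T, hT⟩ : ∃ T : Pt (Sh c'.1 c'.2) QQ, T = Affine.Point.some ((r : ℤ) : QQ) 0 hns := ⟨_, rfl⟩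
  have hTk : θ'.f QQ T = 0 := by
    rw [k2]
    exact Or.inr ⟨hns, hT⟩
  have hT0 : T ≠ 0 := by
    rw [hT]
    exact Affine.Point.some_ne_zero _
  have hT2 : addOrderOf T = 2 := by
    apply addOrderOf_eq_prime
    · rw [two_nsmul, ← i2, hTk, map_zero]
    · exact hT0
  have hTσ : ∀ σ : QQ ≃ₐ[ℚ] QQ, act (Sh c'.1 c'.2) (σ : QQ →ₐ[ℚ] QQ) T = T := by
    intro σ
    rw [hT]
    apply some_congr
    · exact map_intCast _ _
    · exact map_zero _
  refine hasT_of_QQ hYo hT2 (fun h0 => ?_) hYσ hTσ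
  obtain ⟨j, hj⟩ := AddSubgroup.mem_zmultiples_iff.1 h0
  obtain ⟨i, hi⟩ := hjP' j (by rw [← hY2, hj, hTk])
  apply hT0
  have hnY' : (n : ℤ) • Y = 0 := by rw [natCast_zsmul, hnY]
  rw [← hj, hi, mul_comm, mul_zsmul', zsmul_comm, hnY', zsmul_zero]

/-- division by two over the algebraic numbers -/
lemma div2' {c c' : ℤ × ℤ} {e q : ℤ} {u : ℕ} {r : ℤ} (L : Lk c c' e q u r)
    (P : Pt (Sh c'.1 c'.2) QQ) : ∃ Q, Q + Q = P := by
  obtain ⟨h12, hA, hB⟩ := ne_of L
  have S2 := sb2 L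
  have hinv : (nh S2).f QQ ((nh S2.inv).f QQ P) = P := nh_inv' S2 QQ P
  obtain ⟨Q, hQ⟩ := div2 h12 hA hB ((nh S2.inv).f QQ P)
  refine ⟨(nh S2).f QQ Q, ?_⟩
  rw [← map_add, hQ, hinv]

/-- **from the quotient to the curve**: `r` is a rational point of order two that is not a multiple of
the point of order `n` -/
theorem bwd {n m : ℕ} (hn : n = 2 * m) (hm : 1 ≤ m) {c' : ℤ × ℤ} (h : HasT n (Sh c'.1 c'.2)) :
    ∃ r : ℤ, r ^ 3 + c'.1 * r + c'.2 = 0 ∧
      ∀ (c : ℤ × ℤ) (e q : ℤ) (u : ℕ), Lk c c' e q u r → CycN n c.1 c.2 := by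
  classical
  obtain ⟨X, T, hX, hT, hXT, hXσ, hTσ⟩ := HasT.toQQ h
  have b1 : ((Sh c'.1 c'.2).baseChange QQ).toAffine.a₁ = 0 := map_zero _
  have b2 : ((Sh c'.1 c'.2).baseChange QQ).toAffine.a₂ = 0 := map_zero _
  have b3 : ((Sh c'.1 c'.2).baseChange QQ).toAffine.a₃ = 0 := map_zero _
  have b4 : ((Sh c'.1 c'.2).baseChange QQ).toAffine.a₄ = (c'.1 : QQ) := map_intCast _ _
  have b6 : ((Sh c'.1 c'.2).baseChange QQ).toAffine.a₆ = (c'.2 : QQ) := map_intCast _ _
  have hT2 : T + T = 0 := by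
    rw [← two_nsmul, ← hT]
    exact addOrderOf_nsmul_eq_zero T
  have hT0 : T ≠ 0 := by
    intro h0
    rw [h0, addOrderOf_zero] at hT
    omega
  rcases T with _ | ⟨x, y, hxy⟩
  · exact absurd rfl hT0
  have hy : y = 0 := by
    by_contra hy
    have hyn : y ≠ ((Sh c'.1 c'.2).baseChange QQ).toAffine.negY x y := by
      rw [Affine.negY, b1, b3]
      intro h4
      apply hy
      have : (2 : QQ) * y = 0 := by linear_combination h4
      exact (mul_eq_zero.1 this).resolve_left two_ne_zero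
    have e1 := Affine.Point.add_self_of_Y_ne (h₁ := hxy) hyn
    have e2 : (Affine.Point.some x y hxy + Affine.Point.some x y hxy :
      ((Sh c'.1 c'.2).baseChange QQ).toAffine.Point) = 0 := hT2
    rw [e1] at e2
    exact absurd e2 (by simp)
  subst hy
  obtain ⟨R, hR⟩ := exists_rat (x := x) fun σ => by
    exact ((Affine.Point.some.injEq ..).mp (hTσ σ)).1
  have hR' : x = ((R : ℚ) : QQ) := by
    rw [← hR]
    exact (eq_ratCast (algebraMap ℚ QQ) R)
  have hxr : x ^ 3 + c'.1 * x + c'.2 = 0 := by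
    have := (Affine.equation_iff ..).1 hxy.1
    rw [b1, b2, b3, b4, b6] at this
    linear_combination -this
  have hRr : R ^ 3 + c'.1 * R + c'.2 = 0 := by
    rw [hR'] at hxr
    have : ((R ^ 3 + c'.1 * R + c'.2 : ℚ) : QQ) = ((0 : ℚ) : QQ) := by
      push_cast
      exact hxr
    exact_mod_cast this
  obtain ⟨r, hr⟩ := int_of_rat (x := R) (a := 0) (b := c'.1) (c := c'.2) (by
    push_cast
    linear_combination hRr)
  refine ⟨r, ?_, fun c e q u L => ?_⟩
  · rw [← hr] at hRr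
    exact_mod_cast hRr
  have hxr' : x = ((r : ℤ) : QQ) := by
    rw [hR', ← hr]
    push_cast
    rfl
  subst hxr'
  obtain ⟨T, hTd⟩ : ∃ T : Pt (Sh c'.1 c'.2) QQ, T = Affine.Point.some ((r : ℤ) : QQ) 0 hxy := ⟨_, rfl⟩
  obtain ⟨θ, θ', i1, i2, k1, k2⟩ := hom L
  obtain ⟨Z, hZ⟩ := div2' L X
  obtain ⟨P, hP⟩ : ∃ P, P = θ'.f QQ Z := ⟨_, rfl⟩
  have hθP : θ.f QQ P = X := by rw [hP, i2, hZ]
  have hnX : n • X = 0 := by
    rw [← hX]
    exact addOrderOf_nsmul_eq_zero X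
  have hjX : ∀ j : ℕ, j • X = 0 → n ∣ j := by
    intro j hj
    rw [← hX]
    exact addOrderOf_dvd_of_nsmul_eq_zero hj
  have hPP : P + P = θ'.f QQ X := by rw [← hθP, i1]
  have hnP : n • P ≠ 0 := by
    intro h0
    have e1 : n • P = θ'.f QQ (m • X) := by
      rw [map_nsmul, ← hPP, ← two_nsmul, ← mul_nsmul', hn, mul_comm]
    rw [e1, k2] at h0
    rcases h0 with h0 | ⟨h1, h0⟩
    · have := Nat.le_of_dvd (by omega) (hjX m h0)
      omega
    · apply hXT
      refine AddSubgroup.mem_zmultiples_iff.2 ⟨(m : ℤ), ?_⟩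
      rw [natCast_zsmul, h0]
  have hkP : θ.f QQ (n • P) = 0 := by rw [map_nsmul, hθP, hnX]
  have h2nP : (2 * n) • P = 0 := by
    rw [mul_nsmul', two_nsmul, ← i1, hkP, map_zero]
  refine cycN_iff.2 ⟨P, ?_, fun σ => ?_⟩
  · have h1 : addOrderOf P ∣ 2 * n := addOrderOf_dvd_of_nsmul_eq_zero h2nP
    have h2 : n ∣ addOrderOf P := by
      apply hjX
      rw [← hθP, ← map_nsmul, addOrderOf_nsmul_eq_zero, map_zero]
    obtain ⟨i, hi⟩ := h2
    rw [hi, mul_comm 2 n] at h1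
    have h3 := Nat.dvd_of_mul_dvd_mul_left (by omega : 0 < n) h1
    have h4 : i = 1 ∨ i = 2 := by
      have := Nat.le_of_dvd (by norm_num) h3
      interval_cases i
      · simp at h3
      · exact Or.inl rfl
      · exact Or.inr rfl
    rcases h4 with h4 | h4
    · exfalso
      apply hnP
      rw [h4, mul_one] at hi
      rw [← hi]
      exact addOrderOf_nsmul_eq_zero P
    · rw [hi, h4, mul_comm]
  · have h1 : θ.f QQ (act (Sh c.1 c.2) (σ : QQ →ₐ[ℚ] QQ) P - P) = 0 := by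
      rw [map_sub, ← θ.nat, hθP, hXσ, sub_self]
    rw [k1] at h1 hkP
    rcases hkP with h2 | ⟨h2, h3⟩
    · exact absurd h2 hnP
    · rcases h1 with h1 | ⟨h4, h1⟩
      · exact Or.inl (sub_eq_zero.1 h1)
      · right
        have e1 : act (Sh c.1 c.2) (σ : QQ →ₐ[ℚ] QQ) P - P = n • P := by
          rw [h1, h3]
        rw [add_nsmul, one_nsmul, ← e1, sub_add_cancel]

end Pool.Agent.Q17.TN
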