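import Mathlib
import Pool.Agent.Q8.FI.Cnt
import Pool.Agent.Q17.TN.Grp
import Pool.Agent.W307.RT.Box

/-! The curves with a rational cyclic subgroup of order `2 n` with `n` rational points, by height. -/

set_option autoImplicit false

namespace Pool.Agent.Q17.TN

open Finset Filter Topology WeierstrassCurve
open Pool.Agent.W307.RT (Sh HasT Cv PAR LOW)
open Pool.Agent.Q17.IG (Lk Rd Lk_of red_unique min_red int_of_rat bd_eq roots_Ok coeff_roots root3)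
open Pool.Agent.Y679.Cr (Ok isMin_of full_of)
open Pool.Agent.Q8.FI (Rel sum_phi)

open Classical in
/-- the curves of height at most `H` with a rational cyclic subgroup of order `2 n` with `n` rational
points -/
noncomputable def FN (n H : ℕ) : Finset (ℤ × ℤ) :=
  ((Icc (-(H : ℤ)) H) ×ˢ (Icc (-(H : ℤ)) H)).filter (fun c : ℤ × ℤ =>
    4 * c.1 ^ 3 + 27 * c.2 ^ 2 ≠ 0 ∧ 4 * |c.1| ^ 3 ≤ H ∧ 27 * c.2 ^ 2 ≤ H ∧
    (∀ p : ℕ, p.Prime → ¬ ((p : ℤ) ^ 4 ∣ c.1 ∧ (p : ℤ) ^ 6 ∣ c.2)) ∧ CycN n c.1 c.2)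

lemma small {c : ℤ × ℤ} {H : ℕ} (h1 : 4 * |c.1| ^ 3 ≤ (H : ℤ)) (h2 : 27 * c.2 ^ 2 ≤ (H : ℤ)) :
    c ∈ (Icc (-(H : ℤ)) H) ×ˢ (Icc (-(H : ℤ)) H) := by
  have a1 : |c.1| ≤ H := by
    rcases eq_or_ne c.1 0 with h0 | h0
    · rw [h0, abs_zero]
      exact Int.natCast_nonneg H
    · have h3 : 1 ≤ |c.1| := Int.one_le_abs h0
      have h4 : |c.1| ≤ |c.1| ^ 3 := by nlinarith [sq_nonneg (|c.1|), mul_self_nonneg (|c.1| - 1)]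
      omega
  have a2 : |c.2| ≤ H := by
    rcases eq_or_ne c.2 0 with h0 | h0
    · rw [h0, abs_zero]
      exact Int.natCast_nonneg H
    · have h3 : 1 ≤ |c.2| := Int.one_le_abs h0
      have h4 : |c.2| ≤ c.2 ^ 2 := by
        rw [← sq_abs]
        nlinarith
      omega
  rw [abs_le] at a1 a2
  rw [mem_product, mem_Icc, mem_Icc]
  exact ⟨a1, a2⟩

lemma mem_FN {n H : ℕ} {c : ℤ × ℤ} : c ∈ FN n H ↔
    4 * c.1 ^ 3 + 27 * c.2 ^ 2 ≠ 0 ∧ 4 * |c.1| ^ 3 ≤ H ∧ 27 * c.2 ^ 2 ≤ H ∧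
    (∀ p : ℕ, p.Prime → ¬ ((p : ℤ) ^ 4 ∣ c.1 ∧ (p : ℤ) ^ 6 ∣ c.2)) ∧ CycN n c.1 c.2 := by
  classical
  unfold FN
  rw [mem_filter]
  exact ⟨fun h => h.2, fun h => ⟨small h.2.1 h.2.2.1, h⟩⟩

lemma mem_Cv {n H : ℕ} {c : ℤ × ℤ} : c ∈ Cv n H ↔
    4 * c.1 ^ 3 + 27 * c.2 ^ 2 ≠ 0 ∧ 4 * |c.1| ^ 3 ≤ H ∧ 27 * c.2 ^ 2 ≤ H ∧
    (∀ p : ℕ, p.Prime → ¬ ((p : ℤ) ^ 4 ∣ c.1 ∧ (p : ℤ) ^ 6 ∣ c.2)) ∧ HasT n (Sh c.1 c.2) := by
  classical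
  unfold Cv
  rw [mem_filter]
  exact ⟨fun h => h.2, fun h => ⟨small h.2.1 h.2.2.1, h⟩⟩

lemma FN_mono (n : ℕ) : Monotone (FN n) := by
  intro H H' h c hc
  rw [mem_FN] at hc ⊢
  have h1 : (H : ℤ) ≤ H' := by exact_mod_cast h
  exact ⟨hc.1, hc.2.1.trans h1, hc.2.2.1.trans h1, hc.2.2.2⟩

lemma Cv_mono (n : ℕ) : Monotone (Cv n) := by
  intro H H' h c hc
  rw [mem_Cv] at hc ⊢
  have h1 : (H : ℤ) ≤ H' := by exact_mod_cast h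
  exact ⟨hc.1, hc.2.1.trans h1, hc.2.2.1.trans h1, hc.2.2.2⟩

/-- the heights of the quotients -/
lemma Lk_height {c c' : ℤ × ℤ} {e q : ℤ} {u : ℕ} {r : ℤ} (L : Lk c c' e q u r) {H : ℕ}
    (h1 : 4 * |c.1| ^ 3 ≤ (H : ℤ)) (h2 : 27 * c.2 ^ 2 ≤ (H : ℤ)) :
    4 * |c'.1| ^ 3 ≤ ((12 * 14 ^ 6 * H : ℕ) : ℤ) ∧ 27 * c'.2 ^ 2 ≤ ((12 * 14 ^ 6 * H : ℕ) : ℤ) := by
  rw [L.hc1] at h1
  rw [L.hc2] at h2
  obtain ⟨b1, b2⟩ := bd_eq h1 h2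
  obtain ⟨M, hM⟩ : ∃ M : ℤ, M = max |3 * e + 2 * q| |3 * e - 2 * q| := ⟨_, rfl⟩
  have hM0 : 0 ≤ M := by rw [hM]; exact le_max_of_le_left (abs_nonneg _)
  have hM6 : M ^ 6 ≤ 14 ^ 6 * (H : ℤ) := by
    have c1 : |3 * e + 2 * q| ^ 6 ≤ 14 ^ 6 * (H : ℤ) := by
      rw [← Int.natCast_natAbs]
      exact_mod_cast b1
    have c2 : |3 * e - 2 * q| ^ 6 ≤ 14 ^ 6 * (H : ℤ) := by
      rw [← Int.natCast_natAbs]
      exact_mod_cast b2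
    rw [hM]
    rcases max_choice |3 * e + 2 * q| |3 * e - 2 * q| with h | h <;> rw [h]
    · exact c1
    · exact c2
  have d1 : (3 * e + 2 * q) ^ 2 ≤ M ^ 2 := by
    rw [← sq_abs]
    exact pow_le_pow_left₀ (abs_nonneg _) (by rw [hM]; exact le_max_left _ _) 2
  have d2 : (3 * e - 2 * q) ^ 2 ≤ M ^ 2 := by
    rw [← sq_abs]
    exact pow_le_pow_left₀ (abs_nonneg _) (by rw [hM]; exact le_max_right _ _) 2
  have hu1 : (1 : ℤ) ≤ u := by exact_mod_cast L.hu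
  have hu4 : (1 : ℤ) ≤ (u : ℤ) ^ 4 := one_le_pow₀ hu1
  have hu6 : (1 : ℤ) ≤ (u : ℤ) ^ 6 := one_le_pow₀ hu1
  have e1 : |c'.1| ≤ M ^ 2 := by
    have f1 : |(u : ℤ) ^ 4 * c'.1| = 3 * e ^ 2 + 4 * q ^ 2 := by
      rw [L.h1, abs_neg, abs_of_nonneg (by positivity)]
    rw [abs_mul, abs_of_nonneg (by positivity : (0 : ℤ) ≤ (u : ℤ) ^ 4)] at f1
    have f2 : |c'.1| ≤ (u : ℤ) ^ 4 * |c'.1| := le_mul_of_one_le_left (abs_nonneg _) hu4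
    nlinarith [sq_nonneg e]
  have e2 : c'.2 ^ 2 * 9 ≤ 4 * M ^ 6 := by
    have f1 : ((u : ℤ) ^ 6 * c'.2) ^ 2 = (2 * e ^ 3 - 8 * q ^ 2 * e) ^ 2 := by rw [L.h2]
    have f2 : c'.2 ^ 2 ≤ ((u : ℤ) ^ 6 * c'.2) ^ 2 := by
      rw [mul_pow]
      exact le_mul_of_one_le_left (sq_nonneg _) (one_le_pow₀ hu6)
    have f3 : 9 * e ^ 2 + 4 * q ^ 2 ≤ M ^ 2 := by nlinarith
    have f4 : (e ^ 2 - 4 * q ^ 2) ^ 2 ≤ (M ^ 2) ^ 2 := by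
      apply sq_le_sq.2
      rw [abs_of_nonneg (sq_nonneg M), abs_le]
      constructor <;> nlinarith [sq_nonneg e, sq_nonneg q]
    have f5 : 9 * e ^ 2 ≤ M ^ 2 := by nlinarith [sq_nonneg q]
    have f6 : (9 * e ^ 2) * (e ^ 2 - 4 * q ^ 2) ^ 2 ≤ M ^ 2 * (M ^ 2) ^ 2 :=
      mul_le_mul f5 f4 (sq_nonneg _) (sq_nonneg _)
    have f7 : (2 * e ^ 3 - 8 * q ^ 2 * e) ^ 2 * 9 = 4 * ((9 * e ^ 2) * (e ^ 2 - 4 * q ^ 2) ^ 2) := by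
      ring
    have f8 : M ^ 2 * (M ^ 2) ^ 2 = M ^ 6 := by ring
    rw [f8] at f6
    linarith
  have e3 : |c'.1| ^ 3 ≤ M ^ 6 := by
    have := pow_le_pow_left₀ (abs_nonneg _) e1 3
    have f8 : (M ^ 2) ^ 3 = M ^ 6 := by ring
    rwa [f8] at this
  push_cast
  have hH : (0 : ℤ) ≤ H := Int.natCast_nonneg H
  constructor <;> linarith

/-- the heights in the other direction -/
lemma quot_height {c c' : ℤ × ℤ} {r k : ℤ} {H : ℕ} (hA : 4 * |c'.1| ^ 3 ≤ (H : ℤ))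
    (h1 : 4 * c'.1 = -(3 * r ^ 2 + k ^ 2)) (b1 : |c.1| ≤ |k ^ 2 - 12 * r ^ 2|)
    (b2 : |c.2| ≤ |2 * k ^ 2 * r - 16 * r ^ 3|) :
    4 * |c.1| ^ 3 ≤ ((4096 * H : ℕ) : ℤ) ∧ 27 * c.2 ^ 2 ≤ ((4096 * H : ℕ) : ℤ) := by
  obtain ⟨m, hm⟩ : ∃ m, m = |c'.1| := ⟨_, rfl⟩
  have hm0 : 0 ≤ m := by rw [hm]; exact abs_nonneg _
  have hm4 : 4 * m = 3 * r ^ 2 + k ^ 2 := by
    have h3 : 4 * c'.1 ≤ 0 := by
      rw [h1]
      have := sq_nonneg r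
      have := sq_nonneg k
      linarith
    have h4 : c'.1 ≤ 0 := by linarith
    rw [hm, abs_of_nonpos h4]
    linarith
  have c1 : |c.1| ≤ 16 * m := by
    refine b1.trans ?_
    rw [abs_le]
    have := sq_nonneg r
    have := sq_nonneg k
    constructor <;> linarith
  have c2 : 27 * c.2 ^ 2 ≤ 16384 * m ^ 3 := by
    have h3 : c.2 ^ 2 ≤ (2 * k ^ 2 * r - 16 * r ^ 3) ^ 2 := by
      rw [← sq_abs c.2, ← sq_abs (2 * k ^ 2 * r - 16 * r ^ 3)]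
      exact pow_le_pow_left₀ (abs_nonneg _) b2 2
    have e4 : (2 * k ^ 2 * r - 16 * r ^ 3) ^ 2 = 4 * (r ^ 2 * (k ^ 2 - 8 * r ^ 2) ^ 2) := by ring
    have h5 : 3 * r ^ 2 ≤ 4 * m := by
      have := sq_nonneg k
      linarith
    have h6 : (3 * (k ^ 2 - 8 * r ^ 2)) ^ 2 ≤ (32 * m) ^ 2 := by
      have h7 : |3 * (k ^ 2 - 8 * r ^ 2)| ≤ |32 * m| := by
        rw [abs_of_nonneg (by linarith : (0 : ℤ) ≤ 32 * m), abs_le]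
        have := sq_nonneg r
        have := sq_nonneg k
        constructor <;> linarith
      exact sq_le_sq.2 h7
    have h8 : (3 * r ^ 2) * (3 * (k ^ 2 - 8 * r ^ 2)) ^ 2 ≤ (4 * m) * (32 * m) ^ 2 :=
      mul_le_mul h5 h6 (sq_nonneg _) (by linarith)
    have e5 : (3 * r ^ 2) * (3 * (k ^ 2 - 8 * r ^ 2)) ^ 2 = 27 * (r ^ 2 * (k ^ 2 - 8 * r ^ 2) ^ 2) := by
      ring
    have e6 : (4 * m) * (32 * m) ^ 2 = 4096 * m ^ 3 := by ring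
    rw [e5, e6] at h8
    rw [e4] at h3
    linarith
  have hA' : 4 * m ^ 3 ≤ (H : ℤ) := by
    rw [hm]
    exact hA
  constructor
  · have h3 : |c.1| ^ 3 ≤ (16 * m) ^ 3 := pow_le_pow_left₀ (abs_nonneg _) c1 3
    push_cast
    have e4 : (16 * m) ^ 3 = 4096 * m ^ 3 := by ring
    rw [e4] at h3
    linarith
  · push_cast
    linarith

/-- the quotient by a given point of order two -/
theorem quot' {c' : ℤ × ℤ} (hD : 4 * c'.1 ^ 3 + 27 * c'.2 ^ 2 ≠ 0) (hR : Rd c'.1 c'.2) {r k : ℤ}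
    (h1 : 4 * c'.1 = -(3 * r ^ 2 + k ^ 2)) (h2 : 4 * c'.2 = -(r * (r ^ 2 - k ^ 2))) :
    ∃ (c : ℤ × ℤ) (e q : ℤ) (u : ℕ), Lk c c' e q u r ∧
      |c.1| ≤ |k ^ 2 - 12 * r ^ 2| ∧ |c.2| ≤ |2 * k ^ 2 * r - 16 * r ^ 3| := by
  have hdisc : 16 * (4 * c'.1 ^ 3 + 27 * c'.2 ^ 2) = -(k ^ 2 * (k ^ 2 - 9 * r ^ 2) ^ 2) := by
    have e1 : 16 * (4 * c'.1 ^ 3 + 27 * c'.2 ^ 2) = (4 * c'.1) ^ 3 + 27 * (4 * c'.2) ^ 2 := by ring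
    rw [e1, h1, h2]
    ring
  have hne : k ^ 2 * (k ^ 2 - 9 * r ^ 2) ^ 2 ≠ 0 := by
    intro h
    apply hD
    rw [h, neg_zero] at hdisc
    omega
  have hk : k ≠ 0 := by
    intro h
    apply hne
    rw [h]
    ring
  have h9 : k ^ 2 - 9 * r ^ 2 ≠ 0 := by
    intro h
    apply hne
    rw [h]
    ring
  have h3 : 4 * (k ^ 2 - 12 * r ^ 2) ^ 3 + 27 * (2 * k ^ 2 * r - 16 * r ^ 3) ^ 2 ≠ 0 := by
    have e1 : 4 * (k ^ 2 - 12 * r ^ 2) ^ 3 + 27 * (2 * k ^ 2 * r - 16 * r ^ 3) ^ 2 =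
        4 * k ^ 4 * (k ^ 2 - 9 * r ^ 2) := by ring
    rw [e1]
    exact mul_ne_zero (mul_ne_zero (by norm_num) (pow_ne_zero 4 hk)) h9
  obtain ⟨v, hv, A, B, hA, hB, hr⟩ := min_red _ _ _ le_rfl h3
  have hv0 : (v : ℚ) ≠ 0 := by exact_mod_cast hv.ne'
  have hvz : (v : ℤ) ≠ 0 := by exact_mod_cast hv.ne'
  obtain ⟨e, he⟩ := int_of_rat (x := -2 * (r : ℚ) / (v : ℚ) ^ 2) (a := 0) (b := A) (c := B) (by
    have hA' : (A : ℚ) = ((k : ℚ) ^ 2 - 12 * r ^ 2) / (v : ℚ) ^ 4 := by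
      rw [eq_div_iff (pow_ne_zero 4 hv0), mul_comm]
      exact_mod_cast hA.symm
    have hB' : (B : ℚ) = (2 * (k : ℚ) ^ 2 * r - 16 * r ^ 3) / (v : ℚ) ^ 6 := by
      rw [eq_div_iff (pow_ne_zero 6 hv0), mul_comm]
      exact_mod_cast hB.symm
    rw [hA', hB']
    push_cast
    field_simp
    ring)
  have he' : (v : ℤ) ^ 2 * e = -2 * r := by
    have h4 : (v : ℚ) ^ 2 * e = -2 * r := by
      rw [he]
      field_simp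
    exact_mod_cast h4
  have hk2 : ((v : ℤ) ^ 2) ^ 2 ∣ k ^ 2 := by
    refine ⟨A + 3 * e ^ 2, ?_⟩
    have e1 : ((v : ℤ) ^ 2) ^ 2 * (A + 3 * e ^ 2) = (v : ℤ) ^ 4 * A + 3 * ((v : ℤ) ^ 2 * e) ^ 2 := by
      ring
    rw [e1, ← hA, he']
    ring
  obtain ⟨q, hq⟩ := (Int.pow_dvd_pow_iff (by norm_num)).1 hk2
  have hv4 : (v : ℤ) ^ 4 ≠ 0 := pow_ne_zero 4 hvz
  have hv6 : (v : ℤ) ^ 6 ≠ 0 := pow_ne_zero 6 hvz
  have hc1 : A = q ^ 2 - 3 * e ^ 2 := by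
    apply mul_left_cancel₀ hv4
    have e1 : (v : ℤ) ^ 4 * (q ^ 2 - 3 * e ^ 2) = ((v : ℤ) ^ 2 * q) ^ 2 -
      3 * ((v : ℤ) ^ 2 * e) ^ 2 := by ring
    rw [e1, ← hA, ← hq, he']
    ring
  have hc2 : B = 2 * e ^ 3 - q ^ 2 * e := by
    apply mul_left_cancel₀ hv6
    have e1 : (v : ℤ) ^ 6 * (2 * e ^ 3 - q ^ 2 * e) = 2 * ((v : ℤ) ^ 2 * e) ^ 3 -
      ((v : ℤ) ^ 2 * q) ^ 2 * ((v : ℤ) ^ 2 * e) := by ring
    rw [e1, ← hB, ← hq, he']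
    ring
  have hDc : 4 * A ^ 3 + 27 * B ^ 2 ≠ 0 := by
    intro h
    apply h3
    rw [hA, hB]
    have e1 : 4 * ((v : ℤ) ^ 4 * A) ^ 3 + 27 * ((v : ℤ) ^ 6 * B) ^ 2 =
      (v : ℤ) ^ 12 * (4 * A ^ 3 + 27 * B ^ 2) := by ring
    rw [e1, h, mul_zero]
  obtain ⟨c'', u, r', L⟩ := Lk_of (c := (A, B)) hc1 hc2 hDc hr
  have g1 : ((u * v : ℕ) : ℤ) ^ 4 * c''.1 = ((2 : ℕ) : ℤ) ^ 4 * c'.1 := by
    have e1 : ((u * v : ℕ) : ℤ) ^ 4 * c''.1 = (v : ℤ) ^ 4 * ((u : ℤ) ^ 4 * c''.1) := by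
      push_cast
      ring
    have e2 : (v : ℤ) ^ 4 * -(3 * e ^ 2 + 4 * q ^ 2) = -(3 * ((v : ℤ) ^ 2 * e) ^ 2 +
      4 * ((v : ℤ) ^ 2 * q) ^ 2) := by ring
    rw [e1, L.h1, e2, ← hq, he']
    push_cast
    linear_combination (-4) * h1
  have g2 : ((u * v : ℕ) : ℤ) ^ 6 * c''.2 = ((2 : ℕ) : ℤ) ^ 6 * c'.2 := by
    have e1 : ((u * v : ℕ) : ℤ) ^ 6 * c''.2 = (v : ℤ) ^ 6 * ((u : ℤ) ^ 6 * c''.2) := by
      push_cast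
      ring
    have e2 : (v : ℤ) ^ 6 * (2 * e ^ 3 - 8 * q ^ 2 * e) = 2 * ((v : ℤ) ^ 2 * e) ^ 3 -
      8 * ((v : ℤ) ^ 2 * q) ^ 2 * ((v : ℤ) ^ 2 * e) := by ring
    rw [e1, L.h2, e2, ← hq, he']
    push_cast
    linear_combination (-16) * h2
  have hcc : c' = c'' := by
    obtain ⟨k1, k2⟩ := red_unique L.hR' hR (by norm_num : 0 < 2) (Nat.mul_pos L.hu hv) g1 g2
    exact Prod.ext k1.symm k2.symm
  rw [← hcc] at L g1 g2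
  have huv : u * v = 2 := by
    have hpos : 0 < u * v := Nat.mul_pos L.hu hv
    rcases eq_or_ne c'.1 0 with h0 | h0
    · have h0' : c'.2 ≠ 0 := by
        intro h
        apply hD
        rw [h0, h]
        norm_num
      have := mul_right_cancel₀ h0' g2
      exact (Nat.pow_left_injective (n := 6) (by norm_num)) (by exact_mod_cast this)
    · have := mul_right_cancel₀ h0 g1
      exact (Nat.pow_left_injective (n := 4) (by norm_num)) (by exact_mod_cast this)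
  have hrr : r' = r := by
    have e1 : (4 : ℤ) * r' = 4 * r := by
      have e2 : ((u * v : ℕ) : ℤ) ^ 2 * r' = (v : ℤ) ^ 2 * ((u : ℤ) ^ 2 * r') := by
        push_cast
        ring
      rw [huv, L.hr] at e2
      push_cast at e2
      linear_combination e2 - 2 * he'
    linarith
  rw [hrr] at L
  refine ⟨(A, B), e, q, u, L, ?_, ?_⟩
  · change |A| ≤ _
    rw [hA, abs_mul]
    have : 1 ≤ |(v : ℤ) ^ 4| := Int.one_le_abs hv4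
    exact le_mul_of_one_le_left (abs_nonneg A) this
  · change |B| ≤ _
    rw [hB, abs_mul]
    have : 1 ≤ |(v : ℤ) ^ 6| := Int.one_le_abs hv6
    exact le_mul_of_one_le_left (abs_nonneg B) this

end Pool.Agent.Q17.TN
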