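import Mathlib
import Pool.Agent.Q17.TN.Cnt

/-! The transfer of averages from the curves with a subgroup `Z/2 x Z/n` to the curves with a rational
cyclic subgroup of order `2 n` with `n` rational points. -/

set_option autoImplicit false

namespace Pool.Agent.Q17.TN

open Finset Filter Topology WeierstrassCurve
open Pool.Agent.W307.RT (Sh HasT Cv PAR LOW)
open Pool.Agent.Q17.IG (Lk Rd Lk_of roots_Ok coeff_roots root3)
open Pool.Agent.Y679.Cr (Ok isMin_of full_of)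
open Pool.Agent.Q8.FI (Rel sum_phi)

lemma HasT.two {W : WeierstrassCurve ℚ} {n m : ℕ} (hn : n = 2 * m) (hm : 1 ≤ m) (h : HasT n W) :
    HasT 2 W := by
  obtain ⟨P, Q, h1, h2, h3⟩ := h
  refine ⟨m • P, Q, ?_, h2, fun h4 => h3 ?_⟩
  · rw [addOrderOf_nsmul_of_dvd (by omega : m ≠ 0) (by rw [h1, hn]; exact dvd_mul_left m 2), h1, hn]
    exact Nat.mul_div_cancel _ hm
  · obtain ⟨j, hj⟩ := AddSubgroup.mem_zmultiples_iff.1 h4
    refine AddSubgroup.mem_zmultiples_iff.2 ⟨j * m, ?_⟩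
    rw [← hj, mul_comm, mul_zsmul', natCast_zsmul]

lemma up {n m : ℕ} (hn : n = 2 * m) (hm : 1 ≤ m) {H : ℕ} {c : ℤ × ℤ} (hc : c ∈ FN n H) :
    ∃ (c' : ℤ × ℤ) (e q : ℤ) (u : ℕ) (r : ℤ), Lk c c' e q u r ∧ c' ∈ Cv n (12 * 14 ^ 6 * H) := by
  obtain ⟨h1, h2, h3, h4, h5⟩ := mem_FN.1 hc
  obtain ⟨e, q, g1, g2, g3⟩ := fwd hn hm h5
  obtain ⟨c', u, r, L⟩ := Lk_of g1 g2 h1 h4
  obtain ⟨k1, k2⟩ := Lk_height L h2 h3
  exact ⟨c', e, q, u, r, L, mem_Cv.2 ⟨L.D', k1, k2, L.hR', g3 c' u r L⟩⟩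

lemma down {n m : ℕ} (hn : n = 2 * m) (hm : 1 ≤ m) {H : ℕ} {c' : ℤ × ℤ} (hc : c' ∈ Cv n H) :
    ∃ (c : ℤ × ℤ) (e q : ℤ) (u : ℕ) (r : ℤ), Lk c c' e q u r ∧ c ∈ FN n (4096 * H) := by
  obtain ⟨h1, h2, h3, h4, h5⟩ := mem_Cv.1 hc
  obtain ⟨r, hr, g⟩ := bwd hn hm h5
  obtain ⟨e1, e2, e3, he⟩ := roots_Ok c' ⟨isMin_of h1 h4, full_of (HasT.two hn hm h5)⟩
  have key : ∃ k : ℤ, 4 * c'.1 = -(3 * r ^ 2 + k ^ 2) ∧ 4 * c'.2 = -(r * (r ^ 2 - k ^ 2)) := by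
    have h0 := he r
    rw [hr] at h0
    rcases mul_eq_zero.1 h0.symm with h6 | h6
    · rcases mul_eq_zero.1 h6 with h7 | h7
      · obtain ⟨a1, a2⟩ := coeff_roots he
        have : r = e1 := sub_eq_zero.1 h7
        rw [this]
        exact ⟨_, a1, a2⟩
      · have he' : ∀ x : ℤ, x ^ 3 + c'.1 * x + c'.2 = (x - e2) * (x - e1) * (x - e3) := fun x => by
          rw [he x]
          ring
        obtain ⟨a1, a2⟩ := coeff_roots he'
        have : r = e2 := sub_eq_zero.1 h7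
        rw [this]
        exact ⟨_, a1, a2⟩
    · have he' : ∀ x : ℤ, x ^ 3 + c'.1 * x + c'.2 = (x - e3) * (x - e1) * (x - e2) := fun x => by
        rw [he x]
        ring
      obtain ⟨a1, a2⟩ := coeff_roots he'
      have : r = e3 := sub_eq_zero.1 h6
      rw [this]
      exact ⟨_, a1, a2⟩
  obtain ⟨k, k1, k2⟩ := key
  obtain ⟨c, e, q, u, L, b1, b2⟩ := quot' h1 h4 k1 k2
  obtain ⟨m1, m2⟩ := quot_height h2 k1 b1 b2
  exact ⟨c, e, q, u, r, L, mem_FN.2 ⟨L.hD, m1, m2, L.hR, g c e q u L⟩⟩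

lemma card_down {n m : ℕ} (hn : n = 2 * m) (hm : 1 ≤ m) (H : ℕ) :
    (Cv n H).card ≤ 3 * (FN n (4096 * H)).card := by
  classical
  have key : ∀ c' : ℤ × ℤ, ∃ x : (ℤ × ℤ) × ℤ, c' ∈ Cv n H →
      (∃ (q : ℤ) (u : ℕ) (r : ℤ), Lk x.1 c' x.2 q u r) ∧ x.1 ∈ FN n (4096 * H) := by
    intro c'
    by_cases hc : c' ∈ Cv n H
    · obtain ⟨c, e, q, u, r, L, h⟩ := down hn hm hc
      exact ⟨(c, e), fun _ => ⟨⟨q, u, r, L⟩, h⟩⟩
    · exact ⟨0, fun h => absurd h hc⟩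
  choose x hx using key
  have h0 : ((Cv n H).image (fun c' => (x c').1)).card ≤ (FN n (4096 * H)).card := by
    apply card_le_card
    intro c hc
    obtain ⟨c', hc', rfl⟩ := mem_image.1 hc
    exact (hx c' hc').2
  refine le_trans (card_le_mul_card_image (Cv n H) 3 fun c hc => ?_) (Nat.mul_le_mul_left 3 h0)
  obtain ⟨b, hb, rfl⟩ := mem_image.1 hc
  have h1 : ((Cv n H).filter (fun c' => (x c').1 = (x b).1)).card ≤
      (((Cv n H).filter (fun c' => (x c').1 = (x b).1)).image (fun c' => (x c').2)).card := by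
    rw [card_image_of_injOn]
    intro c1 h1 c2 h2 h12
    rw [mem_coe, mem_filter] at h1 h2
    obtain ⟨⟨q, u, r, L⟩, -⟩ := hx c1 h1.1
    obtain ⟨⟨q', u', r', L'⟩, -⟩ := hx c2 h2.1
    have h12' : (x c1).2 = (x c2).2 := h12
    rw [h1.2, h12'] at L
    rw [h2.2] at L'
    exact L.unique' L'
  refine h1.trans (root3 (x b).1.1 (x b).1.2 _ fun e he => ?_)
  obtain ⟨c1, hc1, rfl⟩ := mem_image.1 he
  rw [mem_filter] at hc1
  obtain ⟨⟨q, u, r, L⟩, -⟩ := hx c1 hc1.1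
  rw [← hc1.2, L.hc1, L.hc2]
  ring

/-- the upper bound for the number of the curves -/
lemma cv_up {n k : ℕ} {M N : ℤ → ℤ → ℤ} (hP : PAR n k M N) (hk : 1 ≤ k) : ∃ C : ℕ, ∀ H T : ℕ, C * H ≤ T ^ k →
    (Cv n H).card ≤ (2 * T + 1) ^ 2 := by
  classical
  obtain ⟨C, F, hF⟩ := hP
  refine ⟨C, fun H T hT => ?_⟩
  obtain ⟨hinj, h2⟩ := hF H
  have hmap : ∀ c ∈ Cv n H, F c ∈ Icc (-(T : ℤ)) T ×ˢ Icc (-(T : ℤ)) T := by
    intro c hc
    obtain ⟨-, -, -, -, b1, b2, -⟩ := h2 c hc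
    have c1 : (F c).1.natAbs ≤ T :=
      (Nat.pow_le_pow_iff_left (by omega : k ≠ 0)).1 (b1.trans hT)
    have c2 : (F c).2.natAbs ≤ T :=
      (Nat.pow_le_pow_iff_left (by omega : k ≠ 0)).1 (b2.trans hT)
    rw [mem_product, mem_Icc, mem_Icc]
    omega
  have h1 := card_le_card_of_injOn _ hmap hinj
  rw [card_product, Int.card_Icc] at h1
  have h2 : ((T : ℤ) + 1 - -(T : ℤ)).toNat = 2 * T + 1 := by omega
  rw [h2] at h1
  exact h1.trans (le_of_eq (by ring))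

/-- the numbers of the curves of the two families are comparable -/
theorem ratioN {n m k : ℕ} {M N : ℤ → ℤ → ℤ} (hn : n = 2 * m) (hm : 1 ≤ m) (hk : 1 ≤ k)
    (hP : PAR n k M N) (hL : LOW n k) : ∃ R : ℝ, 0 ≤ R ∧ ∀ H : ℕ, (FN n H).Nonempty →
      ((Cv n (12 * 14 ^ 6 * H)).card : ℝ) ≤ R * ((FN n H).card : ℝ) := by
  obtain ⟨C1, hC1⟩ := cv_up hP hk
  obtain ⟨c, C2, T0, hc, hlow⟩ := hL
  obtain ⟨A, hA⟩ : ∃ A : ℕ, A = 4096 * (C2 + 1) := ⟨_, rfl⟩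
  obtain ⟨B, hB⟩ : ∃ B : ℕ, B = C1 * (12 * 14 ^ 6) * A + 1 := ⟨_, rfl⟩
  obtain ⟨T1, hT1⟩ : ∃ T1 : ℕ, T1 = T0 + 1 := ⟨_, rfl⟩
  obtain ⟨H1, hH1⟩ : ∃ H1 : ℕ, H1 = A * T1 ^ k := ⟨_, rfl⟩
  obtain ⟨D, hD⟩ : ∃ D : ℕ, D = (Cv n (12 * 14 ^ 6 * H1)).card := ⟨_, rfl⟩
  have hA1 : 1 ≤ A := by rw [hA]; omega
  have hD0 : (0 : ℝ) ≤ (D : ℝ) := Nat.cast_nonneg _
  have hR0 : (0 : ℝ) ≤ 75 * (B : ℝ) ^ 2 / c := by positivity
  refine ⟨75 * (B : ℝ) ^ 2 / c + D, by linarith, fun H hne => ?_⟩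
  have h0 : (1 : ℝ) ≤ ((FN n H).card : ℝ) := by exact_mod_cast card_pos.2 hne
  rcases lt_or_ge H H1 with h | h
  · have h1 : ((Cv n (12 * 14 ^ 6 * H)).card : ℝ) ≤ (D : ℝ) := by
      rw [hD]
      exact_mod_cast card_le_card (Cv_mono n (Nat.mul_le_mul_left _ h.le))
    rw [add_mul]
    have h2 : 0 ≤ 75 * (B : ℝ) ^ 2 / c * ((FN n H).card : ℝ) := mul_nonneg hR0 (by linarith)
    have h3 : (D : ℝ) ≤ D * ((FN n H).card : ℝ) := le_mul_of_one_le_right hD0 h0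
    exact h1.trans (h3.trans (le_add_of_nonneg_left h2))
  · -- the scale
    obtain ⟨T, hT⟩ : ∃ T : ℕ, T = Nat.findGreatest (fun T => A * T ^ k ≤ H) H := ⟨_, rfl⟩
    have hbd : ∀ T : ℕ, A * T ^ k ≤ H → T ≤ H := by
      intro T h'
      have h2 := Nat.le_self_pow (n := k) (by omega) T
      nlinarith
    have hTT : A * T ^ k ≤ H := by
      rw [hT]
      have hT1' : A * T1 ^ k ≤ H := by rw [← hH1]; exact h
      exact Nat.findGreatest_spec (P := fun T => A * T ^ k ≤ H) (hbd T1 hT1') hT1'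
    have hT1T : T1 ≤ T := by
      rw [hT]
      have hT1' : A * T1 ^ k ≤ H := by rw [← hH1]; exact h
      exact Nat.le_findGreatest (hbd T1 hT1') hT1'
    have hTu : H < A * (T + 1) ^ k := by
      by_contra hcon
      push Not at hcon
      have := Nat.le_findGreatest (P := fun T => A * T ^ k ≤ H) (hbd (T + 1) hcon) hcon
      omega
    have hT1' : (1 : ℝ) ≤ T := by exact_mod_cast (by omega : 1 ≤ T)
    -- the lower bound
    have hlo : c * (T : ℝ) ^ 2 ≤ 3 * ((FN n H).card : ℝ) := by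
      have h1 : 4096 * (C2 * T ^ k) ≤ H := by
        refine le_trans ?_ hTT
        rw [hA, ← mul_assoc]
        exact Nat.mul_le_mul_right _ (Nat.mul_le_mul_left _ (Nat.le_succ _))
      have h2 := hlow T (C2 * T ^ k) (by omega) le_rfl
      have h3 := card_down hn hm (C2 * T ^ k)
      have h4 := card_le_card (FN_mono n h1)
      have h5 : ((Cv n (C2 * T ^ k)).card : ℝ) ≤ 3 * ((FN n H).card : ℝ) := by
        exact_mod_cast h3.trans (Nat.mul_le_mul_left 3 h4)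
      linarith
    -- the upper bound
    have hup : ((Cv n (12 * 14 ^ 6 * H)).card : ℝ) ≤ 25 * (B : ℝ) ^ 2 * (T : ℝ) ^ 2 := by
      have h1 : C1 * (12 * 14 ^ 6 * H) ≤ (B * (T + 1)) ^ k := by
        have h2 : C1 * (12 * 14 ^ 6 * H) ≤ B * (T + 1) ^ k := by
          calc C1 * (12 * 14 ^ 6 * H) ≤ C1 * (12 * 14 ^ 6 * (A * (T + 1) ^ k)) :=
                Nat.mul_le_mul_left _ (Nat.mul_le_mul_left _ hTu.le)
            _ = (C1 * (12 * 14 ^ 6) * A) * (T + 1) ^ k := by ring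
            _ ≤ B * (T + 1) ^ k := Nat.mul_le_mul_right _ (by rw [hB]; omega)
        refine h2.trans ?_
        rw [mul_pow]
        exact Nat.mul_le_mul_right _ (Nat.le_self_pow (by omega) B)
      have h3 := hC1 _ _ h1
      have h4 : ((Cv n (12 * 14 ^ 6 * H)).card : ℝ) ≤ (2 * ((B : ℝ) * ((T : ℝ) + 1)) + 1) ^ 2 := by
        exact_mod_cast h3
      have hB1 : (1 : ℝ) ≤ B := by rw [hB]; push_cast; linarith [(by positivity : (0 : ℝ) ≤ (C1 : ℝ) * (12 * 14 ^ 6) * A)]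
      have h5 : 2 * ((B : ℝ) * ((T : ℝ) + 1)) + 1 ≤ 5 * B * T := by
        nlinarith [mul_nonneg (sub_nonneg.2 hB1) (sub_nonneg.2 hT1')]
      have h6 : (2 * ((B : ℝ) * ((T : ℝ) + 1)) + 1) ^ 2 ≤ (5 * B * T) ^ 2 :=
        pow_le_pow_left₀ (by positivity) h5 2
      calc _ ≤ _ := h4
        _ ≤ _ := h6
        _ = _ := by ring
    have hfin : 25 * (B : ℝ) ^ 2 * (T : ℝ) ^ 2 ≤ 75 * (B : ℝ) ^ 2 / c * ((FN n H).card : ℝ) := by
      rw [div_mul_eq_mul_div, le_div_iff₀ hc]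
      have : 0 ≤ (B : ℝ) ^ 2 := by positivity
      nlinarith
    have hlast : (0 : ℝ) ≤ D * ((FN n H).card : ℝ) := mul_nonneg hD0 (by linarith)
    rw [add_mul]
    exact hup.trans (hfin.trans (le_add_of_nonneg_right hlast))

/-- the number of the curves tends to infinity -/
theorem tend {n m k : ℕ} (hn : n = 2 * m) (hm : 1 ≤ m) (hL : LOW n k) :
    Tendsto (fun H : ℕ => (FN n H).card) atTop atTop := by
  have h1 := Pool.Agent.W307.RT.tendsto_of_low hL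
  have h2 : Tendsto (fun H : ℕ => (Cv n (H / 4096)).card / 3) atTop atTop :=
    (Nat.tendsto_div_const_atTop (by norm_num)).comp
      (h1.comp (Nat.tendsto_div_const_atTop (by norm_num)))
  refine tendsto_atTop_mono (fun H => ?_) h2
  have h3 := card_down hn hm (H / 4096)
  have h4 := card_le_card (FN_mono n (Nat.mul_div_le H 4096))
  omega

lemma rel_of {c c' : ℤ × ℤ} {e q : ℤ} {u : ℕ} {r : ℤ} (L : Lk c c' e q u r) : Rel c c' := by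
  obtain ⟨-, h1, h2⟩ := ne_of L
  refine ⟨e, q, u, L.hc1, L.hc2, L.ne.1, h1, h2, L.hu.ne', ?_, ?_, L.hR, L.hR'⟩
  · rw [L.h1]
    unfold Pool.Agent.Q8.FI.dA
    ring
  · rw [L.h2]
    unfold Pool.Agent.Q8.FI.dB
    ring

/-- a map from the curves to their quotients -/
lemma exists_phi {n m : ℕ} (hn : n = 2 * m) (hm : 1 ≤ m) : ∃ φ : ℤ × ℤ → ℤ × ℤ,
    ∀ (H : ℕ) (c : ℤ × ℤ), c ∈ FN n H → φ c ∈ Cv n (12 * 14 ^ 6 * H) ∧
      ∃ (e q : ℤ) (u : ℕ) (r : ℤ), Lk c (φ c) e q u r := by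
  classical
  have key : ∀ c : ℤ × ℤ, ∃ c' : ℤ × ℤ, ∀ H, c ∈ FN n H → c' ∈ Cv n (12 * 14 ^ 6 * H) ∧
      ∃ (e q : ℤ) (u : ℕ) (r : ℤ), Lk c c' e q u r := by
    intro c
    by_cases hc : ∃ H, c ∈ FN n H
    · obtain ⟨H0, hc0⟩ := hc
      obtain ⟨c', e, q, u, r, L, h⟩ := up hn hm hc0
      refine ⟨c', fun H hc => ⟨?_, e, q, u, r, L⟩⟩
      obtain ⟨h1, h2, h3, h4, h5⟩ := mem_FN.1 hc
      obtain ⟨k1, k2⟩ := Lk_height L h2 h3
      exact mem_Cv.2 ⟨L.D', k1, k2, L.hR', (mem_Cv.1 h).2.2.2.2⟩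
    · exact ⟨0, fun H h => absurd ⟨H, h⟩ hc⟩
  choose φ hφ using key
  exact ⟨φ, fun H c hc => hφ c H hc⟩

/-- the transfer of an average -/
theorem transferN {n m k : ℕ} {M N : ℤ → ℤ → ℤ} (hn : n = 2 * m) (hm : 1 ≤ m) (hk : 1 ≤ k)
    (hP : PAR n k M N) (hL : LOW n k) {g g' : ℤ × ℤ → ℝ} (hg' : ∀ m, 0 ≤ g' m)
    (h : ∀ (c c' : ℤ × ℤ) (e q : ℤ) (u : ℕ) (r : ℤ) (H : ℕ), Lk c c' e q u r → c' ∈ Cv n H →
      g c ≤ g' c')
    (hC : ∃ C : ℝ, ∀ H : ℕ, ∑ c ∈ Cv n H, g' c ≤ C * ((Cv n H).card : ℝ)) :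
    ∃ C : ℝ, ∀ H : ℕ, ∑ c ∈ FN n H, g c ≤ C * ((FN n H).card : ℝ) := by
  classical
  obtain ⟨C, hC⟩ := hC
  obtain ⟨R, hR0, hR⟩ := ratioN hn hm hk hP hL
  obtain ⟨φ, hφ⟩ := exists_phi hn hm
  refine ⟨6 * |C| * R, fun H => ?_⟩
  rcases (FN n H).eq_empty_or_nonempty with he | hne
  · rw [he]
    simp
  have h1 : ∑ c ∈ FN n H, g c ≤ ∑ c ∈ FN n H, g' (φ c) := by
    refine sum_le_sum fun c hc => ?_
    obtain ⟨h2, e, q, u, r, L⟩ := hφ H c hc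
    exact h _ _ e q u r _ L h2
  have h2 := sum_phi (S := FN n H) (T := Cv n (12 * 14 ^ 6 * H)) (φ := φ) (fun c hc => by
    obtain ⟨h2, e, q, u, r, L⟩ := hφ H c hc
    exact ⟨rel_of L, h2⟩) (g := g') hg'
  have h3 : C * ((Cv n (12 * 14 ^ 6 * H)).card : ℝ) ≤ |C| * (R * ((FN n H).card : ℝ)) :=
    (mul_le_mul_of_nonneg_right (le_abs_self C) (Nat.cast_nonneg _)).trans
      (mul_le_mul_of_nonneg_left (hR H hne) (abs_nonneg C))
  calc ∑ c ∈ FN n H, g c ≤ 6 * ∑ m ∈ Cv n (12 * 14 ^ 6 * H), g' m := h1.trans h2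
    _ ≤ 6 * (|C| * (R * ((FN n H).card : ℝ))) := by
        have := (hC (12 * 14 ^ 6 * H)).trans h3
        linarith
    _ = _ := by ring

end Pool.Agent.Q17.TN
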