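import Mathlib
import Pool.Agent.Q17.TN.Tra

/-! The quotient by the middle one of the three rational points of order two: only one rational point
of order two is left. -/

set_option autoImplicit false

attribute [-instance] DivisionRing.toRatAlgebra

namespace Pool.Agent.Q17.TN

open WeierstrassCurve
open Pool.Agent.W307.RT (Sh HasT)
open Pool.Agent.TH841.SH.D (Pt act)
open Pool.Agent.Y676.IS (NH div2)
open Pool.Agent.Q17.IG (Lk QQ some_congr)

/-- the point `P` over the algebraic numbers -/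
theorem core {n m : ℕ} (hn : n = 2 * m) (hm : 1 ≤ m) {c c' : ℤ × ℤ} {e q : ℤ} {u : ℕ} {r : ℤ}
    (L : Lk c c' e q u r) {X : Pt (Sh c'.1 c'.2) QQ} (hX : addOrderOf X = n)
    (hXσ : ∀ σ : QQ ≃ₐ[ℚ] QQ, act (Sh c'.1 c'.2) (σ : QQ →ₐ[ℚ] QQ) X = X)
    (hXT : ∀ T : Pt (Sh c'.1 c'.2) QQ, (∃ h, T = (Affine.Point.some ((r : ℤ) : QQ) 0 h :
      ((Sh c'.1 c'.2).baseChange QQ).toAffine.Point)) → T ∉ AddSubgroup.zmultiples X) :
    CycN n c.1 c.2 := by
  classical
  obtain ⟨θ, θ', i1, i2, k1, k2⟩ := hom L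
  obtain ⟨Z, hZ⟩ := div2' L X
  obtain ⟨P, hP⟩ : ∃ P, P = θ'.f QQ Z := ⟨_, rfl⟩
  have hθP : θ.f QQ P = X := by rw [hP, i2, hZ]
  have hnX : n • X = 0 := by
    rw [← hX]
    exact addOrderOf_nsmul_eq_zero X
  have hjX : ∀ j : ℕ, j • X = 0 → n ∣ j := by
    intro j hj
    rw [← hX]
    exact addOrderOf_dvd_of_nsmul_eq_zero hj
  have hPP : P + P = θ'.f QQ X := by rw [← hθP, i1]
  have hnP : n • P ≠ 0 := by
    intro h0
    have e1 : n • P = θ'.f QQ (m • X) := by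
      rw [map_nsmul, ← hPP, ← two_nsmul, ← mul_nsmul', hn, mul_comm]
    rw [e1, k2] at h0
    rcases h0 with h0 | ⟨h1, h0⟩
    · have := Nat.le_of_dvd (by omega) (hjX m h0)
      omega
    · apply hXT (m • X) ⟨h1, h0⟩
      exact AddSubgroup.mem_zmultiples_iff.2 ⟨(m : ℤ), natCast_zsmul _ _⟩
  have hkP : θ.f QQ (n • P) = 0 := by rw [map_nsmul, hθP, hnX]
  have h2nP : (2 * n) • P = 0 := by
    rw [mul_nsmul', two_nsmul, ← i1, hkP, map_zero]
  refine cycN_iff.2 ⟨P, ?_, fun σ => ?_⟩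
  · have h1 : addOrderOf P ∣ 2 * n := addOrderOf_dvd_of_nsmul_eq_zero h2nP
    have h2 : n ∣ addOrderOf P := by
      apply hjX
      rw [← hθP, ← map_nsmul, addOrderOf_nsmul_eq_zero, map_zero]
    obtain ⟨i, hi⟩ := h2
    rw [hi, mul_comm 2 n] at h1
    have h3 := Nat.dvd_of_mul_dvd_mul_left (by omega : 0 < n) h1
    have h4 : i = 1 ∨ i = 2 := by
      have := Nat.le_of_dvd (by norm_num) h3
      interval_cases i
      · simp at h3
      · exact Or.inl rfl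
      · exact Or.inr rfl
    rcases h4 with h4 | h4
    · exfalso
      apply hnP
      rw [h4, mul_one] at hi
      rw [← hi]
      exact addOrderOf_nsmul_eq_zero P
    · rw [hi, h4, mul_comm]
  · have h1 : θ.f QQ (act (Sh c.1 c.2) (σ : QQ →ₐ[ℚ] QQ) P - P) = 0 := by
      rw [map_sub, ← θ.nat, hθP, hXσ, sub_self]
    rw [k1] at h1 hkP
    rcases hkP with h2 | ⟨h2, h3⟩
    · exact absurd h2 hnP
    · rcases h1 with h1 | ⟨h4, h1⟩
      · exact Or.inl (sub_eq_zero.1 h1)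
      · right
        have e1 : act (Sh c.1 c.2) (σ : QQ →ₐ[ℚ] QQ) P - P = n • P := by
          rw [h1, h3]
        rw [add_nsmul, one_nsmul, ← e1, sub_add_cancel]

/-- the double of a rational point is not the middle point of order two -/
lemma not_dbl {c' : ℤ × ℤ} {r : ℤ} (hr : 3 * r ^ 2 + c'.1 < 0) (Y : Pt (Sh c'.1 c'.2) ℚ)
    (T : Pt (Sh c'.1 c'.2) QQ) (hT : ∃ h, T = (Affine.Point.some ((r : ℤ) : QQ) 0 h :
      ((Sh c'.1 c'.2).baseChange QQ).toAffine.Point)) :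
    io (Sh c'.1 c'.2) Y + io (Sh c'.1 c'.2) Y ≠ T := by
  classical
  intro h
  obtain ⟨hns, hT⟩ := hT
  have b1 : ((Sh c'.1 c'.2).baseChange QQ).toAffine.a₁ = 0 := map_zero _
  have b2 : ((Sh c'.1 c'.2).baseChange QQ).toAffine.a₂ = 0 := map_zero _
  have b3 : ((Sh c'.1 c'.2).baseChange QQ).toAffine.a₃ = 0 := map_zero _
  have b4 : ((Sh c'.1 c'.2).baseChange QQ).toAffine.a₄ = (c'.1 : QQ) := map_intCast _ _
  have hTT : T + T = 0 := by
    rw [hT]
    apply Affine.Point.add_self_of_Y_eq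
    rw [Affine.negY, b1, b3]
    ring
  have hT0 : T ≠ 0 := by
    rw [hT]
    exact Affine.Point.some_ne_zero _
  rcases Y with _ | ⟨x, y, hxy⟩
  · have h1 : (0 : Pt (Sh c'.1 c'.2) QQ) + 0 = T := h
    rw [add_zero] at h1
    exact hT0 h1.symm
  · have hxy' : ((Sh c'.1 c'.2).baseChange QQ).toAffine.Nonsingular (algebraMap ℚ QQ x)
        (algebraMap ℚ QQ y) :=
      (Affine.baseChange_nonsingular (Sh c'.1 c'.2) (Algebra.ofId ℚ QQ).injective ..).mpr hxy
    have h1 : (Affine.Point.some _ _ hxy' + Affine.Point.some _ _ hxy' :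
        Pt (Sh c'.1 c'.2) QQ) = T := h
    have h2 : ((Affine.Point.some _ _ hxy' + Affine.Point.some _ _ hxy' :
        Pt (Sh c'.1 c'.2) QQ) + (Affine.Point.some _ _ hxy' + Affine.Point.some _ _ hxy' :
        Pt (Sh c'.1 c'.2) QQ)) = 0 := (congrArg (fun t => t + t) h1).trans hTT
    obtain ⟨e, h', he1, -, he3⟩ := four_pt b1 b2 b3 hxy' (fun h0 => hT0 (h1.symm.trans h0)) h2
    have he2 : (Affine.Point.some e 0 h' : Pt (Sh c'.1 c'.2) QQ) =
      Affine.Point.some ((r : ℤ) : QQ) 0 hns := (he1.symm.trans h1).trans hT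
    have he : e = ((r : ℤ) : QQ) := ((Affine.Point.some.injEq ..).mp he2).1
    rw [he, b4] at he3
    have h5 : (x - (r : ℚ)) ^ 2 = 3 * (r : ℚ) ^ 2 + (c'.1 : ℚ) := by
      apply (algebraMap ℚ QQ).injective
      simp only [map_pow, map_sub, map_add, map_mul, map_ofNat, map_intCast]
      exact he3
    have h6 : (3 * (r : ℚ) ^ 2 + (c'.1 : ℚ)) < 0 := by exact_mod_cast hr
    have := sq_nonneg (x - (r : ℚ))
    linarith

/-- there is exactly one rational point of order two -/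
def One2 (W : WeierstrassCurve ℚ) : Prop :=
  ∀ P Q : W.toAffine.Point, addOrderOf P = 2 → addOrderOf Q = 2 → P = Q

lemma two_root {A B : ℤ} {P : (Sh A B).toAffine.Point} (h : addOrderOf P = 2) :
    ∃ (x : ℚ) (hx : (Sh A B).toAffine.Nonsingular x 0), P = Affine.Point.some x 0 hx ∧
      x ^ 3 + A * x + B = 0 := by
  have h2 : P + P = 0 := by
    rw [← two_nsmul, ← h]
    exact addOrderOf_nsmul_eq_zero P
  have h0 : P ≠ 0 := by
    intro h0
    rw [h0, addOrderOf_zero] at h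
    omega
  rcases P with _ | ⟨x, y, hxy⟩
  · exact absurd rfl h0
  have hy : y = 0 := by
    by_contra hy
    have hyn : y ≠ (Sh A B).toAffine.negY x y := by
      rw [Affine.negY]
      change y ≠ -y - 0 * x - 0
      intro h4
      apply hy
      linarith
    have e1 := Affine.Point.add_self_of_Y_ne (h₁ := hxy) hyn
    rw [e1] at h2
    exact absurd h2 (by simp)
  subst hy
  refine ⟨x, hxy, rfl, ?_⟩
  have := (Affine.equation_iff ..).1 hxy.1
  have h3 : (0 : ℚ) ^ 2 + 0 * x * 0 + 0 * 0 = x ^ 3 + 0 * x ^ 2 + A * x + B := this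
  linarith

lemma one2_of {c c' : ℤ × ℤ} {e q : ℤ} {u : ℕ} {r : ℤ} (L : Lk c c' e q u r)
    (h : 9 * e ^ 2 < 4 * q ^ 2) : One2 (Sh c.1 c.2) := by
  have key : ∀ x : ℚ, x ^ 3 + (c.1 : ℚ) * x + (c.2 : ℚ) = 0 → x = e := by
    intro x hx
    rw [L.hc1, L.hc2] at hx
    push_cast at hx
    have h1 : (x - e) * (x ^ 2 + e * x + (q ^ 2 - 2 * e ^ 2)) = 0 := by linear_combination hx
    rcases mul_eq_zero.1 h1 with h2 | h2
    · exact sub_eq_zero.1 h2
    · exfalso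
      have h3 : (9 * (e : ℚ) ^ 2) < 4 * (q : ℚ) ^ 2 := by exact_mod_cast h
      nlinarith [sq_nonneg (2 * x + e)]
  intro P Q hP hQ
  obtain ⟨x, hx, rfl, h1⟩ := two_root hP
  obtain ⟨y, hy, rfl, h2⟩ := two_root hQ
  apply some_congr
  · rw [key x h1, key y h2]
  · rfl

lemma mid_sign {c c' : ℤ × ℤ} {e q : ℤ} {u : ℕ} {r : ℤ} (L : Lk c c' e q u r)
    (hr : 3 * r ^ 2 + c'.1 < 0) : 9 * e ^ 2 < 4 * q ^ 2 := by
  have hu4 : (0 : ℤ) < (u : ℤ) ^ 4 := by
    have : (0 : ℤ) < u := by exact_mod_cast L.hu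
    positivity
  have e1 : (u : ℤ) ^ 4 * (3 * r ^ 2 + c'.1) = 3 * ((u : ℤ) ^ 2 * r) ^ 2 + (u : ℤ) ^ 4 * c'.1 := by
    ring
  rw [L.hr, L.h1] at e1
  have e2 : (u : ℤ) ^ 4 * (3 * r ^ 2 + c'.1) < 0 := mul_neg_of_pos_of_neg hu4 hr
  nlinarith

/-- **the quotient by the middle point of order two** -/
theorem mid {n m : ℕ} (hn : n = 4 * m) (hm : 1 ≤ m) {c c' : ℤ × ℤ} {e q : ℤ} {u : ℕ} {r : ℤ}
    (L : Lk c c' e q u r) (hr : 3 * r ^ 2 + c'.1 < 0) (h : HasT n (Sh c'.1 c'.2)) :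
    CycN n c.1 c.2 ∧ One2 (Sh c.1 c.2) := by
  classical
  refine ⟨?_, one2_of L (mid_sign L hr)⟩
  obtain ⟨X, T, hX, -, -⟩ := h
  obtain ⟨e⟩ := Pool.Agent.Q8.NS.exists_bcE (Sh c'.1 c'.2)
  have hinj : Function.Injective ((io (Sh c'.1 c'.2)).comp e.symm.toAddMonoidHom) :=
    (io_inj _).comp e.symm.injective
  refine core (n := n) (m := 2 * m) (by omega) (by omega) L
    (X := io (Sh c'.1 c'.2) (e.symm X)) ?_ (fun σ => io_fix _ σ _) ?_
  · rw [← hX]
    exact addOrderOf_injective ((io (Sh c'.1 c'.2)).comp e.symm.toAddMonoidHom) hinj X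
  · intro T hT hmem
    obtain ⟨j, hj⟩ := AddSubgroup.mem_zmultiples_iff.1 hmem
    obtain ⟨X', hX'⟩ : ∃ X', X' = io (Sh c'.1 c'.2) (e.symm X) := ⟨_, rfl⟩
    have hXo : addOrderOf X' = n := by
      rw [hX', ← hX]
      exact addOrderOf_injective ((io (Sh c'.1 c'.2)).comp e.symm.toAddMonoidHom) hinj X
    have hTT : T + T = 0 := by
      obtain ⟨hns, hT⟩ := hT
      rw [hT]
      apply Affine.Point.add_self_of_Y_eq
      have b1 : ((Sh c'.1 c'.2).baseChange QQ).toAffine.a₁ = 0 := map_zero _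
      have b3 : ((Sh c'.1 c'.2).baseChange QQ).toAffine.a₃ = 0 := map_zero _
      rw [Affine.negY, b1, b3]
      ring
    rw [← hX'] at hj
    have h1 : (2 * j) • X' = 0 := by
      rw [two_mul, add_zsmul, hj, hTT]
    have h2 := addOrderOf_dvd_iff_zsmul_eq_zero.2 h1
    rw [hXo, hn] at h2
    obtain ⟨i, hi⟩ := h2
    have h3 : j = (m * i) + (m * i) := by
      push_cast at hi
      linarith
    apply not_dbl hr (((m : ℤ) * i) • e.symm X) T hT
    rw [← map_add, ← add_zsmul, ← h3, map_zsmul, ← hX', hj]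

end Pool.Agent.Q17.TN
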