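import Mathlib
import Pool.Agent.Q17.TN.Mid

/-! The curves with a rational cyclic subgroup of order `2 n` with `n` rational points and only one
rational point of order two, `n` divisible by four. -/

set_option autoImplicit false

namespace Pool.Agent.Q17.TN

open Finset Filter Topology WeierstrassCurve
open Pool.Agent.W307.RT (Sh HasT Cv PAR LOW)
open Pool.Agent.Q17.IG (Lk Rd Lk_of roots_Ok coeff_roots root3)
open Pool.Agent.Y679.Cr (Ok isMin_of full_of)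
open Pool.Agent.Q8.FI (Rel sum_phi)

/-- the middle root -/
lemma exists_mid {c' : ℤ × ℤ} (hD : 4 * c'.1 ^ 3 + 27 * c'.2 ^ 2 ≠ 0) {e1 e2 e3 : ℤ}
    (he : ∀ x : ℤ, x ^ 3 + c'.1 * x + c'.2 = (x - e1) * (x - e2) * (x - e3)) :
    ∃ r k : ℤ, 4 * c'.1 = -(3 * r ^ 2 + k ^ 2) ∧ 4 * c'.2 = -(r * (r ^ 2 - k ^ 2)) ∧
      3 * r ^ 2 + c'.1 < 0 := by
  obtain ⟨h12, h13, h23⟩ := Pool.Agent.W402.FK.dist c'.1 c'.2 e1 e2 e3 hD he
  obtain ⟨hs, hA, -⟩ := Pool.Agent.W402.FK.coef c'.1 c'.2 e1 e2 e3 he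
  have he2 : ∀ x : ℤ, x ^ 3 + c'.1 * x + c'.2 = (x - e2) * (x - e1) * (x - e3) := fun x => by
    rw [he x]
    ring
  have he3 : ∀ x : ℤ, x ^ 3 + c'.1 * x + c'.2 = (x - e3) * (x - e1) * (x - e2) := fun x => by
    rw [he x]
    ring
  have d1 : 3 * e1 ^ 2 + c'.1 = (e1 - e2) * (e1 - e3) := by
    have : e3 = -e1 - e2 := by linarith
    rw [hA, this]
    ring
  have d2 : 3 * e2 ^ 2 + c'.1 = (e2 - e1) * (e2 - e3) := by
    have : e3 = -e1 - e2 := by linarith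
    rw [hA, this]
    ring
  have d3 : 3 * e3 ^ 2 + c'.1 = (e3 - e1) * (e3 - e2) := by
    have : e3 = -e1 - e2 := by linarith
    rw [hA, this]
    ring
  by_cases c1 : 3 * e1 ^ 2 + c'.1 < 0
  · obtain ⟨a1, a2⟩ := coeff_roots he
    exact ⟨_, _, a1, a2, c1⟩
  by_cases c2 : 3 * e2 ^ 2 + c'.1 < 0
  · obtain ⟨a1, a2⟩ := coeff_roots he2
    exact ⟨_, _, a1, a2, c2⟩
  by_cases c3 : 3 * e3 ^ 2 + c'.1 < 0
  · obtain ⟨a1, a2⟩ := coeff_roots he3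
    exact ⟨_, _, a1, a2, c3⟩
  exfalso
  rw [not_lt] at c1 c2 c3
  have h1 : 0 ≤ (3 * e1 ^ 2 + c'.1) * ((3 * e2 ^ 2 + c'.1) * (3 * e3 ^ 2 + c'.1)) :=
    mul_nonneg c1 (mul_nonneg c2 c3)
  rw [d1, d2, d3] at h1
  have h2 : (e1 - e2) * (e1 - e3) * ((e2 - e1) * (e2 - e3) * ((e3 - e1) * (e3 - e2))) =
      -(((e1 - e2) * (e1 - e3) * (e2 - e3)) ^ 2) := by ring
  rw [h2] at h1
  have h3 : (e1 - e2) * (e1 - e3) * (e2 - e3) ≠ 0 :=
    mul_ne_zero (mul_ne_zero (sub_ne_zero.2 h12) (sub_ne_zero.2 h13)) (sub_ne_zero.2 h23)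
  have h4 : 0 < ((e1 - e2) * (e1 - e3) * (e2 - e3)) ^ 2 := by positivity
  linarith

/-- the quotients by the middle points of order two -/
lemma down2 {n m : ℕ} (hn : n = 4 * m) (hm : 1 ≤ m) {H : ℕ} {c' : ℤ × ℤ} (hc : c' ∈ Cv n H) :
    ∃ (c : ℤ × ℤ) (e q : ℤ) (u : ℕ) (r : ℤ), Lk c c' e q u r ∧ c ∈ FN n (4096 * H) ∧
      One2 (Sh c.1 c.2) ∧ 3 * r ^ 2 + c'.1 < 0 := by
  obtain ⟨h1, h2, h3, h4, h5⟩ := mem_Cv.1 hc
  obtain ⟨e1, e2, e3, he⟩ := roots_Ok c' ⟨isMin_of h1 h4, full_of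
    (HasT.two (m := 2 * m) (by omega) (by omega) h5)⟩
  obtain ⟨r, k, k1, k2, k3⟩ := exists_mid h1 he
  obtain ⟨c, e, q, u, L, b1, b2⟩ := quot' h1 h4 k1 k2
  obtain ⟨m1, m2⟩ := quot_height h2 k1 b1 b2
  obtain ⟨g1, g2⟩ := mid hn hm L k3 h5
  exact ⟨c, e, q, u, r, L, mem_FN.2 ⟨L.hD, m1, m2, L.hR, g1⟩, g2, k3⟩

/-- the injection of a set of curves: at most three curves have the same quotient -/
lemma card_down2 {n m : ℕ} (hn : n = 4 * m) (hm : 1 ≤ m) (H : ℕ) (S G : Finset (ℤ × ℤ))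
    (hS : S ⊆ Cv n H)
    (hG : ∀ (c c' : ℤ × ℤ) (e q : ℤ) (u : ℕ) (r : ℤ), Lk c c' e q u r → c' ∈ S →
      c ∈ FN n (4096 * H) → One2 (Sh c.1 c.2) → 3 * r ^ 2 + c'.1 < 0 → c ∈ G) :
    S.card ≤ 3 * G.card := by
  classical
  have key : ∀ c' : ℤ × ℤ, ∃ x : (ℤ × ℤ) × ℤ, c' ∈ S →
      (∃ (q : ℤ) (u : ℕ) (r : ℤ), Lk x.1 c' x.2 q u r) ∧ x.1 ∈ G := by
    intro c'
    by_cases hc : c' ∈ S
    · obtain ⟨c, e, q, u, r, L, g1, g2, g3⟩ := down2 hn hm (hS hc)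
      exact ⟨(c, e), fun _ => ⟨⟨q, u, r, L⟩, hG c c' e q u r L hc g1 g2 g3⟩⟩
    · exact ⟨0, fun h => absurd h hc⟩
  choose x hx using key
  have h0 : (S.image (fun c' => (x c').1)).card ≤ G.card := by
    apply card_le_card
    intro c hc
    obtain ⟨c', hc', rfl⟩ := mem_image.1 hc
    exact (hx c' hc').2
  refine le_trans (card_le_mul_card_image S 3 fun c hc => ?_) (Nat.mul_le_mul_left 3 h0)
  obtain ⟨b, hb, rfl⟩ := mem_image.1 hc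
  have h1 : (S.filter (fun c' => (x c').1 = (x b).1)).card ≤
      ((S.filter (fun c' => (x c').1 = (x b).1)).image (fun c' => (x c').2)).card := by
    rw [card_image_of_injOn]
    intro c1 h1 c2 h2 h12
    rw [mem_coe, mem_filter] at h1 h2
    obtain ⟨⟨q, u, r, L⟩, -⟩ := hx c1 h1.1
    obtain ⟨⟨q', u', r', L'⟩, -⟩ := hx c2 h2.1
    have h12' : (x c1).2 = (x c2).2 := h12
    rw [h1.2, h12'] at L
    rw [h2.2] at L'
    exact L.unique' L'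
  refine h1.trans (root3 (x b).1.1 (x b).1.2 _ fun e he => ?_)
  obtain ⟨c1, hc1, rfl⟩ := mem_image.1 he
  rw [mem_filter] at hc1
  obtain ⟨⟨q, u, r, L⟩, -⟩ := hx c1 hc1.1
  rw [← hc1.2, L.hc1, L.hc2]
  ring

/-- there are many curves in the family `G` -/
def Many (k : ℕ) (G : ℕ → Finset (ℤ × ℤ)) : Prop :=
  ∃ (c : ℝ) (C T0 : ℕ), 0 < c ∧ ∀ T H : ℕ, T0 ≤ T → C * T ^ k ≤ H → c * (T : ℝ) ^ 2 ≤ ((G H).card : ℝ)

/-- the numbers of the curves of the two families are comparable -/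
theorem ratioG {n k : ℕ} {M N : ℤ → ℤ → ℤ} (hk : 1 ≤ k) (hP : PAR n k M N)
    {G : ℕ → Finset (ℤ × ℤ)} (hL : Many k G) : ∃ R : ℝ, 0 ≤ R ∧ ∀ H : ℕ, (G H).Nonempty →
      ((Cv n (12 * 14 ^ 6 * H)).card : ℝ) ≤ R * ((G H).card : ℝ) := by
  obtain ⟨C1, hC1⟩ := cv_up hP hk
  obtain ⟨c, C2, T0, hc, hlow⟩ := hL
  obtain ⟨A, hA⟩ : ∃ A : ℕ, A = C2 + 1 := ⟨_, rfl⟩
  obtain ⟨B, hB⟩ : ∃ B : ℕ, B = C1 * (12 * 14 ^ 6) * A + 1 := ⟨_, rfl⟩
  obtain ⟨T1, hT1⟩ : ∃ T1 : ℕ, T1 = T0 + 1 := ⟨_, rfl⟩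
  obtain ⟨H1, hH1⟩ : ∃ H1 : ℕ, H1 = A * T1 ^ k := ⟨_, rfl⟩
  obtain ⟨D, hD⟩ : ∃ D : ℕ, D = (Cv n (12 * 14 ^ 6 * H1)).card := ⟨_, rfl⟩
  have hA1 : 1 ≤ A := by rw [hA]; omega
  have hD0 : (0 : ℝ) ≤ (D : ℝ) := Nat.cast_nonneg _
  have hR0 : (0 : ℝ) ≤ 25 * (B : ℝ) ^ 2 / c := by positivity
  refine ⟨25 * (B : ℝ) ^ 2 / c + D, by linarith, fun H hne => ?_⟩
  have h0 : (1 : ℝ) ≤ ((G H).card : ℝ) := by exact_mod_cast card_pos.2 hne
  rcases lt_or_ge H H1 with h | h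
  · have h1 : ((Cv n (12 * 14 ^ 6 * H)).card : ℝ) ≤ (D : ℝ) := by
      rw [hD]
      exact_mod_cast card_le_card (Cv_mono n (Nat.mul_le_mul_left _ h.le))
    rw [add_mul]
    have h2 : 0 ≤ 25 * (B : ℝ) ^ 2 / c * ((G H).card : ℝ) := mul_nonneg hR0 (by linarith)
    have h3 : (D : ℝ) ≤ D * ((G H).card : ℝ) := le_mul_of_one_le_right hD0 h0
    exact h1.trans (h3.trans (le_add_of_nonneg_left h2))
  · -- the scale
    obtain ⟨T, hT⟩ : ∃ T : ℕ, T = Nat.findGreatest (fun T => A * T ^ k ≤ H) H := ⟨_, rfl⟩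
    have hbd : ∀ T : ℕ, A * T ^ k ≤ H → T ≤ H := by
      intro T h'
      have h2 := Nat.le_self_pow (n := k) (by omega) T
      nlinarith
    have hTT : A * T ^ k ≤ H := by
      rw [hT]
      have hT1' : A * T1 ^ k ≤ H := by rw [← hH1]; exact h
      exact Nat.findGreatest_spec (P := fun T => A * T ^ k ≤ H) (hbd T1 hT1') hT1'
    have hT1T : T1 ≤ T := by
      rw [hT]
      have hT1' : A * T1 ^ k ≤ H := by rw [← hH1]; exact h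
      exact Nat.le_findGreatest (hbd T1 hT1') hT1'
    have hTu : H < A * (T + 1) ^ k := by
      by_contra hcon
      push Not at hcon
      have := Nat.le_findGreatest (P := fun T => A * T ^ k ≤ H) (hbd (T + 1) hcon) hcon
      omega
    have hT1' : (1 : ℝ) ≤ T := by exact_mod_cast (by omega : 1 ≤ T)
    -- the lower bound
    have hlo : c * (T : ℝ) ^ 2 ≤ ((G H).card : ℝ) := by
      refine hlow T H (by omega) (le_trans ?_ hTT)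
      rw [hA]
      exact Nat.mul_le_mul_right _ (Nat.le_succ _)
    -- the upper bound
    have hup : ((Cv n (12 * 14 ^ 6 * H)).card : ℝ) ≤ 25 * (B : ℝ) ^ 2 * (T : ℝ) ^ 2 := by
      have h1 : C1 * (12 * 14 ^ 6 * H) ≤ (B * (T + 1)) ^ k := by
        have h2 : C1 * (12 * 14 ^ 6 * H) ≤ B * (T + 1) ^ k := by
          calc C1 * (12 * 14 ^ 6 * H) ≤ C1 * (12 * 14 ^ 6 * (A * (T + 1) ^ k)) :=
                Nat.mul_le_mul_left _ (Nat.mul_le_mul_left _ hTu.le)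
            _ = (C1 * (12 * 14 ^ 6) * A) * (T + 1) ^ k := by ring
            _ ≤ B * (T + 1) ^ k := Nat.mul_le_mul_right _ (by rw [hB]; omega)
        refine h2.trans ?_
        rw [mul_pow]
        exact Nat.mul_le_mul_right _ (Nat.le_self_pow (by omega) B)
      have h3 := hC1 _ _ h1
      have h4 : ((Cv n (12 * 14 ^ 6 * H)).card : ℝ) ≤ (2 * ((B : ℝ) * ((T : ℝ) + 1)) + 1) ^ 2 := by
        exact_mod_cast h3
      have hB1 : (1 : ℝ) ≤ B := by rw [hB]; push_cast; linarith [(by positivity : (0 : ℝ) ≤ (C1 : ℝ) * (12 * 14 ^ 6) * A)]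
      have h5 : 2 * ((B : ℝ) * ((T : ℝ) + 1)) + 1 ≤ 5 * B * T := by
        nlinarith [mul_nonneg (sub_nonneg.2 hB1) (sub_nonneg.2 hT1')]
      have h6 : (2 * ((B : ℝ) * ((T : ℝ) + 1)) + 1) ^ 2 ≤ (5 * B * T) ^ 2 :=
        pow_le_pow_left₀ (by positivity) h5 2
      calc _ ≤ _ := h4
        _ ≤ _ := h6
        _ = _ := by ring
    have hfin : 25 * (B : ℝ) ^ 2 * (T : ℝ) ^ 2 ≤ 25 * (B : ℝ) ^ 2 / c * ((G H).card : ℝ) := by
      rw [div_mul_eq_mul_div, le_div_iff₀ hc]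
      have : 0 ≤ (B : ℝ) ^ 2 := by positivity
      nlinarith
    have hlast : (0 : ℝ) ≤ D * ((G H).card : ℝ) := mul_nonneg hD0 (by linarith)
    rw [add_mul]
    exact hup.trans (hfin.trans (le_add_of_nonneg_right hlast))

lemma tendG {k : ℕ} {G : ℕ → Finset (ℤ × ℤ)} (hG : Monotone G) (hL : Many k G) :
    Tendsto (fun H : ℕ => (G H).card) atTop atTop := by
  obtain ⟨c, C, T0, hc, h⟩ := hL
  rw [tendsto_atTop_atTop]
  intro b
  obtain ⟨n, hn⟩ := exists_nat_gt ((b : ℝ) / c)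
  obtain ⟨T, hT⟩ : ∃ T : ℕ, T = max (max T0 n) 1 := ⟨_, rfl⟩
  refine ⟨C * T ^ k, fun H hH => ?_⟩
  have h1 := h T (C * T ^ k) (by rw [hT]; omega) le_rfl
  have h2 := card_le_card (hG hH)
  have h3 : (n : ℝ) ≤ T := by
    have : n ≤ T := by rw [hT]; omega
    exact_mod_cast this
  have h4 : (1 : ℝ) ≤ T := by
    have : 1 ≤ T := by rw [hT]; omega
    exact_mod_cast this
  have h5 : (b : ℝ) ≤ c * T := by
    rw [div_lt_iff₀ hc] at hn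
    nlinarith
  have h6 : c * T ≤ c * (T : ℝ) ^ 2 := by
    apply mul_le_mul_of_nonneg_left _ hc.le
    nlinarith
  have h7 : (b : ℝ) ≤ ((G H).card : ℝ) := by
    have : ((G (C * T ^ k)).card : ℝ) ≤ ((G H).card : ℝ) := by exact_mod_cast h2
    linarith
  exact_mod_cast h7

/-- the transfer of an average -/
theorem transferG {n m k : ℕ} {M N : ℤ → ℤ → ℤ} (hn : n = 2 * m) (hm : 1 ≤ m) (hk : 1 ≤ k)
    (hP : PAR n k M N) {G : ℕ → Finset (ℤ × ℤ)} (hL : Many k G) (hG : ∀ H, G H ⊆ FN n H)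
    {g g' : ℤ × ℤ → ℝ} (hg' : ∀ m, 0 ≤ g' m)
    (h : ∀ (c c' : ℤ × ℤ) (e q : ℤ) (u : ℕ) (r : ℤ) (H : ℕ), Lk c c' e q u r → c' ∈ Cv n H →
      g c ≤ g' c')
    (hC : ∃ C : ℝ, ∀ H : ℕ, ∑ c ∈ Cv n H, g' c ≤ C * ((Cv n H).card : ℝ)) :
    ∃ C : ℝ, 0 ≤ C ∧ ∀ H : ℕ, ∑ c ∈ G H, g c ≤ C * ((G H).card : ℝ) := by
  classical
  obtain ⟨C, hC⟩ := hC
  obtain ⟨R, hR0, hR⟩ := ratioG hk hP hL
  obtain ⟨φ, hφ⟩ := exists_phi hn hm
  refine ⟨6 * |C| * R, by positivity, fun H => ?_⟩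
  rcases (G H).eq_empty_or_nonempty with he | hne
  · rw [he]
    simp
  have h1 : ∑ c ∈ G H, g c ≤ ∑ c ∈ G H, g' (φ c) := by
    refine sum_le_sum fun c hc => ?_
    obtain ⟨h2, e, q, u, r, L⟩ := hφ H c (hG H hc)
    exact h _ _ e q u r _ L h2
  have h2 := sum_phi (S := G H) (T := Cv n (12 * 14 ^ 6 * H)) (φ := φ) (fun c hc => by
    obtain ⟨h2, e, q, u, r, L⟩ := hφ H c (hG H hc)
    exact ⟨rel_of L, h2⟩) (g := g') hg'
  have h3 : C * ((Cv n (12 * 14 ^ 6 * H)).card : ℝ) ≤ |C| * (R * ((G H).card : ℝ)) :=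
    (mul_le_mul_of_nonneg_right (le_abs_self C) (Nat.cast_nonneg _)).trans
      (mul_le_mul_of_nonneg_left (hR H hne) (abs_nonneg C))
  calc ∑ c ∈ G H, g c ≤ 6 * ∑ m ∈ Cv n (12 * 14 ^ 6 * H), g' m := h1.trans h2
    _ ≤ 6 * (|C| * (R * ((G H).card : ℝ))) := by
        have := (hC (12 * 14 ^ 6 * H)).trans h3
        linarith
    _ = _ := by ring

/-- the ranks of linked curves -/
lemma rank_le_of {c c' : ℤ × ℤ} {e q : ℤ} {u : ℕ} {r : ℤ} (L : Lk c c' e q u r) :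
    Module.finrank ℤ (Sh c.1 c.2).toAffine.Point ≤ Module.finrank ℤ (Sh c'.1 c'.2).toAffine.Point :=
  (rel_of L).rank

end Pool.Agent.Q17.TN
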