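import Mathlib
import Pool.Agent.Q17.TN.One
import Pool.Agent.TH344.GT.Tail

/-! The transfer of all the moments off a set of density zero. -/

set_option autoImplicit false

namespace Pool.Agent.Q17.TN

open Finset Filter Topology WeierstrassCurve
open Pool.Agent.W307.RT (Sh HasT Cv PAR LOW)
open Pool.Agent.Q17.IG (Lk Rd)
open Pool.Agent.Q8.FI (Rel sum_phi)
open Pool.Agent.TH344.GT (EXC)

open Classical in
/-- the transfer of one exceptional set for a family of functions -/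
theorem excs {ι : Type} {n m k : ℕ} {M N : ℤ → ℤ → ℤ} (hn : n = 2 * m) (hm : 1 ≤ m) (hk : 1 ≤ k)
    (hP : PAR n k M N) {G : ℕ → Finset (ℤ × ℤ)} (hL : Many k G) (hG : ∀ H, G H ⊆ FN n H)
    {s s' : ι → ℤ × ℤ → ℕ}
    (h : ∀ (i : ι) (c c' : ℤ × ℤ) (e q : ℤ) (u : ℕ) (r : ℤ) (H : ℕ), Lk c c' e q u r →
      c' ∈ Cv n H → s i c ≤ s' i c') {Z : Set (ℤ × ℤ)}
    (hZ : ∀ ε : ℝ, 0 < ε → ∃ H0 : ℕ, ∀ H, H0 ≤ H →
      (((Cv n H).filter (fun c => c ∈ Z)).card : ℝ) ≤ ε * (Cv n H).card)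
    (hM : ∀ (i : ι) (j : ℕ), ∃ C : ℝ, ∀ H,
      ∑ c ∈ (Cv n H).filter (fun c => c ∉ Z), (s' i c : ℝ) ^ j ≤ C * (Cv n H).card) :
    ∃ Z' : Set (ℤ × ℤ), (∀ ε : ℝ, 0 < ε → ∃ H0 : ℕ, ∀ H, H0 ≤ H →
      (((G H).filter (fun c => c ∈ Z')).card : ℝ) ≤ ε * (G H).card) ∧
      ∀ (i : ι) (j : ℕ), ∃ C : ℝ, ∀ H,
        ∑ c ∈ (G H).filter (fun c => c ∉ Z'), (s i c : ℝ) ^ j ≤ C * (G H).card := by
  obtain ⟨R, hR0, hR⟩ := ratioG hk hP hL
  obtain ⟨φ, hφ⟩ := exists_phi hn hm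
  refine ⟨{c | φ c ∈ Z}, fun ε hε => ?_, fun i j => ?_⟩
  · obtain ⟨H0, hH0⟩ := hZ (ε / (6 * (R + 1))) (by positivity)
    refine ⟨H0, fun H hH => ?_⟩
    rcases (G H).eq_empty_or_nonempty with he | hne
    · rw [he]
      simp
    have h2 := sum_phi (S := (G H).filter (fun c => c ∈ {c | φ c ∈ Z}))
      (T := (Cv n (12 * 14 ^ 6 * H)).filter (fun c => c ∈ Z)) (φ := φ) (fun c hc => by
        rw [mem_filter] at hc
        obtain ⟨h2, e, q, u, r, L⟩ := hφ H c (hG H hc.1)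
        exact ⟨rel_of L, mem_filter.2 ⟨h2, hc.2⟩⟩) (g := fun _ => (1 : ℝ)) (fun _ => zero_le_one)
    simp only [sum_const, nsmul_eq_mul, mul_one] at h2
    have h3 := hH0 (12 * 14 ^ 6 * H) (hH.trans (Nat.le_mul_of_pos_left H (by norm_num)))
    have h4 := hR H hne
    have h5 : (((Cv n (12 * 14 ^ 6 * H)).filter (fun c => c ∈ Z)).card : ℝ) ≤
        ε / (6 * (R + 1)) * (R * ((G H).card : ℝ)) :=
      h3.trans (mul_le_mul_of_nonneg_left h4 (by positivity))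
    have h6 : 6 * (ε / (6 * (R + 1)) * (R * ((G H).card : ℝ))) =
        (R / (R + 1)) * (ε * ((G H).card : ℝ)) := by
      field_simp
    have h7 : R / (R + 1) ≤ 1 := by
      rw [div_le_one (by positivity)]
      linarith
    have h8 : (R / (R + 1)) * (ε * ((G H).card : ℝ)) ≤ 1 * (ε * ((G H).card : ℝ)) :=
      mul_le_mul_of_nonneg_right h7 (by positivity)
    exact (h2.trans (mul_le_mul_of_nonneg_left h5 (by norm_num))).trans
      (h6.le.trans (h8.trans_eq (one_mul _)))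
  · obtain ⟨C, hC⟩ := hM i j
    refine ⟨6 * |C| * R, fun H => ?_⟩
    rcases (G H).eq_empty_or_nonempty with he | hne
    · rw [he]
      simp
    have h1 : ∑ c ∈ (G H).filter (fun c => c ∉ {c | φ c ∈ Z}), (s i c : ℝ) ^ j ≤
        ∑ c ∈ (G H).filter (fun c => c ∉ {c | φ c ∈ Z}), (s' i (φ c) : ℝ) ^ j := by
      refine sum_le_sum fun c hc => ?_
      obtain ⟨h2, e, q, u, r, L⟩ := hφ H c (hG H (mem_filter.1 hc).1)
      exact pow_le_pow_left₀ (Nat.cast_nonneg _) (by exact_mod_cast h i _ _ e q u r _ L h2) j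
    have h2 := sum_phi (S := (G H).filter (fun c => c ∉ {c | φ c ∈ Z}))
      (T := (Cv n (12 * 14 ^ 6 * H)).filter (fun c => c ∉ Z)) (φ := φ) (fun c hc => by
        rw [mem_filter] at hc
        obtain ⟨h2, e, q, u, r, L⟩ := hφ H c (hG H hc.1)
        exact ⟨rel_of L, mem_filter.2 ⟨h2, hc.2⟩⟩) (g := fun c => (s' i c : ℝ) ^ j)
        (fun _ => by positivity)
    have h3 : C * ((Cv n (12 * 14 ^ 6 * H)).card : ℝ) ≤ |C| * (R * ((G H).card : ℝ)) :=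
      (mul_le_mul_of_nonneg_right (le_abs_self C) (Nat.cast_nonneg _)).trans
        (mul_le_mul_of_nonneg_left (hR H hne) (abs_nonneg C))
    calc ∑ c ∈ (G H).filter (fun c => c ∉ {c | φ c ∈ Z}), (s i c : ℝ) ^ j
        ≤ 6 * ∑ c ∈ (Cv n (12 * 14 ^ 6 * H)).filter (fun c => c ∉ Z), (s' i c : ℝ) ^ j :=
          h1.trans h2
      _ ≤ 6 * (|C| * (R * ((G H).card : ℝ))) := by
          have := (hC (12 * 14 ^ 6 * H)).trans h3
          linarith
      _ = _ := by ring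

end Pool.Agent.Q17.TN
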