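import Mathlib
import Pool.Agent.Q17.TN.Ker

/-! The `x`-coordinates of the images under the 2-isogeny. -/

set_option autoImplicit false

namespace Pool.Agent.Q17.TN

open WeierstrassCurve
open Pool.Agent.W307.RT (Sh)
open Pool.Agent.TH841.SH.D (Pt act)
open Pool.Agent.TH841.LS (WI)
open Pool.Agent.TH841.PT (EQ)
open Pool.Agent.Y676.IS (NH isoH isoW_ker isoW_x0 isoW_some datPsi datPhi isoH_act isoH_dbl)
open Pool.Agent.Q17.IG (Lk Sb nh nh_inv NHcomp some_congr)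

/-- the 2-isogeny: the kernel, and the `x`-coordinates of the images are squares plus `r` -/
theorem hom_sq {c c' : ℤ × ℤ} {e q : ℤ} {u : ℕ} {r : ℤ} (L : Lk c c' e q u r) :
    ∃ θ : NH (Sh c.1 c.2) (Sh c'.1 c'.2),
      (∀ P : Pt (Sh c.1 c.2) ℚ, θ.f ℚ P = 0 ↔
        P = 0 ∨ ∃ h, P = (Affine.Point.some ((e : ℤ) : ℚ) 0 h :
          ((Sh c.1 c.2).baseChange ℚ).toAffine.Point)) ∧
      ∀ (P : Pt (Sh c.1 c.2) ℚ) (x y : ℚ) (h : ((Sh c'.1 c'.2).baseChange ℚ).toAffine.Nonsingular x y),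
        θ.f ℚ P = Affine.Point.some x y h → IsSquare (x - (r : ℚ)) := by
  obtain ⟨h12, hA, hB⟩ := ne_of L
  let ψ : NH (WI (3 * e + 2 * q) (3 * e - 2 * q)) (EQ (3 * e + 2 * q) (3 * e - 2 * q)) :=
    ⟨fun F _ _ => isoH F (datPsi h12 hA hB), fun F L _ _ _ _ f P => isoH_act F _ f P⟩
  have h3 : ∀ P : Pt (WI (3 * e + 2 * q) (3 * e - 2 * q)) ℚ, ψ.f ℚ P = 0 ↔ P = 0 ∨
        ∃ h, P = (Affine.Point.some 0 0 h :
          ((WI (3 * e + 2 * q) (3 * e - 2 * q)).baseChange ℚ).toAffine.Point) := by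
    intro P
    constructor
    · intro hP
      exact isoW_ker ((datPsi h12 hA hB).w ℚ) ((datPsi h12 hA hB).w' ℚ)
        ((datPsi h12 hA hB).base ℚ) P hP
    · rintro (h | ⟨h, hh⟩)
      · rw [h, map_zero]
      · rw [hh]
        exact isoW_x0 ((datPsi h12 hA hB).w ℚ) ((datPsi h12 hA hB).w' ℚ)
          ((datPsi h12 hA hB).base ℚ) h rfl
  have S1 := sb1 L
  have S2 := sb2 L
  refine ⟨NHcomp (nh S2) (NHcomp ψ (nh S1)), fun P => ?_, fun P x y h hP => ?_⟩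
  · change (nh S2).f ℚ (ψ.f ℚ ((nh S1).f ℚ P)) = 0 ↔ _
    have a1 : ∀ Q, (nh S2).f ℚ Q = 0 ↔ Q = 0 := fun Q => tF_ker (S2.map (algebraMap ℚ ℚ)) Q
    rw [a1, h3]
    have a2 : ∀ Q, (nh S1).f ℚ Q = 0 ↔ Q = 0 := fun Q => tF_ker (S1.map (algebraMap ℚ ℚ)) Q
    rw [a2]
    refine or_congr_right ?_
    refine (tF_eq (S1.map (algebraMap ℚ ℚ)) P 0).trans ?_
    have e1 : (0 - algebraMap ℚ ℚ (-(4 * (e : ℚ)))) / (algebraMap ℚ ℚ 2) ^ 2 = ((e : ℤ) : ℚ) := by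
      simp only [map_neg, map_mul, map_ofNat, map_intCast]
      field_simp
      ring
    rw [e1]
    rfl
  · change (nh S2).f ℚ (ψ.f ℚ ((nh S1).f ℚ P)) = _ at hP
    obtain ⟨P1, hP1⟩ : ∃ P1, P1 = (nh S1).f ℚ P := ⟨_, rfl⟩
    rw [← hP1] at hP
    have hzero : ψ.f ℚ P1 ≠ 0 := by
      intro h0
      rw [h0, map_zero] at hP
      exact absurd hP.symm (Affine.Point.some_ne_zero _)
    rcases P1 with _ | ⟨x1, y1, h1⟩
    · exact absurd (map_zero _) hzero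
    have hx1 : x1 ≠ 0 := by
      intro hx
      apply hzero
      exact isoW_x0 ((datPsi h12 hA hB).w ℚ) ((datPsi h12 hA hB).w' ℚ)
        ((datPsi h12 hA hB).base ℚ) h1 hx
    obtain ⟨h2, hψ⟩ := isoW_some ((datPsi h12 hA hB).w ℚ) ((datPsi h12 hA hB).w' ℚ)
      ((datPsi h12 hA hB).base ℚ) h1 hx1
    have hψ' : ψ.f ℚ (Affine.Point.some x1 y1 h1) = Affine.Point.some _ _ h2 := hψ
    rw [hψ'] at hP
    have hP' : Affine.Point.some x y h = Affine.Point.some _ _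
      (((S2.map (algebraMap ℚ ℚ)).ns_iff _ _).2 h2) := hP.symm
    have g1 := ((Affine.Point.some.injEq ..).mp hP').1.symm
    refine ⟨(u : ℚ)⁻¹ * (y1 / (2 * x1)), ?_⟩
    have e2 : (algebraMap ℚ ℚ) (2 : ℚ) = 2 := rfl
    have e3 : (algebraMap ℚ ℚ) ((u : ℚ)⁻¹) = (u : ℚ)⁻¹ := rfl
    have e4 : (algebraMap ℚ ℚ) (r : ℚ) = (r : ℚ) := rfl
    rw [e2, e3, e4] at g1
    rw [← g1]
    have hu0 : (u : ℚ) ≠ 0 := by exact_mod_cast L.hu.ne'
    field_simp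
    ring

end Pool.Agent.Q17.TN
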