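import Mathlib
import Pool.Agent.W307.RT.Defs

/-! The number of the pairs of integers with a product that is a square up to sign. -/

set_option autoImplicit false

namespace Pool.Agent.Q17.TN

open Finset
open Pool.Agent.W307.RT (M6 N6)

/-- `x` is a square or twice a square, up to sign -/
def Sq2 (x : ℤ) : Prop := ∃ y : ℕ, x.natAbs = y ^ 2 ∨ x.natAbs = 2 * y ^ 2

lemma sq2_nat {a b z : ℕ} (h : a * b = z ^ 2) (hg : Nat.gcd a b ∣ 2) :
    ∃ y : ℕ, a = y ^ 2 ∨ a = 2 * y ^ 2 := by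
  rcases (Nat.dvd_prime Nat.prime_two).1 hg with h1 | h1
  · obtain ⟨d, hd⟩ := exists_eq_pow_of_mul_eq_pow (a := a) (b := b) (c := z) (k := 2)
      (by rw [Nat.isUnit_iff]; exact h1) h
    exact ⟨d, Or.inl hd⟩
  · have hpos : 0 < Nat.gcd a b := by omega
    obtain ⟨a', b', hc, ha, hb⟩ := Nat.exists_coprime a b
    rw [h1] at ha hb
    have h2 : (a' * b') * 4 = z ^ 2 := by
      rw [← h, ha, hb]
      ring
    have hz : 2 ∣ z := by
      have : 2 ∣ z ^ 2 := ⟨a' * b' * 2, by rw [← h2]; ring⟩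
      exact Nat.prime_two.dvd_of_dvd_pow this
    obtain ⟨z', rfl⟩ := hz
    have h3 : a' * b' = z' ^ 2 := by
      have : (a' * b') * 4 = z' ^ 2 * 4 := by rw [h2]; ring
      omega
    obtain ⟨d, hd⟩ := exists_eq_pow_of_mul_eq_pow (a := a') (b := b') (c := z') (k := 2)
      (by rw [Nat.isUnit_iff]; exact hc) h3
    exact ⟨d, Or.inr (by rw [ha, hd]; ring)⟩

lemma sq2_int {a b z : ℤ} (h : a * b = z ^ 2 ∨ a * b = -z ^ 2) (hg : Int.gcd a b ∣ 2) :
    Sq2 a ∧ Sq2 b := by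
  have h1 : a.natAbs * b.natAbs = z.natAbs ^ 2 := by
    rw [← Int.natAbs_mul, ← Int.natAbs_pow]
    rcases h with h | h
    · rw [h]
    · rw [h, Int.natAbs_neg]
  exact ⟨sq2_nat h1 hg, sq2_nat (by rw [mul_comm]; exact h1) (by rw [Nat.gcd_comm]; exact hg)⟩

open Classical in
/-- the integers up to `K` that are squares or twice squares, up to sign -/
noncomputable def SS (K : ℕ) : Finset ℤ := (Icc (-(K : ℤ)) K).filter Sq2

lemma SS_card (K : ℕ) : (SS K).card ≤ 4 * (Nat.sqrt K + 1) := by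
  classical
  have h1 : SS K ⊆ (univ ×ˢ range (Nat.sqrt K + 1) : Finset ((Bool × Bool) × ℕ)).image
      (fun t => (if t.1.1 then (1 : ℤ) else -1) * (if t.1.2 then (1 : ℤ) else 2) * (t.2 : ℤ) ^ 2) := by
    intro x hx
    unfold SS at hx
    rw [mem_filter, mem_Icc] at hx
    obtain ⟨⟨b1, b2⟩, y, hy⟩ := hx
    have hx2 : x.natAbs ≤ K := by omega
    have hy2 : y < Nat.sqrt K + 1 := by
      apply Nat.lt_succ_of_le
      rw [Nat.le_sqrt']
      rcases hy with hy | hy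
      · omega
      · have : y ^ 2 ≤ 2 * y ^ 2 := by omega
        omega
    rw [mem_image]
    rcases hy with hy | hy
    · rcases Int.natAbs_eq x with h | h
      · refine ⟨((true, true), y), mem_product.2 ⟨mem_univ _, mem_range.2 hy2⟩, ?_⟩
        rw [h, hy]
        simp
      · refine ⟨((false, true), y), mem_product.2 ⟨mem_univ _, mem_range.2 hy2⟩, ?_⟩
        rw [h, hy]
        simp
    · rcases Int.natAbs_eq x with h | h
      · refine ⟨((true, false), y), mem_product.2 ⟨mem_univ _, mem_range.2 hy2⟩, ?_⟩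
        rw [h, hy]
        simp
      · refine ⟨((false, false), y), mem_product.2 ⟨mem_univ _, mem_range.2 hy2⟩, ?_⟩
        rw [h, hy]
        simp
  refine (card_le_card h1).trans (card_image_le.trans ?_)
  rw [card_product, card_range]
  simp

lemma sqrt_bd (K : ℕ) (hK : 1 ≤ K) : (4 * (Nat.sqrt K + 1)) ^ 2 ≤ 64 * K := by
  have h1 : Nat.sqrt K ^ 2 ≤ K := Nat.sqrt_le' K
  have h2 : 1 ≤ Nat.sqrt K := Nat.le_sqrt'.2 (by omega)
  nlinarith

/-- pairs in a set which are mapped injectively to pairs of squares or double squares -/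
lemma pairs_card (A : Finset (ℤ × ℤ)) (K : ℕ) (hK : 1 ≤ K) (f : ℤ × ℤ → ℤ × ℤ)
    (hf : Function.Injective f) (h : ∀ w ∈ A, (f w).1 ∈ SS K ∧ (f w).2 ∈ SS K) :
    A.card ≤ 64 * K := by
  classical
  rw [← card_image_of_injective A hf]
  have h1 : A.image f ⊆ SS K ×ˢ SS K := by
    intro x hx
    obtain ⟨w, hw, rfl⟩ := mem_image.1 hx
    exact mem_product.2 (h w hw)
  refine (card_le_card h1).trans ?_
  rw [card_product, ← pow_two]
  exact (Nat.pow_le_pow_left (SS_card K) 2).trans (sqrt_bd K hK)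

/-- the exceptional pairs -/
def Bad6 (w : ℤ × ℤ) : Prop :=
  ∃ z : ℤ, (M6 w.1 w.2 = z ^ 2 ∨ M6 w.1 w.2 = -z ^ 2) ∨
    (N6 w.1 w.2 = z ^ 2 ∨ N6 w.1 w.2 = -z ^ 2) ∨
    (M6 w.1 w.2 - N6 w.1 w.2 = z ^ 2 ∨ M6 w.1 w.2 - N6 w.1 w.2 = -z ^ 2)

/-- `x² y = ± z²` -/
lemma cancel {x y z : ℤ} (hx : x ≠ 0) (h : x ^ 2 * y = z ^ 2 ∨ x ^ 2 * y = -z ^ 2) :
    ∃ w : ℤ, y = w ^ 2 ∨ y = -w ^ 2 := by
  have h1 : x ^ 2 ∣ z ^ 2 := by
    rcases h with h | h
    · exact ⟨y, h.symm⟩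
    · exact ⟨-y, by linarith⟩
  obtain ⟨w, rfl⟩ := (Int.pow_dvd_pow_iff two_ne_zero).1 h1
  have hx2 : x ^ 2 ≠ 0 := pow_ne_zero 2 hx
  refine ⟨w, ?_⟩
  rcases h with h | h
  · left
    apply mul_left_cancel₀ hx2
    rw [h]
    ring
  · right
    apply mul_left_cancel₀ hx2
    rw [h]
    ring

lemma gcd_two {a b x y : ℤ} (h : IsCoprime x y) {p q r s : ℤ} (h1 : p * a + q * b = 2 * x)
    (h2 : r * a + s * b = 2 * y) : Int.gcd a b ∣ 2 := by
  obtain ⟨m, n, hmn⟩ := h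
  have h3 : (m * p + n * r) * a + (m * q + n * s) * b = 2 := by
    linear_combination m * h1 + n * h2 + 2 * hmn
  have h4 : ((Int.gcd a b : ℕ) : ℤ) ∣ 2 := by
    rw [← h3]
    exact dvd_add (Dvd.dvd.mul_left (Int.gcd_dvd_left ..) _) (Dvd.dvd.mul_left (Int.gcd_dvd_right ..) _)
  exact_mod_cast h4

lemma bad_pair {w : ℤ × ℤ} (hc : IsCoprime w.1 w.2) (hm : M6 w.1 w.2 ≠ 0) (hn : N6 w.1 w.2 ≠ 0)
    (hmn : M6 w.1 w.2 ≠ N6 w.1 w.2) (h : Bad6 w) :
    (Sq2 w.1 ∧ Sq2 (w.1 + 2 * w.2)) ∨ (Sq2 w.2 ∧ Sq2 (w.2 + 2 * w.1)) ∨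
      (Sq2 (w.1 - w.2) ∧ Sq2 (w.1 + w.2)) := by
  obtain ⟨u, v⟩ := w
  simp only at hc hm hn hmn ⊢
  obtain ⟨z, h⟩ := h
  simp only at h
  rcases h with h | h | h
  · left
    have hu : u ≠ 0 := by
      rintro rfl
      apply hm
      unfold M6
      ring
    have e : M6 u v = u ^ 2 * (u * (u + 2 * v)) := by unfold M6; ring
    rw [e] at h
    obtain ⟨w, hw⟩ := cancel hu h
    exact sq2_int hw (gcd_two (p := 2) (q := 0) (r := -1) (s := 1) hc (by ring) (by ring))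
  · right; left
    have hv : v ≠ 0 := by
      rintro rfl
      apply hn
      unfold N6
      ring
    have e : N6 u v = v ^ 2 * (v * (v + 2 * u)) := by unfold N6; ring
    rw [e] at h
    obtain ⟨w, hw⟩ := cancel hv h
    exact sq2_int hw (gcd_two (p := 2) (q := 0) (r := -1) (s := 1) hc.symm (by ring) (by ring))
  · right; right
    have e : M6 u v - N6 u v = (u + v) ^ 2 * ((u - v) * (u + v)) := by unfold M6 N6; ring
    have huv : u + v ≠ 0 := by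
      intro h0
      apply hmn
      have : M6 u v - N6 u v = 0 := by
        rw [e, h0]
        ring
      linarith
    rw [e] at h
    obtain ⟨w, hw⟩ := cancel huv h
    exact sq2_int hw (gcd_two (p := 1) (q := 1) (r := -1) (s := 1) hc (by ring) (by ring))

/-- the number of the exceptional pairs -/
theorem bad_card (A : Finset (ℤ × ℤ)) (T : ℕ) (hT : 1 ≤ T)
    (hA : ∀ w ∈ A, w.1.natAbs ≤ T ∧ w.2.natAbs ≤ T ∧ IsCoprime w.1 w.2 ∧ M6 w.1 w.2 ≠ 0 ∧
      N6 w.1 w.2 ≠ 0 ∧ M6 w.1 w.2 ≠ N6 w.1 w.2 ∧ Bad6 w) : A.card ≤ 576 * T := by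
  classical
  have hSS : ∀ x : ℤ, x.natAbs ≤ 3 * T → Sq2 x → x ∈ SS (3 * T) := by
    intro x hx h
    unfold SS
    rw [mem_filter, mem_Icc]
    exact ⟨by omega, h⟩
  have h1 : A ⊆ (A.filter (fun w => Sq2 w.1 ∧ Sq2 (w.1 + 2 * w.2))) ∪
      (A.filter (fun w => Sq2 w.2 ∧ Sq2 (w.2 + 2 * w.1))) ∪
      (A.filter (fun w => Sq2 (w.1 - w.2) ∧ Sq2 (w.1 + w.2))) := by
    intro w hw
    obtain ⟨-, -, h1, h2, h3, h4, h5⟩ := hA w hw
    rw [mem_union, mem_union, mem_filter, mem_filter, mem_filter]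
    rcases bad_pair h1 h2 h3 h4 h5 with h | h | h
    · exact Or.inl (Or.inl ⟨hw, h⟩)
    · exact Or.inl (Or.inr ⟨hw, h⟩)
    · exact Or.inr ⟨hw, h⟩
  have c1 := pairs_card (A.filter (fun w => Sq2 w.1 ∧ Sq2 (w.1 + 2 * w.2))) (3 * T) (by omega)
    (fun w => (w.1, w.1 + 2 * w.2)) (by
      rintro ⟨a, b⟩ ⟨a', b'⟩ h
      simp only [Prod.mk.injEq] at h ⊢
      omega) (by
      intro w hw
      rw [mem_filter] at hw
      obtain ⟨g1, g2, -⟩ := hA w hw.1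
      exact ⟨hSS _ (by omega) hw.2.1, hSS _ (by show (w.1 + 2 * w.2).natAbs ≤ _; omega) hw.2.2⟩)
  have c2 := pairs_card (A.filter (fun w => Sq2 w.2 ∧ Sq2 (w.2 + 2 * w.1))) (3 * T) (by omega)
    (fun w => (w.2, w.2 + 2 * w.1)) (by
      rintro ⟨a, b⟩ ⟨a', b'⟩ h
      simp only [Prod.mk.injEq] at h ⊢
      omega) (by
      intro w hw
      rw [mem_filter] at hw
      obtain ⟨g1, g2, -⟩ := hA w hw.1
      exact ⟨hSS _ (by omega) hw.2.1, hSS _ (by show (w.2 + 2 * w.1).natAbs ≤ _; omega) hw.2.2⟩)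
  have c3 := pairs_card (A.filter (fun w => Sq2 (w.1 - w.2) ∧ Sq2 (w.1 + w.2))) (3 * T) (by omega)
    (fun w => (w.1 - w.2, w.1 + w.2)) (by
      rintro ⟨a, b⟩ ⟨a', b'⟩ h
      simp only [Prod.mk.injEq] at h ⊢
      omega) (by
      intro w hw
      rw [mem_filter] at hw
      obtain ⟨g1, g2, -⟩ := hA w hw.1
      exact ⟨hSS _ (by show (w.1 - w.2).natAbs ≤ _; omega) hw.2.1,
        hSS _ (by show (w.1 + w.2).natAbs ≤ _; omega) hw.2.2⟩)
  have h2 := card_le_card h1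
  have h3 := card_union_le ((A.filter (fun w => Sq2 w.1 ∧ Sq2 (w.1 + 2 * w.2))) ∪
      (A.filter (fun w => Sq2 w.2 ∧ Sq2 (w.2 + 2 * w.1))))
      (A.filter (fun w => Sq2 (w.1 - w.2) ∧ Sq2 (w.1 + w.2)))
  have h4 := card_union_le (A.filter (fun w => Sq2 w.1 ∧ Sq2 (w.1 + 2 * w.2)))
      (A.filter (fun w => Sq2 w.2 ∧ Sq2 (w.2 + 2 * w.1)))
  omega

end Pool.Agent.Q17.TN
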