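import Mathlib
import Pool.Agent.Q17.TN.One
import Pool.Agent.Q17.TN.Sqc
import Pool.Agent.W135.RT.Par6
import Pool.Agent.W376.RTL.Low6

/-! The curves with torsion group `Z/6`. -/

set_option autoImplicit false

attribute [-instance] DivisionRing.toRatAlgebra

namespace Pool.Agent.Q17.TN

open Finset Filter WeierstrassCurve
open Pool.Agent.W307.RT (Sh HasT Cv PAR LOW M6 N6)
open Pool.Agent.TH841.SH.D (Pt act)
open Pool.Agent.Q17.IG (Lk some_congr Rd QQ)
open Pool.Agent.W135.RT (R6 FF FF_spec)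

/-- **the quotient by the middle point of order two**, `n = 2 m`, `m` odd -/
theorem mid6 {n m : ℕ} (hn : n = 2 * m) (hm : Odd m) {c c' : ℤ × ℤ} {e q : ℤ} {u : ℕ} {r : ℤ}
    (L : Lk c c' e q u r) (hr : 3 * r ^ 2 + c'.1 < 0) (h : HasT n (Sh c'.1 c'.2)) :
    CycN n c.1 c.2 ∧ One2 (Sh c.1 c.2) := by
  classical
  refine ⟨?_, one2_of L (mid_sign L hr)⟩
  have hm1 : 1 ≤ m := hm.pos
  obtain ⟨P, Q, hP, hQ, hPQ⟩ := h
  obtain ⟨i⟩ := Pool.Agent.Q8.NS.exists_bcE (Sh c'.1 c'.2)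
  obtain ⟨j, hj⟩ : ∃ j : (Sh c'.1 c'.2).toAffine.Point →+ Pt (Sh c'.1 c'.2) QQ,
    j = (io (Sh c'.1 c'.2)).comp i.symm.toAddMonoidHom := ⟨_, rfl⟩
  have hinj : Function.Injective j := by
    rw [hj]
    exact (io_inj _).comp i.symm.injective
  have hfix : ∀ (Y : (Sh c'.1 c'.2).toAffine.Point) (σ : QQ ≃ₐ[ℚ] QQ),
      act (Sh c'.1 c'.2) (σ : QQ →ₐ[ℚ] QQ) (j Y) = j Y := by
    intro Y σ
    rw [hj]
    exact io_fix _ σ _
  -- the point of order two
  have hT2 : ∀ T : Pt (Sh c'.1 c'.2) QQ, (∃ h, T = (Affine.Point.some ((r : ℤ) : QQ) 0 h :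
      ((Sh c'.1 c'.2).baseChange QQ).toAffine.Point)) → addOrderOf T = 2 := by
    rintro T ⟨hns, hT⟩
    apply addOrderOf_eq_prime
    · rw [two_nsmul, hT]
      apply Affine.Point.add_self_of_Y_eq
      have b1 : ((Sh c'.1 c'.2).baseChange QQ).toAffine.a₁ = 0 := map_zero _
      have b3 : ((Sh c'.1 c'.2).baseChange QQ).toAffine.a₃ = 0 := map_zero _
      rw [Affine.negY, b1, b3]
      ring
    · rw [hT]
      exact Affine.Point.some_ne_zero _
  -- in a cyclic group of order `n` there is one element of order two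
  have hcyc : ∀ (X T : Pt (Sh c'.1 c'.2) QQ), addOrderOf X = n → addOrderOf T = 2 →
      T ∈ AddSubgroup.zmultiples X → T = m • X := by
    intro X T hX hT hmem
    obtain ⟨k, hk⟩ := AddSubgroup.mem_zmultiples_iff.1 hmem
    have h1 : (2 * k) • X = 0 := by
      rw [two_mul, add_zsmul, hk, ← two_nsmul, ← hT]
      exact addOrderOf_nsmul_eq_zero T
    have h2 := addOrderOf_dvd_iff_zsmul_eq_zero.2 h1
    rw [hX, hn] at h2
    obtain ⟨l, hl⟩ := h2
    have h3 : k = m * l := by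
      push_cast at hl
      linarith
    have h4 : (m : ℤ) • X + (m : ℤ) • X = 0 := by
      rw [← add_zsmul, ← two_mul]
      have : (2 * (m : ℤ)) • X = (n : ℕ) • X := by
        rw [hn, ← natCast_zsmul]
        push_cast
        rfl
      rw [this, ← hX]
      exact addOrderOf_nsmul_eq_zero X
    rcases Int.even_or_odd' l with ⟨l', hl' | hl'⟩
    · exfalso
      have : T = 0 := by
        rw [← hk, h3, hl', show (m : ℤ) * (2 * l') = l' * (m + m) by ring, mul_zsmul, add_zsmul, h4,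
          smul_zero]
      rw [this, addOrderOf_zero] at hT
      omega
    · rw [← hk, h3, hl', show (m : ℤ) * (2 * l' + 1) = l' * (m + m) + m by ring, add_zsmul, mul_zsmul,
        add_zsmul, h4, smul_zero, zero_add, natCast_zsmul]
  by_cases hc : ∃ h, m • j P = (Affine.Point.some ((r : ℤ) : QQ) 0 h :
      ((Sh c'.1 c'.2).baseChange QQ).toAffine.Point)
  · -- replace `P` by `P + Q`
    have hPQn : addOrderOf (P + Q) = n := by
      have h2P : addOrderOf (2 • P) = m := by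
        rw [addOrderOf_nsmul_of_dvd (by norm_num) (by rw [hP, hn]; exact dvd_mul_right 2 m), hP, hn]
        simp
      have e2 : 2 • (P + Q) = 2 • P := by
        have : (2 : ℕ) • Q = 0 := by
          rw [← hQ]
          exact addOrderOf_nsmul_eq_zero Q
        rw [nsmul_add, this, add_zero]
      have hne : m • (P + Q) ≠ 0 := by
        intro h0
        apply hPQ
        have h2Q : (2 : ℕ) • Q = 0 := by
          rw [← hQ]
          exact addOrderOf_nsmul_eq_zero Q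
        obtain ⟨l, hl⟩ := hm
        have hmQ : m • Q = Q := by
          rw [hl, add_nsmul, mul_comm, mul_nsmul', h2Q, nsmul_zero, zero_add, one_nsmul]
        rw [nsmul_add, hmQ] at h0
        refine AddSubgroup.mem_zmultiples_iff.2 ⟨-(m : ℤ), ?_⟩
        rw [neg_zsmul, natCast_zsmul]
        exact (eq_neg_of_add_eq_zero_right h0).symm
      have d1 : m ∣ addOrderOf (P + Q) := by
        rw [← h2P, ← e2]
        exact addOrderOf_dvd_of_mem_zmultiples (AddSubgroup.mem_zmultiples_iff.2 ⟨2, by norm_cast⟩)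
      have hnP : n • P = 0 := by
        rw [← hP]
        exact addOrderOf_nsmul_eq_zero P
      have d2 : addOrderOf (P + Q) ∣ 2 * m := by
        rw [addOrderOf_dvd_iff_nsmul_eq_zero, mul_nsmul, e2, ← mul_nsmul, ← hn, hnP]
      obtain ⟨l, hl⟩ := d1
      have h5 : l ∣ 2 := by
        rw [hl, mul_comm 2 m] at d2
        exact Nat.dvd_of_mul_dvd_mul_left hm1 d2
      rcases (Nat.dvd_prime Nat.prime_two).1 h5 with h6 | h6
      · exfalso
        apply hne
        have h7 : addOrderOf (P + Q) = m := by rw [hl, h6, mul_one]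
        rw [← h7]
        exact addOrderOf_nsmul_eq_zero _
      · rw [hl, h6, hn, mul_comm]
    refine core hn hm1 L (X := j (P + Q)) ?_ (fun σ => hfix _ σ) ?_
    · rw [addOrderOf_injective j hinj, hPQn]
    · intro T hT hmem
      have h1 := hcyc _ T (by rw [addOrderOf_injective j hinj, hPQn]) (hT2 T hT) hmem
      have h2 : T = m • j P := by
        obtain ⟨hns, hT⟩ := hT
        obtain ⟨hns', hc⟩ := hc
        rw [hT, hc]
      have h2Q : (2 : ℕ) • Q = 0 := by
        rw [← hQ]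
        exact addOrderOf_nsmul_eq_zero Q
      have hmQ : m • Q = Q := by
        obtain ⟨l, hl⟩ := hm
        rw [hl, add_nsmul, mul_comm, mul_nsmul', h2Q, nsmul_zero, zero_add, one_nsmul]
      have h3 : j Q = 0 := by
        have h5 : m • j (P + Q) = m • j P + j Q := by
          rw [map_add, nsmul_add, ← map_nsmul j m Q, hmQ]
        have h4 : m • j P + j Q = m • j P := (h5.symm.trans h1.symm).trans h2
        exact left_eq_add.1 h4.symm
      have h4 : Q = 0 := hinj (by rw [h3, map_zero])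
      rw [h4, addOrderOf_zero] at hQ
      omega
  · refine core hn hm1 L (X := j P) ?_ (fun σ => hfix _ σ) ?_
    · rw [addOrderOf_injective j hinj, hP]
    · intro T hT hmem
      have h1 := hcyc _ T (by rw [addOrderOf_injective j hinj, hP]) (hT2 T hT) hmem
      apply hc
      rw [← h1]
      exact hT

/-- a rational point of order four gives a square -/
theorem four_sq {c c' : ℤ × ℤ} {e q : ℤ} {u : ℕ} {r : ℤ} (L : Lk c c' e q u r)
    (h : 9 * e ^ 2 < 4 * q ^ 2) {P : (Sh c.1 c.2).toAffine.Point} (hP : addOrderOf P = 4) :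
    IsSquare (3 * e + 2 * q) ∨ IsSquare (3 * e - 2 * q) := by
  have hroot : ∀ x : ℚ, x ^ 3 + (c.1 : ℚ) * x + (c.2 : ℚ) = 0 → x = e := by
    intro x hx
    rw [L.hc1, L.hc2] at hx
    push_cast at hx
    have h1 : (x - e) * (x ^ 2 + e * x + (q ^ 2 - 2 * e ^ 2)) = 0 := by linear_combination hx
    rcases mul_eq_zero.1 h1 with h2 | h2
    · exact sub_eq_zero.1 h2
    · exfalso
      have h3 : (9 * (e : ℚ) ^ 2) < 4 * (q : ℚ) ^ 2 := by exact_mod_cast h
      nlinarith [sq_nonneg (2 * x + e)]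
  have h4 : (4 : ℕ) • P = 0 := by
    rw [← hP]
    exact addOrderOf_nsmul_eq_zero P
  have h40 : (P + P) + (P + P) = 0 := by
    rw [← two_nsmul, ← two_nsmul, ← mul_nsmul]
    exact h4
  have h20 : P + P ≠ 0 := by
    intro h0
    have : addOrderOf P ∣ 2 := by
      rw [addOrderOf_dvd_iff_nsmul_eq_zero, two_nsmul]
      exact h0
    rw [hP] at this
    omega
  rcases P with _ | ⟨x, y, hxy⟩
  · exact absurd (add_zero _) h20
  obtain ⟨e', h', -, he2, he3⟩ := four_pt (W := (Sh c.1 c.2).toAffine) rfl rfl rfl hxy h20 h40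
  have b4 : (Sh c.1 c.2).toAffine.a₄ = (c.1 : ℚ) := rfl
  have b6 : (Sh c.1 c.2).toAffine.a₆ = (c.2 : ℚ) := rfl
  rw [b4, b6] at he2
  rw [b4] at he3
  have hee := hroot e' he2
  rw [hee, L.hc1] at he3
  push_cast at he3
  have heq : y ^ 2 = x ^ 3 + (c.1 : ℚ) * x + (c.2 : ℚ) := by
    have := (Affine.equation_iff ..).1 hxy.1
    have h3 : y ^ 2 + 0 * x * y + 0 * y = x ^ 3 + 0 * x ^ 2 + c.1 * x + c.2 := this
    linarith
  rw [L.hc1, L.hc2] at heq
  push_cast at heq
  have hq : (q : ℚ) ≠ 0 := by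
    intro h0
    have : q = 0 := by exact_mod_cast h0
    rw [this] at h
    nlinarith [sq_nonneg e]
  have h5 : (x - e - q) * (x - e + q) = 0 := by linear_combination he3
  rcases mul_eq_zero.1 h5 with h6 | h6
  · left
    have hx : x = e + q := by linear_combination h6
    rw [hx] at heq
    rw [← Rat.isSquare_intCast_iff]
    refine ⟨y / q, ?_⟩
    push_cast
    field_simp
    linear_combination -heq
  · right
    have hx : x = e - q := by linear_combination h6
    rw [hx] at heq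
    rw [← Rat.isSquare_intCast_iff]
    refine ⟨y / q, ?_⟩
    push_cast
    field_simp
    linear_combination -heq

/-- the differences of the roots, for a curve with parameters `(v, w)` -/
lemma diff6 {A B v w : ℤ} {s : ℚ} (hR : R6 A B v w s) {x x' : ℚ} (hx : x ^ 3 + A * x + B = 0)
    (hx' : x' ^ 3 + A * x' + B = 0) (hne : x' ≠ x) :
    (x' - x = s ^ 2 * (M6 v w : ℚ) ∨ x' - x = -(s ^ 2 * (M6 v w : ℚ))) ∨
    (x' - x = s ^ 2 * (N6 v w : ℚ) ∨ x' - x = -(s ^ 2 * (N6 v w : ℚ))) ∨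
    (x' - x = s ^ 2 * ((M6 v w : ℚ) - N6 v w) ∨ x' - x = -(s ^ 2 * ((M6 v w : ℚ) - N6 v w))) := by
  obtain ⟨M, hM⟩ : ∃ M : ℚ, M = (M6 v w : ℚ) := ⟨_, rfl⟩
  obtain ⟨N, hN⟩ : ∃ N : ℚ, N = (N6 v w : ℚ) := ⟨_, rfl⟩
  have ea := hR.ea
  have eb := hR.eb
  rw [← hM, ← hN] at ea eb ⊢
  have key : ∀ z : ℚ, z ^ 3 + A * z + B = (z - s ^ 2 * (M + N) / 3) *
      (z - (s ^ 2 * (M + N) / 3 - s ^ 2 * M)) * (z - (s ^ 2 * (M + N) / 3 - s ^ 2 * N)) := by
    intro z
    linear_combination (z / 3) * ea + (1 / 27) * eb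
  rw [key] at hx hx'
  rcases mul_eq_zero.1 hx with h | h
  · rcases mul_eq_zero.1 h with h | h
    · rcases mul_eq_zero.1 hx' with h' | h'
      · rcases mul_eq_zero.1 h' with h' | h'
        · exact absurd (by linarith) hne
        · exact Or.inl (Or.inr (by linarith))
      · exact Or.inr (Or.inl (Or.inr (by linarith)))
    · rcases mul_eq_zero.1 hx' with h' | h'
      · rcases mul_eq_zero.1 h' with h' | h'
        · exact Or.inl (Or.inl (by linarith))
        · exact absurd (by linarith) hne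
      · exact Or.inr (Or.inr (Or.inl (by linarith)))
  · rcases mul_eq_zero.1 hx' with h' | h'
    · rcases mul_eq_zero.1 h' with h' | h'
      · exact Or.inr (Or.inl (Or.inl (by linarith)))
      · exact Or.inr (Or.inr (Or.inr (by linarith)))
    · exact absurd (by linarith) hne

lemma sq_of {s : ℚ} (hs : s ≠ 0) {u : ℕ} (hu : 0 < u) {D K : ℤ} (hD : IsSquare D)
    (h : (D : ℚ) = (u : ℚ) ^ 2 * (s ^ 2 * (K : ℚ)) ∨ (D : ℚ) = (u : ℚ) ^ 2 * (-(s ^ 2 * (K : ℚ)))) :
    ∃ z : ℤ, K = z ^ 2 ∨ K = -z ^ 2 := by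
  have hu0 : (u : ℚ) ≠ 0 := by exact_mod_cast hu.ne'
  obtain ⟨d, hd⟩ := hD
  rcases h with h | h
  · have h1 : IsSquare ((K : ℤ) : ℚ) := by
      refine ⟨d / (u * s), ?_⟩
      rw [hd] at h
      push_cast at h
      field_simp
      linear_combination -h
    rw [Rat.isSquare_intCast_iff] at h1
    obtain ⟨z, hz⟩ := h1
    exact ⟨z, Or.inl (by rw [hz]; ring)⟩
  · have h1 : IsSquare ((-K : ℤ) : ℚ) := by
      refine ⟨d / (u * s), ?_⟩
      rw [hd] at h
      push_cast at h ⊢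
      field_simp
      linear_combination -h
    rw [Rat.isSquare_intCast_iff] at h1
    obtain ⟨z, hz⟩ := h1
    exact ⟨z, Or.inr (by linear_combination -hz)⟩

lemma roots_L {c c' : ℤ × ℤ} {e q : ℤ} {u : ℕ} {r : ℤ} (L : Lk c c' e q u r) (D : ℤ)
    (hD : D = 3 * e + 2 * q ∨ D = 3 * e - 2 * q) :
    ((r : ℚ)) ^ 3 + (c'.1 : ℚ) * r + c'.2 = 0 ∧
    ((D : ℚ) / (u : ℚ) ^ 2 + r) ^ 3 + (c'.1 : ℚ) * ((D : ℚ) / (u : ℚ) ^ 2 + r) + c'.2 = 0 := by
  have hu0 : (u : ℚ) ≠ 0 := by exact_mod_cast L.hu.ne'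
  have h1 : (u : ℚ) ^ 4 * c'.1 = -(3 * (e : ℚ) ^ 2 + 4 * (q : ℚ) ^ 2) := by exact_mod_cast L.h1
  have h2 : (u : ℚ) ^ 6 * c'.2 = 2 * (e : ℚ) ^ 3 - 8 * (q : ℚ) ^ 2 * e := by exact_mod_cast L.h2
  have h3 : (u : ℚ) ^ 2 * r = -2 * (e : ℚ) := by exact_mod_cast L.hr
  have hr : (r : ℚ) = -2 * (e : ℚ) / (u : ℚ) ^ 2 := by
    field_simp
    linear_combination h3
  have hA : (c'.1 : ℚ) = -(3 * (e : ℚ) ^ 2 + 4 * (q : ℚ) ^ 2) / (u : ℚ) ^ 4 := by
    field_simp
    linear_combination h1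
  have hB : (c'.2 : ℚ) = (2 * (e : ℚ) ^ 3 - 8 * (q : ℚ) ^ 2 * e) / (u : ℚ) ^ 6 := by
    field_simp
    linear_combination h2
  rw [hr, hA, hB]
  constructor
  · field_simp
    ring
  · rcases hD with rfl | rfl
    · push_cast
      field_simp
      ring
    · push_cast
      field_simp
      ring

/-- **if the quotient has a rational point of order four, the parameters are exceptional** -/
theorem bad_of {c c' : ℤ × ℤ} {e q : ℤ} {u : ℕ} {r : ℤ} (L : Lk c c' e q u r)
    (h : 9 * e ^ 2 < 4 * q ^ 2) {P : (Sh c.1 c.2).toAffine.Point} (hP : addOrderOf P = 4)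
    {v w : ℤ} {s : ℚ} (hR : R6 c'.1 c'.2 v w s) : Bad6 (v, w) := by
  have hu0 : (u : ℚ) ≠ 0 := by exact_mod_cast L.hu.ne'
  have key : ∀ D : ℤ, (D = 3 * e + 2 * q ∨ D = 3 * e - 2 * q) → D ≠ 0 → IsSquare D →
      Bad6 (v, w) := by
    intro D hD hD0 hsq
    obtain ⟨g1, g2⟩ := roots_L L D hD
    have hne : (D : ℚ) / (u : ℚ) ^ 2 + r ≠ r := by
      intro h0
      have h1 : (D : ℚ) / (u : ℚ) ^ 2 = 0 := by linarith
      rcases div_eq_zero_iff.1 h1 with h2 | h2
      · exact hD0 (by exact_mod_cast h2)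
      · exact absurd h2 (pow_ne_zero 2 hu0)
    have hdd : (D : ℚ) / (u : ℚ) ^ 2 + r - r = (D : ℚ) / (u : ℚ) ^ 2 := by ring
    have h3 := diff6 hR g1 g2 hne
    rw [hdd] at h3
    have hmul : ∀ x : ℚ, (D : ℚ) / (u : ℚ) ^ 2 = x → (D : ℚ) = (u : ℚ) ^ 2 * x := by
      intro x hx
      rw [← hx]
      field_simp
    rcases h3 with h3 | h3 | h3
    · obtain ⟨z, hz⟩ := sq_of hR.s0 L.hu hsq (K := M6 v w) (h3.imp (hmul _) (hmul _))
      exact ⟨z, Or.inl hz⟩
    · obtain ⟨z, hz⟩ := sq_of hR.s0 L.hu hsq (K := N6 v w) (h3.imp (hmul _) (hmul _))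
      exact ⟨z, Or.inr (Or.inl hz)⟩
    · obtain ⟨z, hz⟩ := sq_of hR.s0 L.hu hsq (K := M6 v w - N6 v w) (by
        push_cast
        exact h3.imp (hmul _) (hmul _))
      exact ⟨z, Or.inr (Or.inr hz)⟩
  obtain ⟨-, n1, n2⟩ := ne_of L
  rcases four_sq L h hP with h1 | h1
  · exact key _ (Or.inl rfl) n1 h1
  · exact key _ (Or.inr rfl) n2 h1

end Pool.Agent.Q17.TN
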