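import Mathlib
import Pool.Agent.Q17.TN.Six

/-! There are many curves with torsion group `Z/6`. -/

set_option autoImplicit false

namespace Pool.Agent.Q17.TN

open Finset Filter WeierstrassCurve
open Pool.Agent.W307.RT (Sh HasT Cv PAR LOW M6 N6)
open Pool.Agent.Q17.IG (Lk Rd)
open Pool.Agent.W135.RT (R6 FF FF_spec)
open Pool.Agent.Y679.Cr (Ok isMin_of full_of)

/-- the quotients by the middle points of order two -/
lemma down3 {n m : ℕ} (hn : n = 2 * m) (hm : 1 ≤ m)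
    (hmid : ∀ (c c' : ℤ × ℤ) (e q : ℤ) (u : ℕ) (r : ℤ), Lk c c' e q u r → 3 * r ^ 2 + c'.1 < 0 →
      HasT n (Sh c'.1 c'.2) → CycN n c.1 c.2 ∧ One2 (Sh c.1 c.2)) {H : ℕ} {c' : ℤ × ℤ}
    (hc : c' ∈ Cv n H) :
    ∃ (c : ℤ × ℤ) (e q : ℤ) (u : ℕ) (r : ℤ), Lk c c' e q u r ∧ c ∈ FN n (4096 * H) ∧
      One2 (Sh c.1 c.2) ∧ 3 * r ^ 2 + c'.1 < 0 := by
  obtain ⟨h1, h2, h3, h4, h5⟩ := mem_Cv.1 hc
  obtain ⟨e1, e2, e3, he⟩ := Pool.Agent.Q17.IG.roots_Ok c' ⟨isMin_of h1 h4, full_of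
    (HasT.two (m := m) hn hm h5)⟩
  obtain ⟨r, k, k1, k2, k3⟩ := exists_mid h1 he
  obtain ⟨c, e, q, u, L, b1, b2⟩ := quot' h1 h4 k1 k2
  obtain ⟨m1, m2⟩ := quot_height h2 k1 b1 b2
  obtain ⟨g1, g2⟩ := hmid c c' e q u r L k3 h5
  exact ⟨c, e, q, u, r, L, mem_FN.2 ⟨L.hD, m1, m2, L.hR, g1⟩, g2, k3⟩

/-- the injection of a set of curves: at most three curves have the same quotient -/
lemma card_down3 {n m : ℕ} (hn : n = 2 * m) (hm : 1 ≤ m)
    (hmid : ∀ (c c' : ℤ × ℤ) (e q : ℤ) (u : ℕ) (r : ℤ), Lk c c' e q u r → 3 * r ^ 2 + c'.1 < 0 →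
      HasT n (Sh c'.1 c'.2) → CycN n c.1 c.2 ∧ One2 (Sh c.1 c.2)) (H : ℕ) (S G : Finset (ℤ × ℤ))
    (hS : S ⊆ Cv n H)
    (hG : ∀ (c c' : ℤ × ℤ) (e q : ℤ) (u : ℕ) (r : ℤ), Lk c c' e q u r → c' ∈ S →
      c ∈ FN n (4096 * H) → One2 (Sh c.1 c.2) → 3 * r ^ 2 + c'.1 < 0 → c ∈ G) :
    S.card ≤ 3 * G.card := by
  classical
  have key : ∀ c' : ℤ × ℤ, ∃ x : (ℤ × ℤ) × ℤ, c' ∈ S →
      (∃ (q : ℤ) (u : ℕ) (r : ℤ), Lk x.1 c' x.2 q u r) ∧ x.1 ∈ G := by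
    intro c'
    by_cases hc : c' ∈ S
    · obtain ⟨c, e, q, u, r, L, g1, g2, g3⟩ := down3 hn hm hmid (hS hc)
      exact ⟨(c, e), fun _ => ⟨⟨q, u, r, L⟩, hG c c' e q u r L hc g1 g2 g3⟩⟩
    · exact ⟨0, fun h => absurd h hc⟩
  choose x hx using key
  have h0 : (S.image (fun c' => (x c').1)).card ≤ G.card := by
    apply card_le_card
    intro c hc
    obtain ⟨c', hc', rfl⟩ := mem_image.1 hc
    exact (hx c' hc').2
  refine le_trans (card_le_mul_card_image S 3 fun c hc => ?_) (Nat.mul_le_mul_left 3 h0)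
  obtain ⟨b, hb, rfl⟩ := mem_image.1 hc
  have h1 : (S.filter (fun c' => (x c').1 = (x b).1)).card ≤
      ((S.filter (fun c' => (x c').1 = (x b).1)).image (fun c' => (x c').2)).card := by
    rw [card_image_of_injOn]
    intro c1 h1 c2 h2 h12
    rw [mem_coe, mem_filter] at h1 h2
    obtain ⟨⟨q, u, r, L⟩, -⟩ := hx c1 h1.1
    obtain ⟨⟨q', u', r', L'⟩, -⟩ := hx c2 h2.1
    have h12' : (x c1).2 = (x c2).2 := h12
    rw [h1.2, h12'] at L
    rw [h2.2] at L'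
    exact L.unique' L'
  refine h1.trans (Pool.Agent.Q17.IG.root3 (x b).1.1 (x b).1.2 _ fun e he => ?_)
  obtain ⟨c1, hc1, rfl⟩ := mem_image.1 he
  rw [mem_filter] at hc1
  obtain ⟨⟨q, u, r, L⟩, -⟩ := hx c1 hc1.1
  rw [← hc1.2, L.hc1, L.hc2]
  ring

/-- there is no rational point of order four -/
def No4 (W : WeierstrassCurve ℚ) : Prop := ∀ P : W.toAffine.Point, addOrderOf P ≠ 4

open Classical in
/-- the family -/
noncomputable def G6 (H : ℕ) : Finset (ℤ × ℤ) :=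
  (FN 6 H).filter (fun c => One2 (Sh c.1 c.2) ∧ No4 (Sh c.1 c.2))

lemma G6_mono : Monotone G6 := by
  classical
  intro H H' h
  exact filter_subset_filter _ (FN_mono 6 h)

/-- the curves with exceptional parameters are rare -/
lemma bad_cv (H T : ℕ) (hT : 1 ≤ T) (hH : 147456 ^ 3 * H ≤ T ^ 24) (B : Finset (ℤ × ℤ))
    (hB : ∀ c ∈ B, c ∈ Cv 6 H ∧ Bad6 (FF c)) : B.card ≤ 576 * T := by
  classical
  have hinj : Set.InjOn FF (B : Set (ℤ × ℤ)) := by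
    intro c hc c' hc' hcc
    obtain ⟨s, hR⟩ := FF_spec (hB c hc).1
    obtain ⟨s', hR'⟩ := FF_spec (hB c' hc').1
    rw [← hcc] at hR'
    have hc1 := mem_Cv.1 (hB c hc).1
    have hc1' := mem_Cv.1 (hB c' hc').1
    obtain ⟨h1, h2⟩ := Pool.Agent.W135.RT.inj hR hR' hc1.2.2.2.1 hc1'.2.2.2.1
    exact Prod.ext h1 h2
  rw [← card_image_of_injOn hinj]
  apply bad_card _ T hT
  intro w hw
  obtain ⟨c, hc, rfl⟩ := mem_image.1 hw
  obtain ⟨hcv, hbad⟩ := hB c hc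
  obtain ⟨s, hR⟩ := FF_spec hcv
  have hh := (mem_Cv.1 hcv).2.1
  have b1 := Pool.Agent.W135.RT.bound2 hR H hh _ (Or.inl rfl)
  have b2 := Pool.Agent.W135.RT.bound2 hR H hh _ (Or.inr rfl)
  refine ⟨?_, ?_, hR.cop, hR.m0, hR.n0, hR.mn, hbad⟩
  · exact (Nat.pow_le_pow_iff_left (by norm_num)).1 (b1.trans hH)
  · exact (Nat.pow_le_pow_iff_left (by norm_num)).1 (b2.trans hH)

theorem many6 : Many 24 G6 := by
  classical
  obtain ⟨c, C, T0, hc, hlow⟩ := Pool.Agent.W376.RTL.low6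
  obtain ⟨K, hK⟩ : ∃ K : ℕ, K = 147456 ^ 3 * C + 1 := ⟨_, rfl⟩
  obtain ⟨T1, hT1⟩ := exists_nat_gt (1152 * (K : ℝ) / c)
  refine ⟨c / 6, 4096 * C, max T0 (T1 + 1), by positivity, fun T H hT hH => ?_⟩
  have hT0 : T0 ≤ T := (le_max_left _ _).trans hT
  have hT1' : T1 + 1 ≤ T := (le_max_right _ _).trans hT
  obtain ⟨H0, hH0⟩ : ∃ H0 : ℕ, H0 = C * T ^ 24 := ⟨_, rfl⟩
  have h1 := hlow T H0 hT0 hH0.ge
  obtain ⟨S, hS⟩ : ∃ S, S = (Cv 6 H0).filter (fun c => ¬ Bad6 (FF c)) := ⟨_, rfl⟩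
  obtain ⟨B, hB⟩ : ∃ B, B = (Cv 6 H0).filter (fun c => Bad6 (FF c)) := ⟨_, rfl⟩
  have hsum : B.card + S.card = (Cv 6 H0).card := by
    rw [hB, hS]
    exact card_filter_add_card_filter_not _
  have hBc : B.card ≤ 576 * (K * T) := by
    refine bad_cv H0 (K * T) ?_ ?_ B (fun c hc => ?_)
    · have : 1 ≤ K := by omega
      have : 1 ≤ T := by omega
      exact Nat.mul_pos (by omega) (by omega)
    · rw [hH0, mul_pow, ← mul_assoc]
      apply Nat.mul_le_mul_right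
      calc 147456 ^ 3 * C ≤ K := by omega
        _ = K ^ 1 := (pow_one K).symm
        _ ≤ K ^ 24 := Nat.pow_le_pow_right (by omega) (by norm_num)
    · rw [hB, mem_filter] at hc
      exact hc
  have hSc : S.card ≤ 3 * (G6 H).card := by
    refine card_down3 (n := 6) (m := 3) (by norm_num) (by norm_num)
      (fun c c' e q u r L hr h => mid6 (m := 3) (by norm_num) (by decide) L hr h) H0 S (G6 H)
      (by rw [hS]; exact filter_subset _ _) (fun c c' e q u r L hc' hc h2 hr => ?_)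
    rw [hS, mem_filter] at hc'
    unfold G6
    rw [mem_filter]
    refine ⟨FN_mono 6 ?_ hc, h2, fun P hP => ?_⟩
    · rw [hH0]
      exact le_trans (le_of_eq (by ring)) hH
    · obtain ⟨s, hR⟩ := FF_spec hc'.1
      exact hc'.2 (bad_of L (mid_sign L hr) hP hR)
  have h2 : ((B.card : ℕ) : ℝ) + (S.card : ℝ) = ((Cv 6 H0).card : ℝ) := by exact_mod_cast hsum
  have h3 : ((B.card : ℕ) : ℝ) ≤ 576 * ((K : ℝ) * T) := by exact_mod_cast hBc
  have h4 : ((S.card : ℕ) : ℝ) ≤ 3 * ((G6 H).card : ℝ) := by exact_mod_cast hSc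
  have h5 : (T1 : ℝ) + 1 ≤ T := by exact_mod_cast hT1'
  have h6 : 1152 * (K : ℝ) ≤ c * T := by
    have : 1152 * (K : ℝ) < c * T1 := by
      rw [div_lt_iff₀ hc] at hT1
      linarith
    nlinarith
  have h7 : 1152 * (K : ℝ) * T ≤ c * T * T := by
    apply mul_le_mul_of_nonneg_right h6 (Nat.cast_nonneg _)
  nlinarith

end Pool.Agent.Q17.TN
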