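import Mathlib
import Pool.Agent.Q17.TN.SixB
import Pool.Agent.Q17.TN.Hsq
import Pool.Agent.W605.RT.PAR4
import Pool.Agent.W29.RT.LOW4

/-! The curves with torsion group `Z/4`. -/

set_option autoImplicit false

attribute [-instance] DivisionRing.toRatAlgebra

namespace Pool.Agent.Q17.TN

open Finset Filter WeierstrassCurve
open Pool.Agent.W307.RT (Sh HasT Cv PAR LOW)
open Pool.Agent.TH841.SH.D (Pt act)
open Pool.Agent.Q17.IG (Lk some_congr Rd)
open Pool.Agent.W605.RT (Rel FF FF_rel rel_unique rel_bound)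

/-- a point of order four above the lowest root is impossible -/
lemma low_false {g a b x y e0 : ℚ} (hg : g ≠ 0) (ha : a ≠ 0) (hb : b ≠ 0) (hne : a ^ 2 ≠ b ^ 2)
    (hy : y ^ 2 = (x - e0) * (x - (e0 - g ^ 2 * a ^ 2)) * (x - (e0 - g ^ 2 * b ^ 2)))
    (hx : (x - (e0 - g ^ 2 * a ^ 2)) ^ 2 = g ^ 4 * a ^ 2 * (a ^ 2 - b ^ 2)) : False := by
  obtain ⟨w, hw⟩ : ∃ w, w = x - (e0 - g ^ 2 * a ^ 2) := ⟨_, rfl⟩
  rw [← hw] at hx
  have hxw : x = w + e0 - g ^ 2 * a ^ 2 := by rw [hw]; ring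
  have hg2 : 0 < g ^ 2 := by positivity
  have hg4 : 0 < g ^ 4 := by positivity
  have ha2 : 0 < a ^ 2 := by positivity
  have hb2 : 0 < b ^ 2 := by positivity
  have hw0 : w ≠ 0 := by
    rintro rfl
    have h1 : g ^ 4 * a ^ 2 * (a ^ 2 - b ^ 2) = 0 := by rw [← hx]; ring
    rcases mul_eq_zero.1 h1 with h2 | h2
    · exact absurd h2 (by positivity)
    · exact hne (by linarith)
  have hw2 : 0 < w ^ 2 := by positivity
  have hab : 0 < a ^ 2 - b ^ 2 := by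
    rw [hx] at hw2
    exact (mul_pos_iff_of_pos_left (by positivity)).1 hw2
  have h1 : y ^ 2 = w ^ 2 * (2 * w - g ^ 2 * (2 * a ^ 2 - b ^ 2)) := by
    rw [hy, hxw]
    linear_combination (-w) * hx
  have h2 : 0 ≤ 2 * w - g ^ 2 * (2 * a ^ 2 - b ^ 2) := by
    by_contra h
    push Not at h
    have : w ^ 2 * (2 * w - g ^ 2 * (2 * a ^ 2 - b ^ 2)) < 0 := mul_neg_of_pos_of_neg hw2 h
    have h3 := sq_nonneg y
    linarith
  have h3 : 0 < g ^ 2 * (2 * a ^ 2 - b ^ 2) := mul_pos hg2 (by linarith)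
  have h4 : (g ^ 2 * (2 * a ^ 2 - b ^ 2)) ^ 2 ≤ (2 * w) ^ 2 :=
    pow_le_pow_left₀ h3.le (by linarith) 2
  have h5 : (2 * w) ^ 2 = (g ^ 2 * (2 * a ^ 2 - b ^ 2)) ^ 2 - g ^ 4 * b ^ 4 := by
    linear_combination 4 * hx
  have h6 : 0 < g ^ 4 * b ^ 4 := by positivity
  linarith

/-- the exceptional pairs -/
def Bad4 (w : ℤ × ℤ) : Prop :=
  ∃ z : ℤ, w.1 * (w.1 + w.2) = z ^ 2 ∨ w.1 * (w.1 - w.2) = z ^ 2 ∨ w.2 * (w.2 + w.1) = z ^ 2 ∨
    w.2 * (w.2 - w.1) = z ^ 2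

lemma isSq_of {g K : ℤ} (hg : g ≠ 0) (h : IsSquare ((g : ℚ) ^ 2 * (K : ℚ))) : ∃ z : ℤ, K = z ^ 2 := by
  have hg0 : (g : ℚ) ≠ 0 := by exact_mod_cast hg
  obtain ⟨d, hd⟩ := h
  have h1 : IsSquare ((K : ℤ) : ℚ) := by
    refine ⟨d / g, ?_⟩
    field_simp
    linear_combination hd
  rw [Rat.isSquare_intCast_iff] at h1
  obtain ⟨z, hz⟩ := h1
  exact ⟨z, by rw [hz]; ring⟩

/-- the algebra -/
lemma bad4_alg {c' : ℤ × ℤ} {a b : ℤ} (hR : Rel c' (a, b)) {r : ℤ} (hr : 3 * r ^ 2 + c'.1 < 0)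
    (hr0 : r ^ 3 + c'.1 * r + c'.2 = 0) {x y e : ℚ} (hxy : y ^ 2 = x ^ 3 + c'.1 * x + c'.2)
    (he : e ^ 3 + c'.1 * e + c'.2 = 0) (hx : (x - e) ^ 2 = 3 * e ^ 2 + c'.1)
    (hs : IsSquare (x - (r : ℚ))) : Bad4 (a, b) := by
  obtain ⟨g, e0, hg, -, ha, hb, hab, h1, h2, h3⟩ := hR
  simp only at ha hb hab h1 h2 h3
  have hg0 : (g : ℚ) ≠ 0 := by exact_mod_cast hg.ne'
  have ha0 : (a : ℚ) ≠ 0 := by exact_mod_cast ha
  have hb0 : (b : ℚ) ≠ 0 := by exact_mod_cast hb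
  have hab0 : (a : ℚ) ^ 2 ≠ (b : ℚ) ^ 2 := by exact_mod_cast hab
  have k1 : 3 * (e0 : ℚ) = (g : ℚ) ^ 2 * ((a : ℚ) ^ 2 + (b : ℚ) ^ 2) := by exact_mod_cast h1
  have k2 : 3 * (c'.1 : ℚ) = -((g : ℚ) ^ 4 * ((a : ℚ) ^ 4 - (a : ℚ) ^ 2 * (b : ℚ) ^ 2 + (b : ℚ) ^ 4)) := by
    exact_mod_cast h2
  have k3 : 27 * (c'.2 : ℚ) = (g : ℚ) ^ 6 * (((a : ℚ) ^ 2 + (b : ℚ) ^ 2) * (2 * (a : ℚ) ^ 2 - (b : ℚ) ^ 2) *
      ((a : ℚ) ^ 2 - 2 * (b : ℚ) ^ 2)) := by exact_mod_cast h3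
  have hA : (c'.1 : ℚ) = -((g : ℚ) ^ 4 * ((a : ℚ) ^ 4 - (a : ℚ) ^ 2 * (b : ℚ) ^ 2 + (b : ℚ) ^ 4)) / 3 := by
    linarith
  have hB : (c'.2 : ℚ) = (g : ℚ) ^ 6 * (((a : ℚ) ^ 2 + (b : ℚ) ^ 2) * (2 * (a : ℚ) ^ 2 - (b : ℚ) ^ 2) *
      ((a : ℚ) ^ 2 - 2 * (b : ℚ) ^ 2)) / 27 := by linarith
  have hE : (e0 : ℚ) = (g : ℚ) ^ 2 * ((a : ℚ) ^ 2 + (b : ℚ) ^ 2) / 3 := by linarith
  have key : ∀ z : ℚ, z ^ 3 + c'.1 * z + c'.2 = (z - e0) *
      (z - (e0 - (g : ℚ) ^ 2 * (a : ℚ) ^ 2)) * (z - (e0 - (g : ℚ) ^ 2 * (b : ℚ) ^ 2)) := by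
    intro z
    rw [hA, hB, hE]
    ring
  rw [key] at hxy he
  have hrq : ((r : ℚ)) ^ 3 + c'.1 * r + c'.2 = 0 := by exact_mod_cast hr0
  rw [key] at hrq
  have hrn : 3 * (r : ℚ) ^ 2 + (c'.1 : ℚ) < 0 := by exact_mod_cast hr
  rcases mul_eq_zero.1 he with h | h
  · rcases mul_eq_zero.1 h with h | h
    · -- the point above the highest root
      have hee : e = e0 := by linarith
      rw [hee] at hx
      have hx2 : (x - e0 - (g : ℚ) ^ 2 * (a * b)) * (x - e0 + (g : ℚ) ^ 2 * (a * b)) = 0 := by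
        have : (x - e0) ^ 2 = (g : ℚ) ^ 4 * (a : ℚ) ^ 2 * (b : ℚ) ^ 2 := by
          rw [hx, hA, hE]
          ring
        linear_combination this
      have hr2 : (r : ℚ) = e0 - (g : ℚ) ^ 2 * (a : ℚ) ^ 2 ∨ (r : ℚ) = e0 - (g : ℚ) ^ 2 * (b : ℚ) ^ 2 := by
        rcases mul_eq_zero.1 hrq with h' | h'
        · rcases mul_eq_zero.1 h' with h' | h'
          · exfalso
            have : (r : ℚ) = e0 := by linarith
            rw [this] at hrn
            have h4 : 3 * (e0 : ℚ) ^ 2 + (c'.1 : ℚ) = (g : ℚ) ^ 4 * (a : ℚ) ^ 2 * (b : ℚ) ^ 2 := by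
              rw [hA, hE]
              ring
            rw [h4] at hrn
            have : (0 : ℚ) < (g : ℚ) ^ 4 * (a : ℚ) ^ 2 * (b : ℚ) ^ 2 := by positivity
            linarith
          · exact Or.inl (by linarith)
        · exact Or.inr (by linarith)
      rcases mul_eq_zero.1 hx2 with h5 | h5
      · rcases hr2 with h6 | h6
        · obtain ⟨z, hz⟩ := isSq_of (K := a * (a + b)) hg.ne' (by
            have : (g : ℚ) ^ 2 * ((a * (a + b) : ℤ) : ℚ) = x - r := by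
              rw [h6]
              push_cast
              linear_combination -h5
            rw [this]
            exact hs)
          exact ⟨z, Or.inl hz⟩
        · obtain ⟨z, hz⟩ := isSq_of (K := b * (b + a)) hg.ne' (by
            have : (g : ℚ) ^ 2 * ((b * (b + a) : ℤ) : ℚ) = x - r := by
              rw [h6]
              push_cast
              linear_combination -h5
            rw [this]
            exact hs)
          exact ⟨z, Or.inr (Or.inr (Or.inl hz))⟩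
      · rcases hr2 with h6 | h6
        · obtain ⟨z, hz⟩ := isSq_of (K := a * (a - b)) hg.ne' (by
            have : (g : ℚ) ^ 2 * ((a * (a - b) : ℤ) : ℚ) = x - r := by
              rw [h6]
              push_cast
              linear_combination -h5
            rw [this]
            exact hs)
          exact ⟨z, Or.inr (Or.inl hz)⟩
        · obtain ⟨z, hz⟩ := isSq_of (K := b * (b - a)) hg.ne' (by
            have : (g : ℚ) ^ 2 * ((b * (b - a) : ℤ) : ℚ) = x - r := by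
              rw [h6]
              push_cast
              linear_combination -h5
            rw [this]
            exact hs)
          exact ⟨z, Or.inr (Or.inr (Or.inr hz))⟩
    · exfalso
      have hee : e = e0 - (g : ℚ) ^ 2 * (a : ℚ) ^ 2 := by linarith
      rw [hee] at hx
      refine low_false hg0 ha0 hb0 hab0 hxy ?_
      rw [hx, hA, hE]
      ring
  · exfalso
    have hee : e = e0 - (g : ℚ) ^ 2 * (b : ℚ) ^ 2 := by linarith
    rw [hee] at hx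
    refine low_false (x := x) (y := y) (e0 := e0) hg0 hb0 ha0 hab0.symm (by rw [hxy]; ring) ?_
    rw [hx, hA, hE]
    ring

/-- **if the quotient has a rational point of order eight, the parameters are exceptional** -/
theorem bad4_of {c c' : ℤ × ℤ} {e q : ℤ} {u : ℕ} {r : ℤ} (L : Lk c c' e q u r)
    (hr : 3 * r ^ 2 + c'.1 < 0) {R : (Sh c.1 c.2).toAffine.Point} (hRo : addOrderOf R = 8)
    {a b : ℤ} (hR : Rel c' (a, b)) : Bad4 (a, b) := by
  classical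
  have h9 := mid_sign L hr
  obtain ⟨i⟩ := Pool.Agent.Q8.NS.exists_bcE (Sh c.1 c.2)
  obtain ⟨S, hS⟩ : ∃ S, S = i.symm R := ⟨_, rfl⟩
  have hSo : addOrderOf S = 8 := by
    rw [hS, ← hRo]
    exact addOrderOf_injective i.symm.toAddMonoidHom i.symm.injective R
  obtain ⟨θ, hk, hsq⟩ := hom_sq L
  have b1 : ((Sh c.1 c.2).baseChange ℚ).toAffine.a₁ = 0 := map_zero _
  have b2 : ((Sh c.1 c.2).baseChange ℚ).toAffine.a₂ = 0 := map_zero _
  have b3 : ((Sh c.1 c.2).baseChange ℚ).toAffine.a₃ = 0 := map_zero _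
  have b4 : ((Sh c.1 c.2).baseChange ℚ).toAffine.a₄ = (c.1 : ℚ) := map_intCast _ _
  have b6 : ((Sh c.1 c.2).baseChange ℚ).toAffine.a₆ = (c.2 : ℚ) := map_intCast _ _
  have d1 : ((Sh c'.1 c'.2).baseChange ℚ).toAffine.a₁ = 0 := map_zero _
  have d2 : ((Sh c'.1 c'.2).baseChange ℚ).toAffine.a₂ = 0 := map_zero _
  have d3 : ((Sh c'.1 c'.2).baseChange ℚ).toAffine.a₃ = 0 := map_zero _
  have d4 : ((Sh c'.1 c'.2).baseChange ℚ).toAffine.a₄ = (c'.1 : ℚ) := map_intCast _ _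
  have d6 : ((Sh c'.1 c'.2).baseChange ℚ).toAffine.a₆ = (c'.2 : ℚ) := map_intCast _ _
  have hroot : ∀ x : ℚ, x ^ 3 + (c.1 : ℚ) * x + (c.2 : ℚ) = 0 → x = e := by
    intro x hx
    rw [L.hc1, L.hc2] at hx
    push_cast at hx
    have h1 : (x - e) * (x ^ 2 + e * x + (q ^ 2 - 2 * e ^ 2)) = 0 := by linear_combination hx
    rcases mul_eq_zero.1 h1 with h2 | h2
    · exact sub_eq_zero.1 h2
    · exfalso
      have h3 : (9 * (e : ℚ) ^ 2) < 4 * (q : ℚ) ^ 2 := by exact_mod_cast h9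
      nlinarith [sq_nonneg (2 * x + e)]
  -- the multiples of `S`
  have m8 : ((S + S) + (S + S)) + ((S + S) + (S + S)) = 0 := by
    have : (8 : ℕ) • S = 0 := by
      rw [← hSo]
      exact addOrderOf_nsmul_eq_zero S
    rw [← two_nsmul, ← two_nsmul, ← two_nsmul, ← mul_nsmul, ← mul_nsmul]
    exact this
  have m4 : (S + S) + (S + S) ≠ 0 := by
    intro h0
    have : addOrderOf S ∣ 4 := by
      rw [addOrderOf_dvd_iff_nsmul_eq_zero, show (4 : ℕ) = 2 * 2 from rfl, mul_nsmul, two_nsmul,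
        two_nsmul]
      exact h0
    rw [hSo] at this
    omega
  obtain ⟨S2, hS2⟩ : ∃ S2, S2 = S + S := ⟨_, rfl⟩
  rw [← hS2] at m8 m4
  -- `4 S` is the point of order two
  have h4S : ∃ h, S2 + S2 = (Affine.Point.some ((e : ℤ) : ℚ) 0 h :
      ((Sh c.1 c.2).baseChange ℚ).toAffine.Point) := by
    rcases S2 with _ | ⟨x, y, hxy⟩
    · exact absurd (add_zero _) m4
    · obtain ⟨e', h', he1, he2, -⟩ := @four_pt ℚ _ _ (Classical.decEq ℚ) _ b1 b2 b3 _ _ hxy m4 m8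
      rw [b4, b6] at he2
      have := hroot e' he2
      subst this
      exact ⟨h', he1⟩
  have hθ4 : θ.f ℚ (S2 + S2) = 0 := (hk _).2 (Or.inr h4S)
  have hθ2 : θ.f ℚ S2 ≠ 0 := by
    intro h0
    rcases (hk _).1 h0 with h1 | ⟨h2, h1⟩
    · rw [h1, add_zero] at m4
      exact m4 rfl
    · apply m4
      rw [h1]
      refine @Affine.Point.add_self_of_Y_eq ℚ _ _ (Classical.decEq ℚ) _ _ _ ?_
      rw [Affine.negY, b1, b3]
      ring
  obtain ⟨Y, hY⟩ : ∃ Y, Y = θ.f ℚ S := ⟨_, rfl⟩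
  have hYY : Y + Y = θ.f ℚ S2 := by rw [hY, hS2, map_add]
  have hY2 : Y + Y ≠ 0 := by rw [hYY]; exact hθ2
  have hY4 : (Y + Y) + (Y + Y) = 0 := by rw [hYY, ← map_add]; exact hθ4
  rcases Y with _ | ⟨x, y, hxy⟩
  · exact absurd (add_zero _) hY2
  obtain ⟨e', h', he1, he2, he3⟩ := @four_pt ℚ _ _ (Classical.decEq ℚ) _ d1 d2 d3 _ _ hxy hY2 hY4
  rw [d4, d6] at he2
  rw [d4] at he3
  have hs := hsq S x y hxy hY.symm
  have heq : y ^ 2 = x ^ 3 + (c'.1 : ℚ) * x + (c'.2 : ℚ) := by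
    have := (Affine.equation_iff ..).1 hxy.1
    rw [d1, d2, d3, d4, d6] at this
    linear_combination this
  have hr0 : r ^ 3 + c'.1 * r + c'.2 = 0 := by
    have := (roots_L L (3 * e + 2 * q) (Or.inl rfl)).1
    exact_mod_cast this
  exact bad4_alg hR hr hr0 heq he2 he3 hs

end Pool.Agent.Q17.TN
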