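import Mathlib
import Pool.Agent.Q17.TN.Frb

/-! There are many curves with torsion group `Z/4`. -/

set_option autoImplicit false

namespace Pool.Agent.Q17.TN

open Finset Filter WeierstrassCurve
open Pool.Agent.W307.RT (Sh HasT Cv PAR LOW)
open Pool.Agent.Q17.IG (Lk Rd)
open Pool.Agent.W605.RT (Rel FF FF_rel rel_unique rel_bound)

lemma bad4_pair {w : ℤ × ℤ} (hc : IsCoprime w.1 w.2) (h : Bad4 w) :
    (Sq2 w.1 ∧ Sq2 (w.1 + w.2)) ∨ (Sq2 w.1 ∧ Sq2 (w.1 - w.2)) ∨ (Sq2 w.2 ∧ Sq2 (w.2 + w.1)) ∨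
      (Sq2 w.2 ∧ Sq2 (w.2 - w.1)) := by
  obtain ⟨z, h | h | h | h⟩ := h
  · left
    exact sq2_int (Or.inl h) (gcd_two (p := 2) (q := 0) (r := -2) (s := 2) hc (by ring) (by ring))
  · right; left
    exact sq2_int (Or.inl h) (gcd_two (p := 2) (q := 0) (r := 2) (s := -2) hc (by ring) (by ring))
  · right; right; left
    exact sq2_int (Or.inl h) (gcd_two (p := 2) (q := 0) (r := -2) (s := 2) hc.symm (by ring)
      (by ring))
  · right; right; right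
    exact sq2_int (Or.inl h) (gcd_two (p := 2) (q := 0) (r := 2) (s := -2) hc.symm (by ring)
      (by ring))

/-- the number of the exceptional pairs -/
theorem bad4_card (A : Finset (ℤ × ℤ)) (T : ℕ) (hT : 1 ≤ T)
    (hA : ∀ w ∈ A, w.1.natAbs ≤ T ∧ w.2.natAbs ≤ T ∧ IsCoprime w.1 w.2 ∧ Bad4 w) :
    A.card ≤ 768 * T := by
  classical
  have hSS : ∀ x : ℤ, x.natAbs ≤ 3 * T → Sq2 x → x ∈ SS (3 * T) := by
    intro x hx h
    unfold SS
    rw [mem_filter, mem_Icc]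
    exact ⟨by omega, h⟩
  obtain ⟨A1, hA1⟩ : ∃ A1, A1 = A.filter (fun w => Sq2 w.1 ∧ Sq2 (w.1 + w.2)) := ⟨_, rfl⟩
  obtain ⟨A2, hA2⟩ : ∃ A2, A2 = A.filter (fun w => Sq2 w.1 ∧ Sq2 (w.1 - w.2)) := ⟨_, rfl⟩
  obtain ⟨A3, hA3⟩ : ∃ A3, A3 = A.filter (fun w => Sq2 w.2 ∧ Sq2 (w.2 + w.1)) := ⟨_, rfl⟩
  obtain ⟨A4, hA4⟩ : ∃ A4, A4 = A.filter (fun w => Sq2 w.2 ∧ Sq2 (w.2 - w.1)) := ⟨_, rfl⟩
  have h1 : A ⊆ ((A1 ∪ A2) ∪ A3) ∪ A4 := by
    intro w hw
    obtain ⟨-, -, h1, h2⟩ := hA w hw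
    rw [mem_union, mem_union, mem_union, hA1, hA2, hA3, hA4, mem_filter, mem_filter, mem_filter,
      mem_filter]
    rcases bad4_pair h1 h2 with h | h | h | h
    · exact Or.inl (Or.inl (Or.inl ⟨hw, h⟩))
    · exact Or.inl (Or.inl (Or.inr ⟨hw, h⟩))
    · exact Or.inl (Or.inr ⟨hw, h⟩)
    · exact Or.inr ⟨hw, h⟩
  have c1 := pairs_card A1 (3 * T) (by omega) (fun w => (w.1, w.1 + w.2)) (by
      rintro ⟨a, b⟩ ⟨a', b'⟩ h
      simp only [Prod.mk.injEq] at h ⊢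
      omega) (by
      intro w hw
      rw [hA1, mem_filter] at hw
      obtain ⟨g1, g2, -⟩ := hA w hw.1
      exact ⟨hSS _ (by show w.1.natAbs ≤ _; omega) hw.2.1,
        hSS _ (by show (w.1 + w.2).natAbs ≤ _; omega) hw.2.2⟩)
  have c2 := pairs_card A2 (3 * T) (by omega) (fun w => (w.1, w.1 - w.2)) (by
      rintro ⟨a, b⟩ ⟨a', b'⟩ h
      simp only [Prod.mk.injEq] at h ⊢
      omega) (by
      intro w hw
      rw [hA2, mem_filter] at hw
      obtain ⟨g1, g2, -⟩ := hA w hw.1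
      exact ⟨hSS _ (by show w.1.natAbs ≤ _; omega) hw.2.1,
        hSS _ (by show (w.1 - w.2).natAbs ≤ _; omega) hw.2.2⟩)
  have c3 := pairs_card A3 (3 * T) (by omega) (fun w => (w.2, w.2 + w.1)) (by
      rintro ⟨a, b⟩ ⟨a', b'⟩ h
      simp only [Prod.mk.injEq] at h ⊢
      omega) (by
      intro w hw
      rw [hA3, mem_filter] at hw
      obtain ⟨g1, g2, -⟩ := hA w hw.1
      exact ⟨hSS _ (by show w.2.natAbs ≤ _; omega) hw.2.1,
        hSS _ (by show (w.2 + w.1).natAbs ≤ _; omega) hw.2.2⟩)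
  have c4 := pairs_card A4 (3 * T) (by omega) (fun w => (w.2, w.2 - w.1)) (by
      rintro ⟨a, b⟩ ⟨a', b'⟩ h
      simp only [Prod.mk.injEq] at h ⊢
      omega) (by
      intro w hw
      rw [hA4, mem_filter] at hw
      obtain ⟨g1, g2, -⟩ := hA w hw.1
      exact ⟨hSS _ (by show w.2.natAbs ≤ _; omega) hw.2.1,
        hSS _ (by show (w.2 - w.1).natAbs ≤ _; omega) hw.2.2⟩)
  have h2 := card_le_card h1
  have h3 := card_union_le ((A1 ∪ A2) ∪ A3) A4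
  have h4 := card_union_le (A1 ∪ A2) A3
  have h5 := card_union_le A1 A2
  omega

/-- there is no rational point of order eight -/
def No8 (W : WeierstrassCurve ℚ) : Prop := ∀ P : W.toAffine.Point, addOrderOf P ≠ 8

open Classical in
/-- the family -/
noncomputable def G4 (H : ℕ) : Finset (ℤ × ℤ) :=
  (FN 4 H).filter (fun c => One2 (Sh c.1 c.2) ∧ No8 (Sh c.1 c.2))

lemma G4_mono : Monotone G4 := by
  classical
  intro H H' h
  exact filter_subset_filter _ (FN_mono 4 h)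

lemma FF4_rel {c : ℤ × ℤ} {H : ℕ} (hc : c ∈ Cv 4 H) : Rel c (FF c) := by
  obtain ⟨h1, -, -, -, h5⟩ := mem_Cv.1 hc
  exact FF_rel (Pool.Agent.W605.RT.core h1 h5)

/-- the curves with exceptional parameters are rare -/
lemma bad4_cv (H T : ℕ) (hT : 1 ≤ T) (hH : 54 * H ≤ T ^ 12) (B : Finset (ℤ × ℤ))
    (hB : ∀ c ∈ B, c ∈ Cv 4 H ∧ Bad4 (FF c)) : B.card ≤ 768 * T := by
  classical
  have hinj : Set.InjOn FF (B : Set (ℤ × ℤ)) := by
    intro c hc c' hc' hcc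
    have hR := FF4_rel (hB c hc).1
    have hR' := FF4_rel (hB c' hc').1
    rw [← hcc] at hR'
    exact rel_unique hR hR' (mem_Cv.1 (hB c hc).1).2.2.2.1 (mem_Cv.1 (hB c' hc').1).2.2.2.1
  rw [← card_image_of_injOn hinj]
  apply bad4_card _ T hT
  intro w hw
  obtain ⟨c, hc, rfl⟩ := mem_image.1 hw
  obtain ⟨hcv, hbad⟩ := hB c hc
  have hR := FF4_rel hcv
  have hh := (mem_Cv.1 hcv).2.1
  obtain ⟨b1, b2⟩ := rel_bound (A := c.1) (B := c.2) hR hh
  obtain ⟨g, e, -, hco, -⟩ := hR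
  refine ⟨?_, ?_, hco, hbad⟩
  · exact (Nat.pow_le_pow_iff_left (by norm_num)).1 (b1.trans hH)
  · exact (Nat.pow_le_pow_iff_left (by norm_num)).1 (b2.trans hH)

theorem many4 : Many 12 G4 := by
  classical
  obtain ⟨c, C, T0, hc, hlow⟩ := Pool.Agent.W29.RT.low4
  obtain ⟨K, hK⟩ : ∃ K : ℕ, K = 54 * C + 1 := ⟨_, rfl⟩
  obtain ⟨T1, hT1⟩ := exists_nat_gt (1536 * (K : ℝ) / c)
  refine ⟨c / 6, 4096 * C, max T0 (T1 + 1), by positivity, fun T H hT hH => ?_⟩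
  have hT0 : T0 ≤ T := (le_max_left _ _).trans hT
  have hT1' : T1 + 1 ≤ T := (le_max_right _ _).trans hT
  obtain ⟨H0, hH0⟩ : ∃ H0 : ℕ, H0 = C * T ^ 12 := ⟨_, rfl⟩
  have h1 := hlow T H0 hT0 hH0.ge
  obtain ⟨S, hS⟩ : ∃ S, S = (Cv 4 H0).filter (fun c => ¬ Bad4 (FF c)) := ⟨_, rfl⟩
  obtain ⟨B, hB⟩ : ∃ B, B = (Cv 4 H0).filter (fun c => Bad4 (FF c)) := ⟨_, rfl⟩
  have hsum : B.card + S.card = (Cv 4 H0).card := by
    rw [hB, hS]
    exact card_filter_add_card_filter_not _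
  have hBc : B.card ≤ 768 * (K * T) := by
    refine bad4_cv H0 (K * T) ?_ ?_ B (fun c hc => ?_)
    · exact Nat.mul_pos (by omega) (by omega)
    · rw [hH0, mul_pow, ← mul_assoc]
      apply Nat.mul_le_mul_right
      calc 54 * C ≤ K := by omega
        _ = K ^ 1 := (pow_one K).symm
        _ ≤ K ^ 12 := Nat.pow_le_pow_right (by omega) (by norm_num)
    · rw [hB, mem_filter] at hc
      exact hc
  have hSc : S.card ≤ 3 * (G4 H).card := by
    refine card_down2 (n := 4) (m := 1) (by norm_num) (by norm_num) H0 S (G4 H)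
      (by rw [hS]; exact filter_subset _ _) (fun c c' e q u r L hc' hc h2 hr => ?_)
    rw [hS, mem_filter] at hc'
    unfold G4
    rw [mem_filter]
    refine ⟨FN_mono 4 ?_ hc, h2, fun P hP => ?_⟩
    · rw [hH0]
      exact le_trans (le_of_eq (by ring)) hH
    · exact hc'.2 (bad4_of L hr hP (FF4_rel hc'.1))
  have h2 : ((B.card : ℕ) : ℝ) + (S.card : ℝ) = ((Cv 4 H0).card : ℝ) := by exact_mod_cast hsum
  have h3 : ((B.card : ℕ) : ℝ) ≤ 768 * ((K : ℝ) * T) := by exact_mod_cast hBc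
  have h4 : ((S.card : ℕ) : ℝ) ≤ 3 * ((G4 H).card : ℝ) := by exact_mod_cast hSc
  have h5 : (T1 : ℝ) + 1 ≤ T := by exact_mod_cast hT1'
  have h6 : 1536 * (K : ℝ) ≤ c * T := by
    have : 1536 * (K : ℝ) < c * T1 := by
      rw [div_lt_iff₀ hc] at hT1
      linarith
    nlinarith
  have h7 : 1536 * (K : ℝ) * T ≤ c * T * T := by
    apply mul_le_mul_of_nonneg_right h6 (Nat.cast_nonneg _)
  nlinarith

end Pool.Agent.Q17.TN
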